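import Pool.Agent.H11.BK.Zero

/-!
# [H61 WN Bog] THEOREM WN: bounded degree over a cyclotomic field (Amoroso - Zannier), clean form of `Pool.Agent.H11.BK.zero`

`zero (K := ℚ) (r := 0)` with `Ω = F` (`F` is algebraic over `ℚ`), `ξ`, `x` the empty family.
-/

set_option autoImplicit false

namespace Pool.Agent.H61.WN

open NumberField

private theorem deg_congr {F : Type} [Field F] [NumberField F] (y : F) (L L' : IntermediateField ℚ F)
    (h : L = L') : (minpoly L y).natDegree = (minpoly L' y).natDegree := by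
  subst h; rfl

theorem bog (d : ℕ) : ∃ c : ℝ, 0 < c ∧ ∀ (N : ℕ) (F : Type) [Field F] [NumberField F] (ξ y : F), 0 < N → IsPrimitiveRoot ξ N →
    y ≠ 0 → (minpoly (IntermediateField.adjoin ℚ ({ξ} : Set F)) y).natDegree ≤ d → absLogHeight₁ y < c →
    ∃ k : ℕ, 0 < k ∧ y ^ k = 1 := by
  obtain ⟨c, hc, h⟩ := Pool.Agent.H11.BK.zero (K := ℚ) (fun i : Fin 0 => i.elim0) d
  refine ⟨c, hc, ?_⟩
  intro N F _ _ ξ y hN hξ hy hd hh
  have hFF : Pool.Agent.H11.BK.FF ℚ ξ (fun i : Fin 0 => (i.elim0 : F)) =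
      IntermediateField.adjoin ℚ ({ξ} : Set F) := by
    unfold Pool.Agent.H11.BK.FF
    rw [Set.range_eq_empty, Set.union_empty]
  have hs : Pool.Agent.H11.BK.Sys ℚ (fun i : Fin 0 => i.elim0) N (fun i : Fin 0 => i.elim0) ξ
      (fun i : Fin 0 => (i.elim0 : F)) :=
    { hn := hN
      hm := fun i => i.elim0
      cn := fun i => i.elim0
      prim := hξ
      hx := fun i => i.elim0
      deg := by
        rw [hFF, Finset.univ_eq_empty, Finset.prod_empty, one_mul]
        rfl }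
  have hdg : Pool.Agent.H11.BK.dgr ℚ ξ (fun i : Fin 0 => (i.elim0 : F)) y ≤ d := by
    unfold Pool.Agent.H11.BK.dgr
    rw [deg_congr y _ _ hFF]
    exact hd
  obtain ⟨k, hk, j, hj⟩ := h F N (fun i : Fin 0 => i.elim0) ξ (fun i : Fin 0 => (i.elim0 : F)) y hs hy hdg hh
  refine ⟨k, hk, ?_⟩
  rw [hj, Finset.univ_eq_empty, Finset.prod_empty]

end Pool.Agent.H61.WN
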