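import Pool.Agent.H61.WN.Fou
import Pool.Agent.H61.WN.Bog
import Pool.Agent.H22.Lh.Hgt
import Pool.Agent.H4.RR.AbsHeight

/-!
# [H61 WN Abl] THEOREM WN: small height and one row: the row is a rational number up to a square root and a root of unity

`a = A x^j`, `A ∈ ℚ(z)`. For `s : (ZMod N)ˣ` there is an automorphism `σ` of `F` with `e(1,0) (σ y) = e(s,0) y` (both embeddings have the image
`ℚ(ζ_N, ρ)`: every `y ∈ F` is `∑ c(l,j) z^l x^j` with rational `c` by `inversion`, `isA_sum`, so one can also work in `ℂ` only). `e(s,0)(x) = ρ = e(1,0)(x)`, so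
`β := e(s,0)(a)/e(1,0)(a) = e(s,0)(A)/e(1,0)(A)` is in `ℚ(ζ_N)` and not `0`, and `h(β) ≤ h(e(s,0) a) + h(e(1,0) a) = 2 h(a)` (heights of conjugates agree; Mathlib /
library: `absLogHeight₁` of a product and of an inverse, see `Pool/Agent/H11/BK` `height_map` and the subadditivity used there). `h(a)` is the mean of `log^+` over the embeddings (`hgt` below is the
same number; `Pool.H22.Lh.height_eq`, `meanC_eq`). By `zero` (`K = ℚ`, `r = 0`, `d = 1`) `β` is a root of unity when `2 h(a) < c`.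
`s = -1`: `A / Ac` is a root of unity, `Ac` the complex conjugate (`e st Ac = conj (e st A)`; `A = ∑ q_l z^l`, `Ac = ∑ q_l z^(-l)`), all `|e(s,0) A|` are equal, so `A Ac` has the same
image `|e A|^2` under all embeddings: it is a rational number `B > 0` (`trace_eq`). `A^2 = B (A/Ac)`, `a^2 = u B x^(2j)`, `u^k = 1`.
-/

set_option autoImplicit false

namespace Pool.Agent.H61.WN

open NumberField

open Finset

/-- the height of an algebraic integer -/
private theorem ht_int {F : Type} [Field F] [NumberField F] (a : F) (ha : IsIntegral ℤ a) :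
    Height.logHeight₁ a = ∑ τ : F →+* ℂ, Real.posLog ‖τ a‖ := by
  have hfin : ∀ v : FinitePlace F, v a ≤ 1 := by
    intro v
    obtain ⟨w, hw⟩ := (show ∃ w : 𝓞 F, algebraMap (𝓞 F) F w = a from
      (IsIntegralClosure.isIntegral_iff (R := ℤ) (A := 𝓞 F)).1 ha)
    rw [← hw]
    have := FinitePlace.norm_le_one F v.maximalIdeal w
    rwa [FinitePlace.norm_embedding_eq] at this
  have h2 : Height.logHeight₁ a = ∑ v : InfinitePlace F, v.mult * Real.posLog (v a) := by
    rw [NumberField.logHeight₁_eq]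
    have : ∀ v : FinitePlace F, Real.posLog (v a) = 0 := by
      intro v
      rw [Real.posLog_eq_zero_iff]
      rw [abs_of_nonneg (apply_nonneg v a)]
      exact hfin v
    simp [this]
  rw [h2]
  classical
  rw [← Finset.sum_fiberwise Finset.univ InfinitePlace.mk (fun φ : F →+* ℂ => Real.posLog ‖φ a‖)]
  refine Finset.sum_congr rfl fun w _ => ?_
  have (φ) (hφ : φ ∈ (Finset.univ.filter (fun φ : F →+* ℂ => InfinitePlace.mk φ = w))) :
      Real.posLog ‖φ a‖ = Real.posLog (w a) := by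
    rw [← (Finset.mem_filter.mp hφ).2, InfinitePlace.apply]
  rw [Finset.sum_congr rfl this, Finset.sum_const, InfinitePlace.card_filter_mk_eq, nsmul_eq_mul]

/-- the height of a quotient of two conjugates -/
private theorem ht_quot {F : Type} [Field F] [NumberField F] (a : F) (ha : IsIntegral ℤ a)
    (σ τ : F →+* ℂ) : absLogHeight₁ (σ a / τ a) * Fintype.card (F →+* ℂ) ≤
      2 * ∑ φ : F →+* ℂ, Real.posLog ‖φ a‖ := by
  have haQ : IsIntegral ℚ a := ha.tower_top
  have h1 := Pool.Agent.H4.RR.absLogHeight_eq F ℂ σ a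
  have h2 := Pool.Agent.H4.RR.absLogHeight_eq F ℂ τ a⁻¹
  rw [Height.logHeight₁_inv, map_inv₀] at h2
  have h3 := Pool.Agent.H4.RR.absLogHeight_mul_le ℂ (σ a) (τ a)⁻¹
    (haQ.map σ.toRatAlgHom) (haQ.map τ.toRatAlgHom).inv
  rw [h1, h2, ht_int a ha, ← div_eq_mul_inv] at h3
  have h4 : Fintype.card (F →+* ℂ) = Module.finrank ℚ F := NumberField.Embeddings.card F ℂ
  have h5 : (0 : ℝ) < Module.finrank ℚ F := by
    exact_mod_cast (Module.finrank_pos (R := ℚ) (M := F))
  rw [h4]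
  have h6 := mul_le_mul_of_nonneg_right h3 h5.le
  rw [add_mul, div_mul_cancel₀ _ h5.ne'] at h6
  linarith

/-- a number of small height in the cyclotomic field -/
private theorem root_of {c : ℝ} (hc : ∀ (N : ℕ) (F : Type) [Field F] [NumberField F] (ξ y : F), 0 < N →
      IsPrimitiveRoot ξ N → y ≠ 0 →
      (minpoly (IntermediateField.adjoin ℚ ({ξ} : Set F)) y).natDegree ≤ 1 → absLogHeight₁ y < c →
      ∃ k : ℕ, 0 < k ∧ y ^ k = 1) (N : ℕ) (hN : 0 < N) (ζ β : ℂ) (hζ : IsPrimitiveRoot ζ N)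
    (hβ : β ∈ IntermediateField.adjoin ℚ ({ζ} : Set ℂ)) (hβ0 : β ≠ 0) (hh : absLogHeight₁ β < c) :
    ∃ k : ℕ, 0 < k ∧ β ^ k = 1 := by
  have hζi : IsIntegral ℚ ζ := by
    refine IsIntegral.of_pow hN ?_
    rw [hζ.pow_eq_one]
    exact isIntegral_one
  obtain ⟨F, hF⟩ : ∃ F : IntermediateField ℚ ℂ, F = IntermediateField.adjoin ℚ ({ζ} : Set ℂ) :=
    ⟨_, rfl⟩
  have hFD : FiniteDimensional ℚ F := by
    rw [hF]
    exact IntermediateField.adjoin.finiteDimensional hζi
  have hNF : NumberField F := {}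
  have hζF : ζ ∈ F := by
    rw [hF]
    exact IntermediateField.mem_adjoin_simple_self ℚ ζ
  rw [← hF] at hβ
  obtain ⟨z, hz⟩ : ∃ z : F, (z : ℂ) = ζ := ⟨⟨ζ, hζF⟩, rfl⟩
  obtain ⟨y, hy⟩ : ∃ y : F, (y : ℂ) = β := ⟨⟨β, hβ⟩, rfl⟩
  have hgen : IntermediateField.adjoin ℚ ({z} : Set F) = ⊤ := by
    have key : ∀ i : Algebra ℚ F, @IntermediateField.adjoin ℚ _ F _ i {z} = ⊤ := by
      intro i
      have h : i = F.algebra' := Subsingleton.elim _ _
      subst h
      apply IntermediateField.lift_injective F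
      rw [IntermediateField.lift_adjoin, IntermediateField.lift_top, Set.image_singleton]
      have h1 : (Subtype.val z : ℂ) = ζ := hz
      rw [h1]
      exact hF.symm
    exact key _
  have hdeg : (minpoly (IntermediateField.adjoin ℚ ({z} : Set F)) y).natDegree ≤ 1 := by
    have hmem : y ∈ IntermediateField.adjoin ℚ ({z} : Set F) := by
      rw [hgen]
      trivial
    have h1 : minpoly (IntermediateField.adjoin ℚ ({z} : Set F)) y ∣
        Polynomial.X - Polynomial.C (⟨y, hmem⟩ : IntermediateField.adjoin ℚ ({z} : Set F)) := by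
      refine minpoly.dvd _ _ ?_
      rw [map_sub, Polynomial.aeval_X, Polynomial.aeval_C]
      exact sub_self y
    have h2 := Polynomial.natDegree_le_of_dvd h1 (Polynomial.X_sub_C_ne_zero _)
    rwa [Polynomial.natDegree_X_sub_C] at h2
  have hht : absLogHeight₁ y = absLogHeight₁ β := by
    have h1 := Pool.Agent.H4.RR.absLogHeight_eq F ℂ (F.val : F →+* ℂ) y
    have h2 := Pool.Agent.H4.RR.absLogHeight_eq F F (RingHom.id F) y
    have h3 : (F.val : F →+* ℂ) y = β := hy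
    rw [h3] at h1
    rw [RingHom.id_apply] at h2
    rw [h1, h2]
  have hpr : IsPrimitiveRoot z N := by
    refine IsPrimitiveRoot.of_map_of_injective (f := (F.val : F →+* ℂ)) ?_ (F.val : F →+* ℂ).injective
    have h3 : (F.val : F →+* ℂ) z = ζ := hz
    rw [h3]
    exact hζ
  obtain ⟨k, hk, hyk⟩ := hc N F z y hN hpr (by
      rintro rfl
      exact hβ0 hy.symm) hdeg (by rw [hht]; exact hh)
  refine ⟨k, hk, ?_⟩
  have h1 := congrArg (Subtype.val : F → ℂ) hyk
  rw [← hy]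
  exact h1

theorem abl : ∃ c : ℝ, 0 < c ∧ ∀ (p N b : ℕ) [Fact p.Prime] [NeZero N] (F : Type) [Field F] [NumberField F]
    (D : Dat p N b F) (A : F) (j : ZMod p), D.isA A → IsIntegral ℤ (A * D.x ^ j.val) → A ≠ 0 → D.x ≠ 0 →
    ∑ st : (ZMod N)ˣ × ZMod p, Real.posLog ‖D.e st (A * D.x ^ j.val)‖ < c * Fintype.card ((ZMod N)ˣ × ZMod p) →
    ∃ (B : ℚ) (u : F) (k : ℕ), 0 < B ∧ 0 < k ∧ u ^ k = 1 ∧ A ^ 2 = (B : F) * u := by
  obtain ⟨c, hc, h⟩ := bog 1
  refine ⟨c / 2, by positivity, ?_⟩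
  intro p N b _ _ F _ _ D A j hA hint hA0 hx0 hsum
  have hN : 0 < N := Nat.pos_of_ne_zero (NeZero.ne N)
  obtain ⟨q, hq⟩ := isA_sum D A hA
  obtain ⟨a, ha⟩ : ∃ a : F, a = A * D.x ^ j.val := ⟨_, rfl⟩
  rw [← ha] at hint hsum
  -- the sum over the embeddings
  have hcard : Fintype.card ((ZMod N)ˣ × ZMod p) = Fintype.card (F →+* ℂ) :=
    Fintype.card_of_bijective D.he
  have hsum' : ∑ φ : F →+* ℂ, Real.posLog ‖φ a‖ < c / 2 * Fintype.card (F →+* ℂ) := by
    rw [← hcard]
    rw [← Function.Bijective.sum_comp D.he (fun φ : F →+* ℂ => Real.posLog ‖φ a‖)]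
    exact hsum
  have hcpos : (0 : ℝ) < Fintype.card (F →+* ℂ) := by
    have h1 : Fintype.card (F →+* ℂ) = Module.finrank ℚ F := NumberField.Embeddings.card F ℂ
    rw [h1]
    exact_mod_cast (Module.finrank_pos (R := ℚ) (M := F))
  have hea : ∀ st, D.e st A ≠ 0 := fun st => (map_ne_zero _).2 hA0
  have hζ : IsPrimitiveRoot (D.e (1, 0) D.z) N := D.z_prim.map_of_injective (D.e (1, 0)).injective
  -- the values of `A`
  have hval : ∀ (s : (ZMod N)ˣ) (t : ZMod p), D.e (s, t) A =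
      ∑ l : ZMod N, ((q l : ℚ) : ℂ) * ch (l * (s : ZMod N)) := by
    intro s t
    conv_lhs => rw [hq]
    rw [map_sum]
    refine Finset.sum_congr rfl fun l _ => ?_
    rw [map_mul, map_ratCast, D.e_zl]
  have hmem : ∀ s : (ZMod N)ˣ, D.e (s, 0) A ∈
      IntermediateField.adjoin ℚ ({D.e (1, 0) D.z} : Set ℂ) := by
    intro s
    rw [hval]
    refine sum_mem fun l _ => mul_mem ?_ ?_
    · exact (IntermediateField.adjoin ℚ ({D.e (1, 0) D.z} : Set ℂ)).algebraMap_mem (q l)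
    · have h1 := D.e_zl 1 0 (l * (s : ZMod N))
      rw [Units.val_one, mul_one] at h1
      rw [← h1, map_pow]
      exact pow_mem (IntermediateField.mem_adjoin_simple_self ℚ _) _
  -- the quotients are roots of unity
  have hroot : ∀ s : (ZMod N)ˣ, ∃ k : ℕ, 0 < k ∧ (D.e (s, 0) A / D.e (1, 0) A) ^ k = 1 := by
    intro s
    refine root_of h N hN (D.e (1, 0) D.z) _ hζ (div_mem (hmem s) (hmem 1))
      (div_ne_zero (hea _) (hea _)) ?_
    have h1 : D.e (s, 0) A / D.e (1, 0) A = D.e (s, 0) a / D.e (1, 0) a := by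
      have h2 : D.e (s, 0) D.x = D.e (1, 0) D.x := by rw [D.ex, D.ex]
      have h3 : D.e (1, 0) D.x ^ j.val ≠ 0 := pow_ne_zero _ ((map_ne_zero _).2 hx0)
      rw [ha, map_mul, map_mul, map_pow, map_pow, h2, mul_div_mul_right _ _ h3]
    rw [h1]
    have h2 := ht_quot a hint (D.e (s, 0)) (D.e (1, 0))
    have h3 : absLogHeight₁ (D.e (s, 0) a / D.e (1, 0) a) * Fintype.card (F →+* ℂ) <
        c * Fintype.card (F →+* ℂ) := by linarith
    exact lt_of_mul_lt_mul_right h3 hcpos.le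
  have hnorm : ∀ st, ‖D.e st A‖ = ‖D.e (1, 0) A‖ := by
    rintro ⟨s, t⟩
    obtain ⟨k, hk, hk1⟩ := hroot s
    have h1 : ‖D.e (s, 0) A / D.e (1, 0) A‖ = 1 := Complex.norm_eq_one_of_pow_eq_one hk1 hk.ne'
    rw [norm_div, div_eq_one_iff_eq (norm_ne_zero_iff.2 (hea _))] at h1
    rw [hA s t, h1]
  -- the complex conjugate
  obtain ⟨Ac, hAc⟩ : ∃ Ac : F, Ac = ∑ l : ZMod N, ((q l : ℚ) : F) * D.z ^ (-l).val := ⟨_, rfl⟩
  have hconj : ∀ st, D.e st Ac = (starRingEnd ℂ) (D.e st A) := by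
    rintro ⟨s, t⟩
    rw [hAc, hval, map_sum, map_sum]
    refine Finset.sum_congr rfl fun l _ => ?_
    rw [map_mul, map_ratCast, D.e_zl, map_mul, ← ch_neg]
    congr 1
    · exact (Complex.conj_eq_iff_real.2 ⟨((q l : ℚ) : ℝ), by push_cast; rfl⟩).symm
    · rw [neg_mul]
  have hAc0 : Ac ≠ 0 := by
    intro h0
    have h1 := hconj (1, 0)
    rw [h0, map_zero] at h1
    exact hea (1, 0) ((map_eq_zero _).1 h1.symm)
  -- the rational number
  obtain ⟨R, hR⟩ : ∃ R : ℝ, R = ‖D.e (1, 0) A‖ ^ 2 := ⟨_, rfl⟩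
  have hR0 : 0 < R := by
    rw [hR]
    have := norm_pos_iff.2 (hea (1, 0))
    positivity
  have hprod : ∀ st, D.e st (A * Ac) = (R : ℂ) := by
    intro st
    rw [map_mul, hconj, Complex.mul_conj, hR, Complex.normSq_eq_norm_sq, hnorm]
  obtain ⟨B, hB⟩ : ∃ B : ℚ, B = Algebra.trace ℚ F (A * Ac) / Fintype.card (F →+* ℂ) := ⟨_, rfl⟩
  have hBR : ((B : ℚ) : ℂ) = (R : ℂ) := by
    have h1 := D.trace_eq (A * Ac)
    rw [Finset.sum_congr rfl fun st _ => hprod st, Finset.sum_const, Finset.card_univ, hcard,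
      nsmul_eq_mul] at h1
    rw [hB]
    push_cast
    rw [h1]
    have h2 : ((Fintype.card (F →+* ℂ) : ℕ) : ℂ) ≠ 0 := by
      exact_mod_cast hcpos.ne'
    field_simp
  have hB0 : 0 < B := by
    have h1 : ((B : ℚ) : ℝ) = R := by exact_mod_cast hBR
    have h2 : (0 : ℝ) < ((B : ℚ) : ℝ) := by rw [h1]; exact hR0
    exact_mod_cast h2
  have hAB : A * Ac = (B : F) := by
    apply (D.e (1, 0)).injective
    rw [hprod, map_ratCast, hBR]
  obtain ⟨k, hk, hk1⟩ := hroot (-1)
  refine ⟨B, A / Ac, k, hB0, hk, ?_, ?_⟩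
  · apply (D.e (1, 0)).injective
    have h1 : D.e (1, 0) Ac = D.e (-1, 0) A := by
      rw [hAc, hval, map_sum]
      refine Finset.sum_congr rfl fun l _ => ?_
      rw [map_mul, map_ratCast, D.e_zl, Units.val_one, mul_one, Units.val_neg, Units.val_one,
        mul_neg, mul_one]
    have h2 : (D.e (1, 0) A / D.e (-1, 0) A) = (D.e (-1, 0) A / D.e (1, 0) A)⁻¹ := by
      rw [inv_div]
    rw [map_pow, map_div₀, h1, h2, inv_pow, hk1, inv_one, map_one]
  · rw [← hAB]
    field_simp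

end Pool.Agent.H61.WN
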