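import Pool.Agent.H61.WN.Def

/-!
# [H61 WN Pib] THEOREM WN: elementary properties of `π_k` and of `π_p = 1 - z^(-N/p)`

`w := z^(-N/p)` is a primitive `p`-th root of unity (`D.z_prim`), `ζ_p`. `pip_pow`: `∏_(0<i<p) (1 - w^i) = p` (Mathlib: `Polynomial.eval_one_cyclotomic_prime`,
`IsPrimitiveRoot` products, or the proof of `pi_pow` in `Pool/Agent/H84/WI/Pi.lean`) and `(1 - w^i) = (1 - w)(1 + w + ..)`, `(1-w) = (1-w^i)(..)`.
`xi_pow`: `w' = x^(p-1)`, `w'^p = b^(p-1)`, `(w' - 1)^p = w'^p - 1 + p(..) `, `b^(p-1) = 1` mod `p` (copy of `xi_pow` in `H84/WI/Pi.lean`).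
`pi_u`: for a prime `ℓ ∣ N`, `1 - z^(-N/ℓ)` divides `ℓ` in the ring of integers, and the product of the primes `ℓ ≠ p` dividing `N` divides `b`
(`hN`): so `b π_p = π_1 u`. (`Nat.primeFactors`, `Finset.prod_erase_mul` / `Finset.mul_prod_erase`; `Finset.prod_primes_dvd`.)
`norm_pip`: `∑ log ‖e(π_p)‖ = φ(N) p log p / (p-1)` : the norm of `π_p`. PROOF of an inequality is enough: by `pip_pow` `π_p^(p-1) = p v`, `v` a UNIT:
`v` integral and `v⁻¹` integral, so `∑ log ‖e(v)‖ = 0`; here only `≤` is used: `v⁻¹` integral gives `∑ log ‖e v‖ ≤ 0`.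
-/

set_option autoImplicit false

namespace Pool.Agent.H61.WN

open Finset

variable {p N b : ℕ} [Fact p.Prime] [NeZero N] {F : Type} [Field F] [NumberField F]

private theorem zipow_int (D : Dat p N b F) (n : ℕ) : IsIntegral ℤ (1 - D.z⁻¹ ^ n) :=
  isIntegral_one.sub (D.zi_int.pow n)

theorem piN_int (D : Dat p N b F) (k : ℕ) : IsIntegral ℤ (D.piN k) := by
  unfold Dat.piN
  exact IsIntegral.prod _ fun l _ => zipow_int D _

private theorem norm_zipow (D : Dat p N b F) (n : ℕ) (st : (ZMod N)ˣ × ZMod p) :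
    ‖D.e st (1 - D.z⁻¹ ^ n)‖ ≤ 2 := by
  have h1 : ‖D.e st (D.z⁻¹ ^ n)‖ = 1 := by
    rw [map_pow, map_inv₀, show D.e st = D.e (st.1, st.2) from rfl, D.ez, norm_pow, norm_inv, norm_ch,
      inv_one, one_pow]
  rw [map_sub, map_one]
  calc ‖(1 : ℂ) - D.e st (D.z⁻¹ ^ n)‖ ≤ ‖(1 : ℂ)‖ + ‖D.e st (D.z⁻¹ ^ n)‖ := norm_sub_le _ _
    _ = 2 := by rw [h1, norm_one]; norm_num

theorem norm_piN (D : Dat p N b F) (k : ℕ) (st : (ZMod N)ˣ × ZMod p) :
    ‖D.e st (D.piN k)‖ ≤ 2 ^ N.primeFactors.card := by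
  unfold Dat.piN
  rw [map_prod, norm_prod]
  calc ∏ l ∈ N.primeFactors, ‖D.e st (1 - D.z⁻¹ ^ (k * (N / l)))‖
      ≤ ∏ _l ∈ N.primeFactors, (2 : ℝ) :=
        Finset.prod_le_prod (fun _ _ => norm_nonneg _) fun l _ => norm_zipow D _ st
    _ = 2 ^ N.primeFactors.card := by rw [Finset.prod_const]

/-- `z^(-N/l)` is a primitive `l`-th root of unity -/
private theorem prim_l (D : Dat p N b F) (l : ℕ) (hl : l ∣ N) : IsPrimitiveRoot (D.z⁻¹ ^ (N / l)) l := by
  have hN0 : 0 < N := Nat.pos_of_ne_zero (NeZero.ne N)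
  refine D.z_prim.inv.pow hN0 ?_
  exact (Nat.div_mul_cancel hl).symm

private theorem zl_ne (D : Dat p N b F) (l : ℕ) (hl : l ∣ N) (hp : l.Prime) :
    1 - D.z⁻¹ ^ (N / l) ≠ 0 := by
  intro h
  have h1 : D.z⁻¹ ^ (N / l) = 1 := (sub_eq_zero.1 h).symm
  exact (prim_l D l hl).ne_one hp.one_lt h1

theorem piN_ne_zero (D : Dat p N b F) : D.piN 1 ≠ 0 := by
  unfold Dat.piN
  rw [Finset.prod_ne_zero_iff]
  intro l hl
  rw [one_mul]
  exact zl_ne D l (Nat.dvd_of_mem_primeFactors hl) (Nat.prime_of_mem_primeFactors hl)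

/-- `π_p` -/
noncomputable def Dat.pip (D : Dat p N b F) : F := 1 - D.z⁻¹ ^ (N / p)

theorem pip_isA (D : Dat p N b F) : D.isA D.pip := by
  intro s t
  unfold Dat.pip
  rw [map_sub, map_sub, map_pow, map_pow, map_inv₀, map_inv₀, D.ez, D.ez, map_one, map_one]

theorem pip_ne_zero (D : Dat p N b F) : D.pip ≠ 0 := zl_ne D p D.hpN Fact.out

theorem pip_int (D : Dat p N b F) : IsIntegral ℤ D.pip := zipow_int D _

/-- for a primitive root of unity `w` of prime order `l`: `(1 - w)^(l-1) ∏ u_i = l` -/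
private theorem prim_fac (l : ℕ) (hl : l.Prime) {w : F} (hw : IsPrimitiveRoot w l)
    (hwi : IsIntegral ℤ w) :
    ∃ u : F, IsIntegral ℤ u ∧ IsIntegral ℤ u⁻¹ ∧ u ≠ 0 ∧ (1 - w) ^ (l - 1) * u = (l : F) := by
  have h1 : ∀ i : ℕ, IsIntegral ℤ (∑ j ∈ range (i + 1), w ^ j) := fun i =>
    IsIntegral.sum _ fun j _ => hwi.pow j
  have hw1 : 1 - w ≠ 0 := fun h => hw.ne_one hl.one_lt (sub_eq_zero.1 h).symm
  have h2 : ∀ i : ℕ, 1 - w ^ (i + 1) = (1 - w) * ∑ j ∈ range (i + 1), w ^ j := by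
    intro i
    rw [mul_comm, geom_sum_mul_neg]
  have hprod : ∏ i ∈ range (l - 1), (1 - w ^ (i + 1)) = (l : F) := by
    have hl1 : l - 1 + 1 = l := Nat.sub_add_cancel hl.one_le
    have h3 : IsPrimitiveRoot w (l - 1 + 1) := by rw [hl1]; exact hw
    rw [h3.prod_one_sub_pow_eq_order]
    exact_mod_cast hl1
  have h4 : (1 - w) ^ (l - 1) * ∏ i ∈ range (l - 1), ∑ j ∈ range (i + 1), w ^ j = (l : F) := by
    rw [← hprod, Finset.prod_congr rfl fun i _ => h2 i, Finset.prod_mul_distrib,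
      Finset.prod_const, Finset.card_range]
  have hl0 : (l : F) ≠ 0 := by exact_mod_cast hl.ne_zero
  have hu0 : ∏ i ∈ range (l - 1), ∑ j ∈ range (i + 1), w ^ j ≠ 0 := by
    intro h
    rw [h, mul_zero] at h4
    exact hl0 h4.symm
  refine ⟨_, IsIntegral.prod _ fun i _ => h1 i, ?_, hu0, h4⟩
  rw [← Finset.prod_inv_distrib]
  refine IsIntegral.prod _ fun i hi => ?_
  rw [Finset.mem_range] at hi
  -- `(∑ w^j)⁻¹ = (1 - w) / (1 - w^(i+1))`, `w = (w^(i+1))^m`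
  have hcop : Nat.Coprime (i + 1) l := by
    rw [Nat.coprime_comm, hl.coprime_iff_not_dvd]
    intro hd
    have := Nat.le_of_dvd (Nat.succ_pos i) hd
    omega
  obtain ⟨m, hm⟩ := Nat.exists_mul_mod_eq_one_of_coprime hcop hl.one_lt
  have h5 : (w ^ (i + 1)) ^ m = w := by
    rw [← pow_mul]
    conv_rhs => rw [← pow_one w]
    rw [← Nat.div_add_mod ((i + 1) * m) l, hm.2, pow_add, pow_mul, hw.pow_eq_one, one_pow, one_mul]
  have h6 : (1 - w ^ (i + 1)) * ∑ j ∈ range m, (w ^ (i + 1)) ^ j = 1 - w := by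
    rw [mul_comm, geom_sum_mul_neg, h5]
  have h8 : (∑ j ∈ range (i + 1), w ^ j)⁻¹ = ∑ j ∈ range m, (w ^ (i + 1)) ^ j := by
    refine inv_eq_of_mul_eq_one_left ?_
    have h9 : (1 - w) * ((∑ j ∈ range m, (w ^ (i + 1)) ^ j) * ∑ j ∈ range (i + 1), w ^ j) = (1 - w) * 1 := by
      rw [mul_one]
      conv_rhs => rw [← h6, h2 i]
      ring
    exact mul_left_cancel₀ hw1 h9
  rw [h8]
  exact IsIntegral.sum _ fun j _ => (hwi.pow _).pow j

theorem pip_pow (D : Dat p N b F) : ∃ v : F, IsIntegral ℤ v ∧ IsIntegral ℤ v⁻¹ ∧ v ≠ 0 ∧ D.pip ^ (p - 1) = (p : F) * v := by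
  obtain ⟨u, hu, hui, hu0, h⟩ := prim_fac p Fact.out (prim_l D p D.hpN) (D.zi_int.pow _)
  refine ⟨u⁻¹, hui, by rw [inv_inv]; exact hu, inv_ne_zero hu0, ?_⟩
  unfold Dat.pip
  rw [← h, mul_assoc, mul_inv_cancel₀ hu0, mul_one]

private theorem aeval_integral {w : F} (hw : IsIntegral ℤ w) (R : Polynomial ℤ) :
    IsIntegral ℤ (Polynomial.aeval w R) := by
  have h := (Polynomial.aeval (⟨w, hw⟩ : integralClosure ℤ F) R).2
  have h2 : ((Polynomial.aeval (⟨w, hw⟩ : integralClosure ℤ F) R : integralClosure ℤ F) : F) =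
      Polynomial.aeval w R := by
    exact Polynomial.aeval_subalgebra_coe R (integralClosure ℤ F) ⟨w, hw⟩
  rw [← h2]
  exact h

private theorem aeval_congr_p {w : F} (hw : IsIntegral ℤ w) (P Q : Polynomial ℤ)
    (h : P.map (Int.castRingHom (ZMod p)) = Q.map (Int.castRingHom (ZMod p))) :
    ∃ v : F, IsIntegral ℤ v ∧ Polynomial.aeval w P = Polynomial.aeval w Q + (p : F) * v := by
  have h1 : Polynomial.C (p : ℤ) ∣ P - Q := by
    rw [Polynomial.C_dvd_iff_dvd_coeff]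
    intro i
    have h2 := congrArg (fun f => Polynomial.coeff f i) h
    simp only [Polynomial.coeff_map, eq_intCast] at h2
    rw [Polynomial.coeff_sub, ← ZMod.intCast_zmod_eq_zero_iff_dvd]
    push_cast
    rw [h2, sub_self]
  obtain ⟨R, hR⟩ := h1
  refine ⟨Polynomial.aeval w R, aeval_integral hw R, ?_⟩
  have h3 : P = Q + Polynomial.C (p : ℤ) * R := by rw [← hR]; ring
  rw [h3, map_add, map_mul, Polynomial.aeval_C]
  simp

private theorem pow_char_sub {w : F} (hw : IsIntegral ℤ w) :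
    ∃ v : F, IsIntegral ℤ v ∧ (w - 1) ^ p = (w ^ p - 1) + (p : F) * v := by
  have hp : p.Prime := Fact.out
  obtain ⟨v, hv, h⟩ := aeval_congr_p (p := p) hw ((Polynomial.X - 1) ^ p)
    (Polynomial.X ^ p - 1) (by
      rw [Polynomial.map_pow, Polynomial.map_sub, Polynomial.map_X, Polynomial.map_one,
        Polynomial.map_sub, Polynomial.map_pow, Polynomial.map_X, Polynomial.map_one,
        sub_pow_char, one_pow])
  refine ⟨v, hv, ?_⟩
  simpa using h

theorem xi_pow (D : Dat p N b F) (hpb : ¬ p ∣ b) :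
    ∃ v : F, IsIntegral ℤ v ∧ (D.x ^ (p - 1) - 1) ^ p = (p : F) * v := by
  have hp : p.Prime := Fact.out
  obtain ⟨v, hv, h⟩ := pow_char_sub (p := p) (w := D.x ^ (p - 1)) (D.x_int.pow (p - 1))
  have h1 : (p : ℤ) ∣ (b : ℤ) ^ (p - 1) - 1 := by
    rw [← ZMod.intCast_zmod_eq_zero_iff_dvd]
    push_cast
    rw [ZMod.pow_card_sub_one_eq_one, sub_self]
    intro h0
    exact hpb ((ZMod.natCast_eq_zero_iff b p).1 h0)
  obtain ⟨t, ht⟩ := h1
  refine ⟨(t : F) + v, ?_, ?_⟩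
  · exact (isIntegral_algebraMap (R := ℤ) (A := F) (x := t)).add hv
  · rw [h, ← pow_mul, mul_comm (p - 1) p, pow_mul, D.hx]
    have h2 : (b : F) ^ (p - 1) - 1 = (p : F) * (t : F) := by exact_mod_cast congrArg (Int.cast : ℤ → F) ht
    rw [h2]
    ring

theorem pi_u (D : Dat p N b F) (hb : b ≠ 0) (hN : ∀ l ∈ N.primeFactors, l ∣ p * b) :
    ∃ u : F, IsIntegral ℤ u ∧ (b : F) * D.pip = D.piN 1 * u := by
  have hp : p.Prime := Fact.out
  have hpN : p ∈ N.primeFactors := Nat.mem_primeFactors.2 ⟨hp, D.hpN, NeZero.ne N⟩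
  -- `1 - z^(-N/l)` divides `l`
  have h1 : ∀ l ∈ N.primeFactors, ∃ u : F, IsIntegral ℤ u ∧
      (l : F) = (1 - D.z⁻¹ ^ (1 * (N / l))) * u := by
    intro l hl
    have hlp := Nat.prime_of_mem_primeFactors hl
    obtain ⟨u, hu, _, _, h⟩ := prim_fac l hlp (prim_l D l (Nat.dvd_of_mem_primeFactors hl))
      (D.zi_int.pow _)
    refine ⟨(1 - D.z⁻¹ ^ (N / l)) ^ (l - 2) * u, ((zipow_int D _).pow _).mul hu, ?_⟩
    rw [one_mul, ← h, ← mul_assoc, ← pow_succ']
    congr 2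
    have := hlp.two_le
    omega
  choose! u hu hlu using h1
  -- the product of the primes `l ≠ p` divides `b`
  have h2 : ∏ l ∈ N.primeFactors.erase p, l ∣ b := by
    refine Finset.prod_primes_dvd _ (fun l hl => ?_) fun l hl => ?_
    · exact (Nat.prime_of_mem_primeFactors (Finset.mem_of_mem_erase hl)).prime
    · have hlp := Nat.prime_of_mem_primeFactors (Finset.mem_of_mem_erase hl)
      have h3 := hN l (Finset.mem_of_mem_erase hl)
      rcases (Nat.Prime.dvd_mul hlp).1 h3 with h4 | h4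
      · exact absurd ((Nat.prime_dvd_prime_iff_eq hlp hp).1 h4) (Finset.ne_of_mem_erase hl)
      · exact h4
  obtain ⟨c, hc⟩ := h2
  refine ⟨(∏ l ∈ N.primeFactors.erase p, u l) * (c : F), ?_, ?_⟩
  · refine (IsIntegral.prod _ fun l hl => hu l (Finset.mem_of_mem_erase hl)).mul ?_
    simpa using isIntegral_algebraMap (R := ℤ) (A := F) (x := (c : ℤ))
  · have h5 : (b : F) = (∏ l ∈ N.primeFactors.erase p, (l : F)) * (c : F) := by
      have h6 := congrArg (Nat.cast : ℕ → F) hc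
      push_cast at h6
      exact h6
    have h7 : ∏ l ∈ N.primeFactors.erase p, (l : F) =
        (∏ l ∈ N.primeFactors.erase p, (1 - D.z⁻¹ ^ (1 * (N / l)))) *
          ∏ l ∈ N.primeFactors.erase p, u l := by
      rw [← Finset.prod_mul_distrib]
      exact Finset.prod_congr rfl fun l hl => hlu l (Finset.mem_of_mem_erase hl)
    have h8 : D.piN 1 = D.pip * ∏ l ∈ N.primeFactors.erase p, (1 - D.z⁻¹ ^ (1 * (N / l))) := by
      unfold Dat.piN Dat.pip
      rw [← Finset.mul_prod_erase _ _ hpN, one_mul]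
    rw [h5, h7, h8]
    ring

private theorem sum_log_eq (D : Dat p N b F) (y : F) (hy0 : y ≠ 0) :
    ∑ st : (ZMod N)ˣ × ZMod p, Real.log ‖D.e st y‖ = Real.log |((Algebra.norm ℚ y : ℚ) : ℝ)| := by
  rw [← Real.log_prod (fun st _ => norm_ne_zero_iff.2 ((map_ne_zero (D.e st)).2 hy0)), ← norm_prod,
    ← D.norm_eq]
  congr 1
  rw [← Complex.ofReal_ratCast, Complex.norm_real, Real.norm_eq_abs]

/-- a nonzero integer has `∑ log ≥ 0` -/
theorem sum_log_nonneg (D : Dat p N b F) (y : F) (hy : IsIntegral ℤ y) (hy0 : y ≠ 0) :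
    0 ≤ ∑ st : (ZMod N)ˣ × ZMod p, Real.log ‖D.e st y‖ := by
  rw [sum_log_eq D y hy0]
  have h1 : IsIntegral ℤ (Algebra.norm ℚ y) := Algebra.isIntegral_norm ℚ hy
  obtain ⟨n, hn⟩ := IsIntegrallyClosed.isIntegral_iff.1 h1
  have h2 : Algebra.norm ℚ y ≠ 0 := Algebra.norm_ne_zero_iff.2 hy0
  have hn0 : n ≠ 0 := by
    rintro rfl
    rw [map_zero] at hn
    exact h2 hn.symm
  have h3 : ((Algebra.norm ℚ y : ℚ) : ℝ) = (n : ℝ) := by
    rw [← hn]
    simp
  rw [h3]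
  refine Real.log_nonneg ?_
  have h4 : (1 : ℤ) ≤ |n| := Int.one_le_abs hn0
  exact_mod_cast h4

theorem sum_log_pip (D : Dat p N b F) :
    ((p : ℝ) - 1) * ∑ st : (ZMod N)ˣ × ZMod p, Real.log ‖D.e st D.pip‖ ≤
      Fintype.card ((ZMod N)ˣ × ZMod p) * Real.log p := by
  have hp : p.Prime := Fact.out
  obtain ⟨v, hv, hvi, hv0, h⟩ := pip_pow D
  have hp0 : (p : ℝ) ≠ 0 := by exact_mod_cast hp.ne_zero
  have h1 : ∀ st : (ZMod N)ˣ × ZMod p, ((p : ℝ) - 1) * Real.log ‖D.e st D.pip‖ =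
      Real.log p - Real.log ‖D.e st v⁻¹‖ := by
    intro st
    have h2 := congrArg (fun w => Real.log ‖D.e st w‖) h
    simp only [map_pow, map_mul, norm_pow, norm_mul, map_natCast, Complex.norm_natCast] at h2
    rw [Real.log_pow, Real.log_mul hp0 (norm_ne_zero_iff.2 ((map_ne_zero (D.e st)).2 hv0)),
      Nat.cast_sub hp.one_le, Nat.cast_one] at h2
    rw [h2, map_inv₀, norm_inv, Real.log_inv, sub_neg_eq_add]
  have h3 := sum_log_nonneg D v⁻¹ hvi (inv_ne_zero hv0)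
  rw [Finset.mul_sum, Finset.sum_congr rfl fun st _ => h1 st, Finset.sum_sub_distrib,
    Finset.sum_const, Finset.card_univ, nsmul_eq_mul]
  linarith

/-- AM-GM: a nonzero integer has mean square `≥ 1` -/
theorem sum_sq_ge (D : Dat p N b F) (y : F) (hy : IsIntegral ℤ y) (hy0 : y ≠ 0) :
    (Fintype.card ((ZMod N)ˣ × ZMod p) : ℝ) ≤ ∑ st : (ZMod N)ˣ × ZMod p, ‖D.e st y‖ ^ 2 := by
  have h1 := sum_log_nonneg D y hy hy0
  have h2 : ∀ st : (ZMod N)ˣ × ZMod p, 1 + 2 * Real.log ‖D.e st y‖ ≤ ‖D.e st y‖ ^ 2 := by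
    intro st
    have h3 : 0 < ‖D.e st y‖ := norm_pos_iff.2 ((map_ne_zero (D.e st)).2 hy0)
    have h4 := Real.log_le_sub_one_of_pos (pow_pos h3 2)
    rw [Real.log_pow] at h4
    push_cast at h4
    linarith
  calc (Fintype.card ((ZMod N)ˣ × ZMod p) : ℝ)
      ≤ ∑ st : (ZMod N)ˣ × ZMod p, (1 + 2 * Real.log ‖D.e st y‖) := by
        rw [Finset.sum_add_distrib, ← Finset.mul_sum, Finset.sum_const, Finset.card_univ,
          nsmul_eq_mul, mul_one]
        linarith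
    _ ≤ _ := Finset.sum_le_sum fun st _ => h2 st

end Pool.Agent.H61.WN
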