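import Pool.Agent.H61.WN.Tpi
import Pool.Agent.H61.WN.Pib

/-!
# [H61 WN Fro] THEOREM WN: the Frobenius congruence

`y := b π_1 a z^(-l) x^(-j)` is integral (`b x^(-j) = x^(p - j)`), `N n = Tr(y)`. `Tr(y^q) ≡ Tr(y)^q ≡ Tr(y)` mod `q` (`Tr(y^q) - Tr(y)^q` is `q` times an
algebraic integer: `y ↦ e(y)^q` additive mod `q` in the ring of algebraic integers; copy of `Pool/Agent/H84/WI/Fro.lean`).
`y^q = b^q π_1^q a^q z^(-ql) x^(-qj)`, `π_1^q - π_q = q (integral)` (each factor: `(1-w)^q - (1 - w^q) = q(..)`), `x^(-qj) = x^(-j') b^(-⌊q j/p⌋)` with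
`j' = ((q : ZMod p) * j).val = (q j.val) % p`, `b^q x^(-q j)` is integral. So
`b^(q - 1 - ⌊qj/p⌋) N m(q l, q j) ≡ N n(l, j)` mod `q` (`⌊qj/p⌋ ≤ q - 1`); multiply by `b^(⌊qj/p⌋)`, use `b^(q-1) ≡ 1`, `q ∤ N`.
-/

set_option autoImplicit false

namespace Pool.Agent.H61.WN

open Finset

variable {p N b : ℕ} [Fact p.Prime] [NeZero N] {F : Type} [Field F] [NumberField F]

open NumberField in
/-- the trace of a `q`-th power -/
private theorem tr_pow (q : ℕ) [Fact q.Prime] (Y : 𝓞 F) :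
    ((Algebra.trace ℤ (𝓞 F) (Y ^ q) : ℤ) : ZMod q) = ((Algebra.trace ℤ (𝓞 F) Y : ℤ) : ZMod q) := by
  classical
  obtain ⟨B⟩ : Nonempty (Module.Basis (Module.Free.ChooseBasisIndex ℤ (𝓞 F)) ℤ (𝓞 F)) :=
    ⟨Module.Free.chooseBasis ℤ (𝓞 F)⟩
  have h1 : ∀ y : 𝓞 F, ((Algebra.trace ℤ (𝓞 F) y : ℤ) : ZMod q) =
      Matrix.trace ((Algebra.leftMulMatrix B y).map (Int.castRingHom (ZMod q))) := by
    intro y
    rw [Algebra.trace_eq_matrix_trace B]
    exact AddMonoidHom.map_trace (Int.castRingHom (ZMod q)) (Algebra.leftMulMatrix B y)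
  have h2 : (Algebra.leftMulMatrix B (Y ^ q)).map (Int.castRingHom (ZMod q)) =
      ((Algebra.leftMulMatrix B Y).map (Int.castRingHom (ZMod q))) ^ q := by
    rw [map_pow]
    exact map_pow (Int.castRingHom (ZMod q)).mapMatrix _ q
  rw [h1, h1, h2, ZMod.trace_pow_card, ZMod.pow_card]

/-- the Frobenius congruence for a product of factors `1 - α ^ k` -/
private theorem prod_cong {R : Type} [CommRing R] (q : ℕ) (hq : q.Prime) (α : R) (S : Finset ℕ)
    (g : ℕ → ℕ) : (q : R) ∣ (∏ l ∈ S, (1 - α ^ (q * g l))) - (∏ l ∈ S, (1 - α ^ g l)) ^ q := by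
  have h1 : ∀ k : ℕ, (q : R) ∣ (1 - α ^ (q * k)) - (1 - α ^ k) ^ q := by
    intro k
    obtain ⟨r, hr⟩ := exists_add_pow_prime_eq hq (1 - α ^ k) (α ^ k)
    rw [sub_add_cancel, one_pow] at hr
    refine ⟨(1 - α ^ k) * α ^ k * r, ?_⟩
    have h2 : α ^ (q * k) = (α ^ k) ^ q := by rw [mul_comm, pow_mul]
    rw [h2]
    linear_combination hr
  rw [← Ideal.mem_span_singleton, ← Ideal.Quotient.eq, map_pow, map_prod, map_prod,
    ← Finset.prod_pow]
  refine Finset.prod_congr rfl fun l _ => ?_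
  rw [← map_pow, Ideal.Quotient.eq, Ideal.mem_span_singleton]
  exact h1 (g l)

open NumberField in
theorem frob (D : Dat p N b F) (q : ℕ) (hq : q.Prime) (hqb : ¬ q ∣ b) (hqN : ¬ q ∣ N) (a : F) (ha : IsIntegral ℤ a)
    (n m : ZMod N → ZMod p → ℤ) (hn : ∀ l j, (b : ℚ) * D.arr (D.piN 1 * a) l j = (n l j : ℚ))
    (hm : ∀ l j, (b : ℚ) * D.arr (D.piN q * a ^ q) l j = (m l j : ℚ)) (l : ZMod N) (j : ZMod p) :
    (q : ℤ) ∣ m ((q : ZMod N) * l) ((q : ZMod p) * j) - (b : ℤ) ^ ((q * j.val) / p) * n l j := by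
  have hp : p.Prime := Fact.out
  have hqf : Fact q.Prime := ⟨hq⟩
  have hb0 : b ≠ 0 := by
    rintro rfl
    exact hqb (dvd_zero q)
  have hx0 := D.x_ne_zero hb0
  have hz0 := D.z_ne_zero
  have hbF : (b : F) ≠ 0 := Nat.cast_ne_zero.2 hb0
  have hNQ : (N : ℚ) ≠ 0 := Nat.cast_ne_zero.2 (NeZero.ne N)
  obtain ⟨α, hα⟩ : ∃ α : 𝓞 F, (α : F) = D.z⁻¹ := ⟨⟨_, D.zi_int⟩, rfl⟩
  obtain ⟨w, hw⟩ : ∃ w : 𝓞 F, (w : F) = a * D.z ^ (-l).val * D.x ^ (p - j.val) :=
    ⟨⟨_, (ha.mul (D.z_int.pow _)).mul (D.x_int.pow _)⟩, rfl⟩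
  have hjp : j.val ≤ p := (ZMod.val_lt j).le
  have hwb : (w : F) = b * (a * D.mon l j) := by
    have h1 : D.x ^ (p - j.val) = b * (D.x ^ j.val)⁻¹ := by
      rw [eq_mul_inv_iff_mul_eq₀ (pow_ne_zero _ hx0), ← pow_add, Nat.sub_add_cancel hjp, D.hx]
    rw [hw, Dat.mon, h1]
    ring
  have hα' : algebraMap (𝓞 F) F α = D.z⁻¹ := hα
  have hw' : algebraMap (𝓞 F) F w = b * (a * D.mon l j) := hwb
  set β : 𝓞 F := ∏ r ∈ N.primeFactors, (1 - α ^ (N / r)) with hβ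
  set γ : 𝓞 F := ∏ r ∈ N.primeFactors, (1 - α ^ (q * (N / r))) with hγ
  have hβ' : algebraMap (𝓞 F) F β = D.piN 1 := by
    rw [hβ, map_prod, Dat.piN]
    refine Finset.prod_congr rfl fun r _ => ?_
    rw [map_sub, map_one, map_pow, hα', one_mul]
  have hγ' : algebraMap (𝓞 F) F γ = D.piN q := by
    rw [hγ, map_prod, Dat.piN]
    refine Finset.prod_congr rfl fun r _ => ?_
    rw [map_sub, map_one, map_pow, hα']
  -- the monomial
  have hmon : (D.mon ((q : ZMod N) * l) ((q : ZMod p) * j)) =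
      (b : F) ^ ((q * j.val) / p) * (D.mon l j) ^ q := by
    have h1 : D.z ^ (-((q : ZMod N) * l)).val = (D.z ^ (-l).val) ^ q := by
      have h2 : -((q : ZMod N) * l) = (((-l).val * q : ℕ) : ZMod N) := by
        rw [Nat.cast_mul, ZMod.natCast_zmod_val]
        ring
      rw [h2, ZMod.val_natCast, ← pow_eq_pow_mod _ D.hz, pow_mul]
    have h3 : ((q : ZMod p) * j).val = (q * j.val) % p := by
      have h4 : (q : ZMod p) * j = ((q * j.val : ℕ) : ZMod p) := by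
        rw [Nat.cast_mul, ZMod.natCast_zmod_val]
      rw [h4, ZMod.val_natCast]
    have h5 : (D.x ^ j.val) ^ q = (b : F) ^ ((q * j.val) / p) * D.x ^ ((q : ZMod p) * j).val := by
      rw [h3, ← D.hx, ← pow_mul, ← pow_mul, ← pow_add, Nat.div_add_mod, mul_comm]
    rw [Dat.mon, Dat.mon, h1, mul_pow, inv_pow, h5, mul_inv]
    have h6 : (b : F) ^ ((q * j.val) / p) ≠ 0 := pow_ne_zero _ hbF
    field_simp
  -- rational traces
  have hsm : ∀ (k : ℕ) (y : F), Algebra.trace ℚ F ((b : F) ^ k * y) = (b : ℚ) ^ k * Algebra.trace ℚ F y := by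
    intro k y
    have h1 : (b : F) ^ k * y = ((b : ℚ) ^ k) • y := by
      rw [Algebra.smul_def, map_pow, map_natCast]
    rw [h1, map_smul, smul_eq_mul]
  have e1 : (b : ℚ) * Algebra.trace ℚ F (D.piN 1 * a * D.mon l j) = N * (n l j : ℚ) := by
    rw [← hn l j, Dat.arr]
    field_simp
  have e2 : (b : ℚ) * Algebra.trace ℚ F (D.piN q * a ^ q * D.mon (q * l) (q * j)) =
      N * (m (q * l) (q * j) : ℚ) := by
    rw [← hm (q * l) (q * j), Dat.arr]
    field_simp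
  have eY : Algebra.trace ℤ (𝓞 F) (β * w) = N * n l j := by
    have h1 : ((Algebra.trace ℤ (𝓞 F) (β * w) : ℤ) : ℚ) = ((N * n l j : ℤ) : ℚ) := by
      rw [Algebra.coe_trace_int]
      have h2 : algebraMap (𝓞 F) F (β * w) = (b : F) ^ 1 * (D.piN 1 * a * D.mon l j) := by
        rw [map_mul, hβ', hw']
        ring
      change Algebra.trace ℚ F (algebraMap (𝓞 F) F (β * w)) = _
      rw [h2, hsm, pow_one, e1]
      push_cast
      ring
    exact_mod_cast h1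
  have eZ : (b : ℤ) ^ ((q * j.val) / p + 1) * Algebra.trace ℤ (𝓞 F) (γ * w ^ q) =
      (b : ℤ) ^ q * (N * m (q * l) (q * j)) := by
    have h1 : (((b : ℤ) ^ ((q * j.val) / p + 1) * Algebra.trace ℤ (𝓞 F) (γ * w ^ q) : ℤ) : ℚ) =
        (((b : ℤ) ^ q * (N * m (q * l) (q * j)) : ℤ) : ℚ) := by
      rw [Int.cast_mul, Algebra.coe_trace_int, Int.cast_pow, Int.cast_natCast, ← hsm]
      have h2 : (b : F) ^ ((q * j.val) / p + 1) * algebraMap (𝓞 F) F (γ * w ^ q) =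
          (b : F) ^ (q + 1) * (D.piN q * a ^ q * D.mon (q * l) (q * j)) := by
        rw [map_mul, map_pow, hγ', hw', hmon]
        ring
      change Algebra.trace ℚ F ((b : F) ^ ((q * j.val) / p + 1) *
        algebraMap (𝓞 F) F (γ * w ^ q)) = _
      rw [h2, hsm, pow_succ, mul_assoc, e2]
      push_cast
      ring
    exact_mod_cast h1
  -- the congruence
  have hcong : ((Algebra.trace ℤ (𝓞 F) (γ * w ^ q) : ℤ) : ZMod q) =
      ((Algebra.trace ℤ (𝓞 F) (β * w) : ℤ) : ZMod q) := by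
    obtain ⟨r, hr⟩ := prod_cong q hq α N.primeFactors (fun r => N / r)
    have h1 : γ * w ^ q = (β * w) ^ q + (q : ℤ) • (r * w ^ q) := by
      rw [← hβ, ← hγ] at hr
      rw [zsmul_eq_mul, Int.cast_natCast, mul_pow]
      linear_combination w ^ q * hr
    rw [h1, map_add, map_smul, smul_eq_mul, Int.cast_add, Int.cast_mul, Int.cast_natCast,
      ZMod.natCast_self, zero_mul, add_zero, tr_pow]
  have h1 := congrArg (Int.cast : ℤ → ZMod q) eZ
  rw [Int.cast_mul, hcong, eY] at h1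
  have hbq : (b : ZMod q) ≠ 0 := by
    rw [Ne, ZMod.natCast_eq_zero_iff]
    exact hqb
  have hNq : (N : ZMod q) ≠ 0 := by
    rw [Ne, ZMod.natCast_eq_zero_iff]
    exact hqN
  rw [← ZMod.intCast_zmod_eq_zero_iff_dvd, Int.cast_sub, sub_eq_zero]
  push_cast at h1 ⊢
  rw [ZMod.pow_card, pow_succ] at h1
  apply mul_left_cancel₀ (mul_ne_zero hbq hNq)
  linear_combination -h1

end Pool.Agent.H61.WN
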