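import Pool.Agent.H61.WN.Cod
import Pool.Agent.H61.WN.Fro
import Pool.Agent.H61.WG.Gen

/-!
# [H61 WN App] THEOREM WN: the rows of the array are constant mod `p`

Apply `wc_gen b (2 b^2 4^(b+1))` for each `l₀ : ZMod N` to `n' i j = n (l₀ + i.val (N/p)) j` and `m' i j = m (q l₀ + i.val (N/p)) j`, `m` the array of
`b arr (π_q a^q)` (`arr_int`).
Energies: `∑ n'^2 ≤ ∑_(l,j) (b arr)^2` (the map `i ↦ l₀ + i.val (N/p)` is injective) `≤ b^2 (p/N) ∑ ‖e(π_1 a)‖^2` (`sum_arr_sq_le`) `≤ b^2 (p/N) 4^(card N.primeFactors)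
∑ ‖e a‖^2` (`norm_piN`) and `∑ ‖e a‖^2 ≤ 21/20 φ(N) p ≤ 2 N p`, `card N.primeFactors ≤ b + 1` (they divide `p b`: `p` or at most `b` others). The same for `m'` with `‖e(a^q)‖^2 = ‖e a‖^(2q)`.
`∑ ‖e a‖^2` from the moment of order `2q` by power means: copy `mean_sq_le` of `Pool/Agent/H84/WI/Star.lean`.
`q ∤ N`: the primes of `N` divide `p b`, `q ∤ b`, take `p₀ > q`. Frobenius: `q (l₀ + i.val (N/p)) = q l₀ + (q i).val (N/p)` in `ZMod N` (`(q i).val = q i.val` mod `p`).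
Row sums: `sum_coset`. Differences: `code` (`((s : ZMod p)).val = s` for `s ≤ k < p`).
-/

set_option autoImplicit false

namespace Pool.Agent.H61.WN

open Finset

/-- power means -/
private theorem app_mean_sq_le {ι : Type} [Fintype ι] [Nonempty ι] (f : ι → ℝ) (q : ℕ)
    (hq : 1 ≤ q) (h : ∑ i, f i ^ (2 * q) ≤ 21 / 20 * Fintype.card ι) :
    ∑ i, f i ^ 2 ≤ 21 / 20 * Fintype.card ι := by
  have hN : (0 : ℝ) < Fintype.card ι := by exact_mod_cast Fintype.card_pos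
  have h2 := Real.pow_arith_mean_le_arith_mean_pow Finset.univ (fun _ : ι => (Fintype.card ι : ℝ)⁻¹)
    (fun i => f i ^ 2) (fun _ _ => by positivity) (by
      rw [Finset.sum_const, Finset.card_univ, nsmul_eq_mul, mul_inv_cancel₀ hN.ne'])
    (fun i _ => sq_nonneg _) q
  rw [← Finset.mul_sum, ← Finset.mul_sum] at h2
  have h3 : ∑ i, (f i ^ 2) ^ q = ∑ i, f i ^ (2 * q) := by
    apply Finset.sum_congr rfl
    intro i _
    rw [pow_mul]
  rw [h3] at h2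
  have h4 : (Fintype.card ι : ℝ)⁻¹ * ∑ i, f i ^ (2 * q) ≤ 21 / 20 := by
    rw [inv_mul_le_iff₀ hN]
    linarith
  have h5 : (Fintype.card ι : ℝ)⁻¹ * ∑ i, f i ^ 2 ≤ 21 / 20 := by
    by_contra hne
    push Not at hne
    have h6 : (21 / 20 : ℝ) < ((Fintype.card ι : ℝ)⁻¹ * ∑ i, f i ^ 2) ^ q := by
      calc (21 / 20 : ℝ) < (Fintype.card ι : ℝ)⁻¹ * ∑ i, f i ^ 2 := hne
        _ ≤ _ := le_self_pow₀ (by linarith) (by omega)
    linarith
  rw [inv_mul_le_iff₀ hN] at h5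
  linarith

private theorem app_card_primes {p N b : ℕ} (hp : p.Prime) (hb : b ≠ 0)
    (h : ∀ l ∈ N.primeFactors, l ∣ p * b) : N.primeFactors.card ≤ b + 1 := by
  have h1 : N.primeFactors ⊆ insert p (Finset.Icc 1 b) := by
    intro l hl
    have h2 := h l hl
    have hlp := Nat.prime_of_mem_primeFactors hl
    rcases (Nat.Prime.dvd_mul hlp).1 h2 with h3 | h3
    · rw [(Nat.prime_dvd_prime_iff_eq hlp hp).1 h3]
      exact Finset.mem_insert_self _ _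
    · apply Finset.mem_insert_of_mem
      rw [Finset.mem_Icc]
      exact ⟨hlp.one_le, Nat.le_of_dvd (Nat.pos_of_ne_zero hb) h3⟩
  calc N.primeFactors.card ≤ (insert p (Finset.Icc 1 b)).card := Finset.card_le_card h1
    _ ≤ (Finset.Icc 1 b).card + 1 := Finset.card_insert_le _ _
    _ = b + 1 := by rw [Nat.card_Icc]; omega

/-- the shift `i ↦ l₀ + i.val (N/p)` -/
private theorem app_inj {p N : ℕ} [Fact p.Prime] [NeZero N] (hpN : p ∣ N) (l₀ : ZMod N) :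
    Function.Injective (fun i : ZMod p => l₀ + ((i.val * (N / p) : ℕ) : ZMod N)) := by
  intro i i' h
  have h1 : ((i.val * (N / p) : ℕ) : ZMod N) = ((i'.val * (N / p) : ℕ) : ZMod N) := add_left_cancel h
  rw [ZMod.natCast_eq_natCast_iff'] at h1
  have hN : 0 < N := Nat.pos_of_ne_zero (NeZero.ne N)
  have hp : 0 < p := (Fact.out : p.Prime).pos
  have hd : 0 < N / p := Nat.div_pos (Nat.le_of_dvd hN hpN) hp
  have hmul : p * (N / p) = N := Nat.mul_div_cancel' hpN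
  have hlt : ∀ k : ZMod p, k.val * (N / p) < N := by
    intro k
    calc k.val * (N / p) < p * (N / p) := Nat.mul_lt_mul_of_pos_right (ZMod.val_lt k) hd
      _ = N := hmul
  rw [Nat.mod_eq_of_lt (hlt i), Nat.mod_eq_of_lt (hlt i')] at h1
  exact ZMod.val_injective p (Nat.eq_of_mul_eq_mul_right hd h1)

private theorem app_frob {p N : ℕ} [Fact p.Prime] [NeZero N] (hpN : p ∣ N) (l₀ : ZMod N) (q : ℕ) (i : ZMod p) :
    (q : ZMod N) * (l₀ + ((i.val * (N / p) : ℕ) : ZMod N)) =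
      (q : ZMod N) * l₀ + (((((q : ZMod p) * i).val) * (N / p) : ℕ) : ZMod N) := by
  rw [mul_add]
  congr 1
  rw [← Nat.cast_mul, ZMod.natCast_eq_natCast_iff]
  have h1 : q * i.val ≡ ((q : ZMod p) * i).val [MOD p] := by
    rw [← ZMod.natCast_eq_natCast_iff]
    push_cast
    rw [ZMod.natCast_zmod_val, ZMod.natCast_zmod_val]
  have h2 := Nat.ModEq.mul_right' (N / p) h1
  rw [Nat.mul_div_cancel' hpN, mul_assoc] at h2
  exact h2

private theorem app_energy {p N b : ℕ} [Fact p.Prime] [NeZero N] {F : Type} [Field F] [NumberField F]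
    (hb : b ≠ 0) (D : Dat p N b F) (hcard : N.primeFactors.card ≤ b + 1) (k : ℕ) (y : F)
    (hy : ∑ st : (ZMod N)ˣ × ZMod p, ‖D.e st y‖ ^ 2 ≤ 21 / 20 * Fintype.card ((ZMod N)ˣ × ZMod p))
    (n : ZMod N → ZMod p → ℤ) (hn : ∀ l j, (b : ℚ) * D.arr (D.piN k * y) l j = (n l j : ℚ)) (l₀ : ZMod N) :
    ∑ i : ZMod p, ∑ j, (n (l₀ + ((i.val * (N / p) : ℕ) : ZMod N)) j) ^ 2 ≤
      ((2 * b ^ 2 * 4 ^ (b + 1) : ℕ) : ℤ) * (p : ℤ) ^ 2 := by
  classical
  have hN0 : 0 < N := Nat.pos_of_ne_zero (NeZero.ne N)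
  have hNR : (0 : ℝ) < N := by exact_mod_cast hN0
  have hpR : (0 : ℝ) < p := by exact_mod_cast (Fact.out : p.Prime).pos
  have h0 : ∑ i : ZMod p, ∑ j, (n (l₀ + ((i.val * (N / p) : ℕ) : ZMod N)) j) ^ 2 ≤ ∑ l : ZMod N, ∑ j, (n l j) ^ 2 := by
    have h1 : ∑ i : ZMod p, ∑ j, (n (l₀ + ((i.val * (N / p) : ℕ) : ZMod N)) j) ^ 2 =
        ∑ l ∈ Finset.univ.image (fun i : ZMod p => l₀ + ((i.val * (N / p) : ℕ) : ZMod N)), ∑ j, (n l j) ^ 2 := by
      rw [Finset.sum_image]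
      intro i _ i' _ h
      exact app_inj D.hpN l₀ h
    rw [h1]
    exact Finset.sum_le_sum_of_subset_of_nonneg (Finset.subset_univ _)
      (fun l _ _ => Finset.sum_nonneg (fun j _ => sq_nonneg _))
  have h1 := sum_arr_sq_le D (D.piN k * y)
  have h2 : ∑ st : (ZMod N)ˣ × ZMod p, ‖D.e st (D.piN k * y)‖ ^ 2
      ≤ 4 ^ (b + 1) * ∑ st : (ZMod N)ˣ × ZMod p, ‖D.e st y‖ ^ 2 := by
    rw [Finset.mul_sum]
    apply Finset.sum_le_sum
    intro st _
    rw [map_mul, norm_mul, mul_pow]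
    apply mul_le_mul_of_nonneg_right _ (by positivity)
    have h3 := norm_piN D k st
    calc ‖D.e st (D.piN k)‖ ^ 2 ≤ (2 ^ N.primeFactors.card) ^ 2 :=
          pow_le_pow_left₀ (norm_nonneg _) h3 2
      _ ≤ (2 ^ (b + 1)) ^ 2 := by
          apply pow_le_pow_left₀ (by positivity)
          exact pow_le_pow_right₀ (by norm_num) hcard
      _ = 4 ^ (b + 1) := by
          rw [← pow_mul, mul_comm, pow_mul]
          norm_num
  have hct : (Fintype.card ((ZMod N)ˣ × ZMod p) : ℝ) ≤ N * p := by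
    rw [Fintype.card_prod, ZMod.card, ZMod.card_units_eq_totient]
    push_cast
    apply mul_le_mul_of_nonneg_right _ hpR.le
    exact_mod_cast Nat.totient_le N
  have h4 : ((∑ l : ZMod N, ∑ j, (n l j) ^ 2 : ℤ) : ℝ) = (b : ℝ) ^ 2 * ∑ l : ZMod N, ∑ j : ZMod p, ((D.arr (D.piN k * y) l j : ℚ) : ℝ) ^ 2 := by
    push_cast
    rw [Finset.mul_sum]
    refine Finset.sum_congr rfl fun l _ => ?_
    rw [Finset.mul_sum]
    refine Finset.sum_congr rfl fun j _ => ?_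
    have h5 : ((n l j : ℤ) : ℝ) = (b : ℝ) * ((D.arr (D.piN k * y) l j : ℚ) : ℝ) := by
      have h6 := hn l j
      have h7 : (((b : ℚ) * D.arr (D.piN k * y) l j : ℚ) : ℝ) = (((n l j : ℤ) : ℚ) : ℝ) := by rw [h6]
      push_cast at h7
      exact h7.symm
    rw [h5, mul_pow]
  have h5 : (N : ℝ) * ((∑ l : ZMod N, ∑ j, (n l j) ^ 2 : ℤ) : ℝ) ≤ N * (2 * b ^ 2 * 4 ^ (b + 1) * (p : ℝ) ^ 2) := by
    rw [h4]
    calc (N : ℝ) * ((b : ℝ) ^ 2 * ∑ l : ZMod N, ∑ j : ZMod p, ((D.arr (D.piN k * y) l j : ℚ) : ℝ) ^ 2)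
        = (b : ℝ) ^ 2 * ((N : ℝ) * ∑ l : ZMod N, ∑ j : ZMod p, ((D.arr (D.piN k * y) l j : ℚ) : ℝ) ^ 2) := by ring
      _ ≤ (b : ℝ) ^ 2 * (p * ∑ st : (ZMod N)ˣ × ZMod p, ‖D.e st (D.piN k * y)‖ ^ 2) :=
          mul_le_mul_of_nonneg_left h1 (by positivity)
      _ ≤ (b : ℝ) ^ 2 * (p * (4 ^ (b + 1) * (21 / 20 * (N * p)))) := by
          apply mul_le_mul_of_nonneg_left _ (by positivity)
          apply mul_le_mul_of_nonneg_left _ hpR.le
          refine h2.trans ?_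
          apply mul_le_mul_of_nonneg_left _ (by positivity)
          exact hy.trans (mul_le_mul_of_nonneg_left hct (by norm_num))
      _ = (21 / 20) * ((b : ℝ) ^ 2 * 4 ^ (b + 1) * N * (p : ℝ) ^ 2) := by ring
      _ ≤ 2 * ((b : ℝ) ^ 2 * 4 ^ (b + 1) * N * (p : ℝ) ^ 2) := by
          apply mul_le_mul_of_nonneg_right (by norm_num) (by positivity)
      _ = _ := by ring
  have h6 := le_of_mul_le_mul_left h5 hNR
  have h7 : (∑ l : ZMod N, ∑ j, (n l j) ^ 2 : ℤ) ≤ ((2 * b ^ 2 * 4 ^ (b + 1) : ℕ) : ℤ) * (p : ℤ) ^ 2 := by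
    have h8 : ((∑ l : ZMod N, ∑ j, (n l j) ^ 2 : ℤ) : ℝ) ≤ ((((2 * b ^ 2 * 4 ^ (b + 1) : ℕ) : ℤ) * (p : ℤ) ^ 2 : ℤ) : ℝ) := by
      refine h6.trans (le_of_eq ?_)
      push_cast
      ring
    exact_mod_cast h8
  exact h0.trans h7

theorem app (b : ℕ) (hb : 2 ≤ b) : ∃ q p₀ : ℕ, 1 ≤ q ∧ b < p₀ ∧
    ∀ (p N : ℕ) [Fact p.Prime] [NeZero N], p₀ ≤ p → (∀ l ∈ N.primeFactors, l ∣ p * b) →
    ∀ (F : Type) [Field F] [NumberField F] (D : Dat p N b F) (a : F), IsIntegral ℤ a →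
      ∑ st : (ZMod N)ˣ × ZMod p, ‖D.e st a‖ ^ (2 * q) ≤ 21 / 20 * Fintype.card ((ZMod N)ˣ × ZMod p) →
      ∑ st : (ZMod N)ˣ × ZMod p, ‖D.e st a‖ ^ 2 ≤ 21 / 20 * Fintype.card ((ZMod N)ˣ × ZMod p) ∧
      ∀ n : ZMod N → ZMod p → ℤ, (∀ l j, (b : ℚ) * D.arr (D.piN 1 * a) l j = (n l j : ℚ)) →
        ∀ (l₀ : ZMod N) (j : ZMod p), ∃ c : ℤ, ∀ i : ZMod p, (p : ℤ) ∣ n (l₀ + ((i.val * (N / p) : ℕ) : ZMod N)) j - c := by
  classical
  obtain ⟨q, p₀, hq, hqb, hwc⟩ := Pool.Agent.H61.WG.wc_gen b hb (2 * b ^ 2 * 4 ^ (b + 1))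
  refine ⟨q, max p₀ (b + q + 1), hq.one_le, lt_of_lt_of_le (by omega) (le_max_right _ _), ?_⟩
  intro p N _ _ hp hNb F _ _ D a ha hE
  have hpp := (Fact.out : p.Prime)
  have hp0 : p₀ ≤ p := le_trans (le_max_left _ _) hp
  have hp2 : b + q + 1 ≤ p := le_trans (le_max_right _ _) hp
  have hb0 : b ≠ 0 := by omega
  have hpb : ¬ p ∣ b := fun h => by
    have := Nat.le_of_dvd (by omega) h
    omega
  have hqN : ¬ q ∣ N := by
    intro h
    have h1 : q ∈ N.primeFactors := Nat.mem_primeFactors.2 ⟨hq, h, NeZero.ne N⟩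
    rcases (Nat.Prime.dvd_mul hq).1 (hNb q h1) with h2 | h2
    · have := (Nat.prime_dvd_prime_iff_eq hq hpp).1 h2
      omega
    · exact hqb h2
  have hE2 : ∑ st : (ZMod N)ˣ × ZMod p, ‖D.e st a‖ ^ 2 ≤ 21 / 20 * Fintype.card ((ZMod N)ˣ × ZMod p) :=
    app_mean_sq_le (fun st : (ZMod N)ˣ × ZMod p => ‖D.e st a‖) q hq.one_le hE
  refine ⟨hE2, ?_⟩
  intro n hn l₀
  have hcard := app_card_primes hpp hb0 hNb
  have hm0 : ∀ l j, ∃ T : ℤ, (b : ℚ) * D.arr (D.piN q * a ^ q) l j = (T : ℚ) := fun l j =>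
    arr_int D q (a ^ q) (ha.pow q) l j
  choose m hm using hm0
  have hEq : ∑ st : (ZMod N)ˣ × ZMod p, ‖D.e st (a ^ q)‖ ^ 2 ≤ 21 / 20 * Fintype.card ((ZMod N)ˣ × ZMod p) := by
    refine le_trans (le_of_eq ?_) hE
    refine Finset.sum_congr rfl fun st _ => ?_
    rw [map_pow, norm_pow, ← pow_mul, mul_comm q 2]
  have hen1 := app_energy hb0 D hcard 1 a hE2 n hn l₀
  have hen2 := app_energy hb0 D hcard q (a ^ q) hEq m hm ((q : ZMod N) * l₀)
  have hR : ∀ j, ∑ i : ZMod p, n (l₀ + ((i.val * (N / p) : ℕ) : ZMod N)) j = 0 := by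
    intro j
    have h1 := sum_coset D (D.piN 1 * a) l₀ j
    have h2 : ((∑ i : ZMod p, n (l₀ + ((i.val * (N / p) : ℕ) : ZMod N)) j : ℤ) : ℚ) = 0 := by
      rw [Int.cast_sum, ← mul_zero (b : ℚ), ← h1, Finset.mul_sum]
      refine Finset.sum_congr rfl fun i _ => ?_
      rw [hn]
    exact_mod_cast h2
  have hrow := hwc p hp0 (fun i j => n (l₀ + ((i.val * (N / p) : ℕ) : ZMod N)) j)
    (fun i j => m ((q : ZMod N) * l₀ + ((i.val * (N / p) : ℕ) : ZMod N)) j) hen1 hen2 hR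
    (by
      intro i j
      have h1 := frob D q hq hqb hqN a ha n m hn hm (l₀ + ((i.val * (N / p) : ℕ) : ZMod N)) j
      rw [app_frob D.hpN l₀ q i] at h1
      exact h1)
    (by
      intro k l hk hl hkl
      have h1 := code D hb0 hpb a ha n hn l₀ k l hk hl hkl
      have h2 : ∑ s ∈ Finset.range (k + 1), ∑ t ∈ Finset.range (l + 1),
          (-1) ^ ((k - s) + (l - t)) * (k.choose s : ℤ) * (l.choose t : ℤ) *
            ((b : ℤ) ^ t * n (l₀ + ((((s : ZMod p)).val * (N / p) : ℕ) : ZMod N)) (t : ZMod p))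
          = ∑ s ∈ range (k + 1), ∑ t ∈ range (l + 1),
      (-1) ^ ((k - s) + (l - t)) * (k.choose s : ℤ) * (l.choose t : ℤ) *
        ((b : ℤ) ^ t * n (l₀ + ((s * (N / p) : ℕ) : ZMod N)) (t : ZMod p)) := by
        refine Finset.sum_congr rfl fun s hs => ?_
        refine Finset.sum_congr rfl fun t _ => ?_
        rw [Finset.mem_range] at hs
        rw [ZMod.val_natCast_of_lt (by omega : s < p)]
      show (p : ℤ) ∣ ∑ s ∈ Finset.range (k + 1), ∑ t ∈ Finset.range (l + 1),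
          (-1) ^ ((k - s) + (l - t)) * (k.choose s : ℤ) * (l.choose t : ℤ) *
            ((b : ℤ) ^ t * n (l₀ + ((((s : ZMod p)).val * (N / p) : ℕ) : ZMod N)) (t : ZMod p))
      rw [h2]
      exact h1)
  exact hrow

end Pool.Agent.H61.WN
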