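import Pool.Agent.H61.WN.Rep
import Pool.Agent.H61.WN.Pib

/-!
# [H61 WN Cc] THEOREM WN: the components of an element for a prime `ℓ` with `ℓ ∣ N`, `ℓ^2 ∤ N`

`M = N/ℓ` (prime to `ℓ`), `ω = z^M`. Every `l : ZMod N` is `l = k M + m` with a unique `k < ℓ` and `ℓ ∣ m`. `cc ℓ y k = (1/p) ∑_(l ≡ k M mod ℓ) ∑_j arr y l j z^(l - k M) x^j`
is in `ℚ(z^ℓ, x)`, `y = ∑_(k<ℓ) ω^k cc ℓ y k`, and `∑_k cc ℓ y k = 0` because `∑_(u<ℓ) arr y (l + u M) j = 0` (the trace: `∑_u ch_ℓ(-(s u)) = 0` for a unit `s`).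
`e_cc`: `ℓ e(s,t)(cc ℓ y k) = ∑_(v<ℓ, s + v M unit) e(s + v M, t)(y) ch(-((s + v M) k M))`. `cc_int`: `ℓ (cc y k - cc y k')` is integral by `e_cc`, `p b (cc y k - cc y k')`
by `rep` (for `y = z^(k₀ M + m) x^j` `e_cc` gives `ℓ (cc y k) = (ℓ [k = k₀] - 1) z^m x^j`, so `cc y k - cc y k' = ([k = k₀] - [k' = k₀]) z^m x^j`; `cc` is linear by `e_cc`).
`sum_cc`: `∑_(v) |∑_k ch_ℓ((s + v M) k M) C_k|^2 = ℓ ∑ |C_k|^2 - |∑ C_k|^2 = (1/2) ∑_(k,k') |C_k - C_k'|^2` for every `s`, `t` (`v < ℓ` with `s + v M` a unit: `(s + v M) M` runs through the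
units mod `ℓ`; `e(s + v M, t)(cc) = e(s,t)(cc)` because `ch(v M ℓ m) = 1`); sum over all `s`: every unit `s'` occurs `ℓ - 1` times.
-/

set_option autoImplicit false

namespace Pool.Agent.H61.WN

open Finset

variable {p N b : ℕ} [Fact p.Prime] [NeZero N] {F : Type} [Field F] [NumberField F]

/-- the components -/
noncomputable def Dat.cc (D : Dat p N b F) (ℓ : ℕ) (y : F) (k : ℕ) : F :=
  (∑ l : ZMod N, if l.val % ℓ = (k * (N / ℓ)) % ℓ then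
    ∑ j : ZMod p, ((D.arr y l j : ℚ) : F) * (D.z ^ l.val * D.z⁻¹ ^ (k * (N / ℓ))) * D.x ^ j.val else 0) / (p : F)

section aux

variable {ℓ M : ℕ}

private theorem cop_of (hℓ : ℓ.Prime) (hN2 : ¬ ℓ ^ 2 ∣ ℓ * M) : ℓ.Coprime M := by
  rw [Nat.Prime.coprime_iff_not_dvd hℓ]
  rintro ⟨c, rfl⟩
  exact hN2 ⟨c, by ring⟩

private theorem exu (hℓ : ℓ.Prime) (hc : ℓ.Coprime M) (l : ℕ) :
    ∃ k₀ ∈ range ℓ, ∀ k ∈ range ℓ, (l % ℓ = (k * M) % ℓ ↔ k = k₀) := by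
  haveI : Fact ℓ.Prime := ⟨hℓ⟩
  have hM : (M : ZMod ℓ) ≠ 0 := by
    intro h
    rw [ZMod.natCast_eq_zero_iff] at h
    exact (Nat.Prime.coprime_iff_not_dvd hℓ).1 hc h
  refine ⟨((l : ZMod ℓ) * (M : ZMod ℓ)⁻¹).val, mem_range.2 (ZMod.val_lt _), fun k hk => ?_⟩
  have hk' := mem_range.1 hk
  rw [← ZMod.natCast_eq_natCast_iff', Nat.cast_mul, ← div_eq_iff hM, div_eq_mul_inv]
  constructor
  · intro h
    rw [h, ZMod.val_natCast, Nat.mod_eq_of_lt hk']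
  · intro h
    rw [h, ZMod.natCast_zmod_val]

private theorem sum_if {A : Type} [AddCommMonoid A] (hℓ : ℓ.Prime) (hc : ℓ.Coprime M) (l : ℕ)
    (g : A) : ∑ k ∈ range ℓ, (if l % ℓ = (k * M) % ℓ then g else 0) = g := by
  obtain ⟨k₀, hk₀, h⟩ := exu hℓ hc l
  rw [Finset.sum_congr rfl fun k hk => by rw [if_congr (h k hk) rfl rfl], Finset.sum_ite_eq' (range ℓ) k₀]
  rw [if_pos hk₀]

private theorem cond_iff {N : ℕ} [NeZero N] (hN : ℓ ∣ N) (l : ZMod N) (a : ℕ) :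
    l.val % ℓ = a % ℓ ↔ ZMod.castHom hN (ZMod ℓ) (l - (a : ZMod N)) = 0 := by
  rw [← ZMod.natCast_eq_natCast_iff', map_sub, map_natCast, sub_eq_zero, ZMod.castHom_apply,
    ← ZMod.natCast_val]

private theorem dvd_of_cast {N : ℕ} [NeZero N] (hN : ℓ ∣ N) (m : ZMod N)
    (h : ZMod.castHom hN (ZMod ℓ) m = 0) : ∃ a : ZMod N, m = (ℓ : ZMod N) * a := by
  rw [ZMod.castHom_apply, ← ZMod.natCast_val, ZMod.natCast_eq_zero_iff] at h
  obtain ⟨c, hc⟩ := h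
  refine ⟨(c : ZMod N), ?_⟩
  rw [← Nat.cast_mul, ← hc, ZMod.natCast_zmod_val]

private theorem dvd_of_mod {N : ℕ} [NeZero N] (a c : ZMod N) (h : a.val % M = c.val % M) :
    ∃ u : ZMod N, a - c = (M : ZMod N) * u := by
  have h1 : (M : ℤ) ∣ (a.val : ℤ) - (c.val : ℤ) := by
    have h2 : c.val ≡ a.val [MOD M] := h.symm
    exact (Nat.modEq_iff_dvd).1 h2
  obtain ⟨u, hu⟩ := h1
  refine ⟨(u : ZMod N), ?_⟩
  have h3 := congrArg (fun n : ℤ => (n : ZMod N)) hu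
  push_cast at h3
  simpa [ZMod.natCast_zmod_val] using h3

private theorem sumU (hℓ : ℓ.Prime) [NeZero ℓ] (c : ZMod ℓ) :
    ∑ u : (ZMod ℓ)ˣ, ch ((u : ZMod ℓ) * c) = (if c = 0 then (ℓ : ℂ) else 0) - 1 := by
  haveI : Fact ℓ.Prime := ⟨hℓ⟩
  rw [← sum_ch_mul c]
  have h1 : ∑ a : ZMod ℓ, ch (a * c) = ch (0 * c) + ∑ a ∈ univ.erase (0 : ZMod ℓ), ch (a * c) :=
    (Finset.add_sum_erase univ (fun a : ZMod ℓ => ch (a * c)) (mem_univ 0)).symm
  have h2 : ∑ a ∈ univ.erase (0 : ZMod ℓ), ch (a * c) = ∑ u : (ZMod ℓ)ˣ, ch ((u : ZMod ℓ) * c) := by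
    symm
    refine Finset.sum_bij (fun u _ => (u : ZMod ℓ)) ?_ ?_ ?_ ?_
    · intro u _
      exact mem_erase.2 ⟨u.ne_zero, mem_univ _⟩
    · intro u _ v _ h
      exact Units.ext h
    · intro a ha
      exact ⟨Units.mk0 a (mem_erase.1 ha).1, mem_univ _, rfl⟩
    · intro u _
      rfl
  rw [h1, h2, zero_mul, ch_zero]
  ring

private theorem sumS (hℓ : ℓ.Prime) (hc : ℓ.Coprime M) [NeZero (ℓ * M)] (s : (ZMod (ℓ * M))ˣ)
    (d : ℤ) :
    ∑ s' ∈ univ.filter (fun s' : (ZMod (ℓ * M))ˣ => (s' : ZMod (ℓ * M)).val % M =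
      (s : ZMod (ℓ * M)).val % M), ch ((s' : ZMod (ℓ * M)) * ((d * M : ℤ) : ZMod (ℓ * M))) =
      (if (d : ZMod ℓ) = 0 then (ℓ : ℂ) else 0) - 1 := by
  haveI : NeZero ℓ := ⟨hℓ.ne_zero⟩
  haveI hM : NeZero M := ⟨right_ne_zero_of_mul (NeZero.ne (ℓ * M))⟩
  rw [← sumU hℓ (d : ZMod ℓ)]
  obtain ⟨E, hE⟩ : ∃ E : (ZMod (ℓ * M))ˣ ≃* (ZMod ℓ)ˣ × (ZMod M)ˣ,
      ∀ s', (((E s').1 : (ZMod ℓ)ˣ) : ZMod ℓ) = (((s' : ZMod (ℓ * M)).val : ℕ) : ZMod ℓ) ∧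
        (((E s').2 : (ZMod M)ˣ) : ZMod M) = (((s' : ZMod (ℓ * M)).val : ℕ) : ZMod M) := by
    refine ⟨(Units.mapEquiv (ZMod.chineseRemainder hc).toMulEquiv).trans MulEquiv.prodUnits,
      fun s' => ⟨?_, ?_⟩⟩
    · have h1 : ((ZMod.chineseRemainder hc) (s' : ZMod (ℓ * M))).1 = (((s' : ZMod (ℓ * M)).val : ℕ) : ZMod ℓ) := by
        rw [ZMod.natCast_val]
        exact Prod.fst_zmod_cast _
      exact h1
    · have h1 : ((ZMod.chineseRemainder hc) (s' : ZMod (ℓ * M))).2 = (((s' : ZMod (ℓ * M)).val : ℕ) : ZMod M) := by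
        rw [ZMod.natCast_val]
        exact Prod.snd_zmod_cast _
      exact h1
  refine Finset.sum_bij' (fun s' _ => (E s').1) (fun u _ => E.symm (u, (E s).2)) ?_ ?_ ?_ ?_ ?_
  · intro s' _
    exact mem_univ _
  · intro u _
    rw [mem_filter]
    refine ⟨mem_univ _, ?_⟩
    rw [← ZMod.natCast_eq_natCast_iff', ← (hE s).2, ← (hE _).2, MulEquiv.apply_symm_apply]
  · intro s' hs'
    have h1 := (mem_filter.1 hs').2
    rw [← ZMod.natCast_eq_natCast_iff', ← (hE s).2, ← (hE _).2] at h1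
    have h2 : (E s').2 = (E s).2 := Units.ext h1
    change E.symm ((E s').1, (E s).2) = s'
    rw [← h2]
    exact E.symm_apply_apply s'
  · intro u _
    simp only [MulEquiv.apply_symm_apply]
  · intro s' _
    rw [(hE s').1]
    have h1 := ch_level (N := ℓ * M) ℓ (dvd_mul_right ℓ M) (((s' : ZMod (ℓ * M)).val : ℤ) * d)
    rw [Nat.mul_div_cancel_left M hℓ.pos] at h1
    have h2 : ((s' : ZMod (ℓ * M)) * ((d * M : ℤ) : ZMod (ℓ * M))) =
        (((M : ℕ) * (((s' : ZMod (ℓ * M)).val : ℤ) * d) : ℤ) : ZMod (ℓ * M)) := by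
      push_cast
      rw [ZMod.natCast_zmod_val]
      ring
    rw [h2, h1]
    push_cast
    rfl

private theorem sumN {N : ℕ} [NeZero N] (hℓ : ℓ.Prime) (hN : ℓ ∣ N) (hc : ℓ.Coprime (N / ℓ))
    (s : (ZMod N)ˣ) (d : ℤ) :
    ∑ s' ∈ univ.filter (fun s' : (ZMod N)ˣ => (s' : ZMod N).val % (N / ℓ) =
      (s : ZMod N).val % (N / ℓ)), ch ((s' : ZMod N) * ((d * ((N / ℓ : ℕ) : ℤ) : ℤ) : ZMod N)) =
      (if (d : ZMod ℓ) = 0 then (ℓ : ℂ) else 0) - 1 := by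
  obtain ⟨M, rfl⟩ := hN
  rw [Nat.mul_div_cancel_left M hℓ.pos] at hc ⊢
  exact sumS hℓ hc s d

end aux

private theorem zval_add (D : Dat p N b F) (a c : ZMod N) :
    D.z ^ (a + c).val = D.z ^ a.val * D.z ^ c.val := by
  rw [ZMod.val_add, ← pow_eq_pow_mod _ D.hz, pow_add]

private theorem zval_nat (D : Dat p N b F) (k : ℕ) : D.z ^ (k : ZMod N).val = D.z ^ k := by
  rw [ZMod.val_natCast, ← pow_eq_pow_mod _ D.hz]

private theorem zval_neg (D : Dat p N b F) (a : ZMod N) : D.z ^ (-a).val = (D.z ^ a.val)⁻¹ := by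
  have h := zval_add D (-a) a
  rw [neg_add_cancel, ZMod.val_zero, pow_zero] at h
  exact eq_inv_of_mul_eq_one_left h.symm

/-- the exponent `l - n` -/
private theorem zval_sub (D : Dat p N b F) (l : ZMod N) (n : ℕ) :
    D.z ^ l.val * D.z⁻¹ ^ n = D.z ^ (l - (n : ZMod N)).val := by
  rw [sub_eq_add_neg, zval_add, zval_neg, zval_nat, inv_pow]

private theorem cc_eq (D : Dat p N b F) (ℓ : ℕ) (hN : ℓ ∣ N) (y : F) (k : ℕ) :
    D.cc ℓ y k = (∑ m : ZMod N, if ZMod.castHom hN (ZMod ℓ) m = 0 then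
      ∑ j : ZMod p, ((D.arr y (m + ((k * (N / ℓ) : ℕ) : ZMod N)) j : ℚ) : F) * D.z ^ m.val *
        D.x ^ j.val else 0) / (p : F) := by
  unfold Dat.cc
  congr 1
  rw [← Fintype.sum_equiv (Equiv.addRight ((k * (N / ℓ) : ℕ) : ZMod N)) _ _ fun m => rfl]
  refine Finset.sum_congr rfl fun m _ => ?_
  rw [Equiv.coe_addRight]
  refine if_congr ?_ (Finset.sum_congr rfl fun j _ => ?_) rfl
  · rw [cond_iff hN, add_sub_cancel_right]
  · rw [zval_sub, add_sub_cancel_right]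

private theorem coset_zero (D : Dat p N b F) (ℓ : ℕ) (hℓ : ℓ.Prime) (hN : ℓ ∣ N) (y : F)
    (m : ZMod N) (j : ZMod p) :
    ∑ k ∈ range ℓ, D.arr y (m + ((k * (N / ℓ) : ℕ) : ZMod N)) j = 0 := by
  have hN0 : 0 < N := Nat.pos_of_ne_zero (NeZero.ne N)
  unfold Dat.arr
  rw [← Finset.sum_div, ← map_sum, ← Finset.mul_sum]
  have h1 : ∑ k ∈ range ℓ, D.mon (m + ((k * (N / ℓ) : ℕ) : ZMod N)) j = 0 := by
    unfold Dat.mon
    rw [← Finset.sum_mul]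
    have h2 : ∀ k ∈ range ℓ, D.z ^ (-(m + ((k * (N / ℓ) : ℕ) : ZMod N))).val =
        D.z ^ (-m).val * (D.z⁻¹ ^ (N / ℓ)) ^ k := by
      intro k _
      rw [neg_add, zval_add, zval_neg D (((k * (N / ℓ) : ℕ) : ZMod N)), zval_nat, ← pow_mul,
        inv_pow, mul_comm k]
    rw [Finset.sum_congr rfl h2, ← Finset.mul_sum]
    have h3 : IsPrimitiveRoot (D.z⁻¹ ^ (N / ℓ)) ℓ :=
      D.z_prim.inv.pow hN0 (by rw [Nat.div_mul_cancel hN])
    rw [h3.geom_sum_eq_zero hℓ.one_lt, mul_zero, zero_mul]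
  rw [h1, mul_zero, map_zero, zero_div]

theorem cc_sum (D : Dat p N b F) (ℓ : ℕ) (hℓ : ℓ.Prime) (hN : ℓ ∣ N) (hN2 : ¬ ℓ ^ 2 ∣ N) (y : F) :
    y = ∑ k ∈ range ℓ, D.z ^ (k * (N / ℓ)) * D.cc ℓ y k := by
  have hc : ℓ.Coprime (N / ℓ) := by
    refine cop_of hℓ ?_
    rwa [Nat.mul_div_cancel' hN]
  have h1 : ∀ k ∈ range ℓ, D.z ^ (k * (N / ℓ)) * D.cc ℓ y k =
      (∑ l : ZMod N, if l.val % ℓ = (k * (N / ℓ)) % ℓ then
        ∑ j : ZMod p, ((D.arr y l j : ℚ) : F) * D.z ^ l.val * D.x ^ j.val else 0) / (p : F) := by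
    intro k _
    unfold Dat.cc
    rw [← mul_div_assoc, Finset.mul_sum]
    congr 1
    refine Finset.sum_congr rfl fun l _ => ?_
    split_ifs with h
    · rw [Finset.mul_sum]
      refine Finset.sum_congr rfl fun j _ => ?_
      have hz : D.z ^ (k * (N / ℓ)) * D.z⁻¹ ^ (k * (N / ℓ)) = 1 := by
        rw [← mul_pow, mul_inv_cancel₀ D.z_ne_zero, one_pow]
      calc D.z ^ (k * (N / ℓ)) * (((D.arr y l j : ℚ) : F) * (D.z ^ l.val * D.z⁻¹ ^ (k * (N / ℓ))) *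
            D.x ^ j.val) = (D.z ^ (k * (N / ℓ)) * D.z⁻¹ ^ (k * (N / ℓ))) *
            (((D.arr y l j : ℚ) : F) * D.z ^ l.val * D.x ^ j.val) := by ring
        _ = _ := by rw [hz, one_mul]
    · rw [mul_zero]
  rw [Finset.sum_congr rfl h1, ← Finset.sum_div, Finset.sum_comm,
    Finset.sum_congr rfl fun l _ => sum_if hℓ hc l.val _, Finset.sum_comm]
  conv_lhs => rw [inversion D y]
  unfold Dat.row
  rw [Finset.sum_div]
  refine Finset.sum_congr rfl fun j _ => ?_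
  rw [div_mul_eq_mul_div, Finset.sum_mul]

theorem cc_mem (D : Dat p N b F) (ℓ : ℕ) (hℓ : ℓ.Prime) (hN : ℓ ∣ N) (y : F) (k : ℕ) :
    D.cc ℓ y k ∈ IntermediateField.adjoin ℚ ({D.z ^ ℓ, D.x} : Set F) := by
  have hz : D.z ^ ℓ ∈ IntermediateField.adjoin ℚ ({D.z ^ ℓ, D.x} : Set F) :=
    IntermediateField.subset_adjoin _ _ (by simp)
  have hx : D.x ∈ IntermediateField.adjoin ℚ ({D.z ^ ℓ, D.x} : Set F) :=
    IntermediateField.subset_adjoin _ _ (by simp)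
  rw [cc_eq D ℓ hN y k]
  refine div_mem (sum_mem fun m _ => ?_) (natCast_mem _ p)
  split_ifs with h
  · refine sum_mem fun j _ => mul_mem (mul_mem (SubfieldClass.ratCast_mem _ _) ?_) (pow_mem hx _)
    rw [ZMod.castHom_apply, ← ZMod.natCast_val, ZMod.natCast_eq_zero_iff] at h
    obtain ⟨c, hc⟩ := h
    rw [hc, pow_mul]
    exact pow_mem hz c
  · exact zero_mem _

theorem cc_zero (D : Dat p N b F) (ℓ : ℕ) (hℓ : ℓ.Prime) (hN : ℓ ∣ N) (hN2 : ¬ ℓ ^ 2 ∣ N) (y : F) :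
    ∑ k ∈ range ℓ, D.cc ℓ y k = 0 := by
  rw [Finset.sum_congr rfl fun k _ => cc_eq D ℓ hN y k, ← Finset.sum_div, Finset.sum_comm]
  rw [Finset.sum_eq_zero, zero_div]
  intro m _
  by_cases h : ZMod.castHom hN (ZMod ℓ) m = 0
  · simp only [if_pos h]
    rw [Finset.sum_comm]
    refine Finset.sum_eq_zero fun j _ => ?_
    rw [← Finset.sum_mul, ← Finset.sum_mul, ← Rat.cast_sum, coset_zero D ℓ hℓ hN y m j]
    simp
  · simp only [if_neg h, Finset.sum_const_zero]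

private theorem e_cc_congr (D : Dat p N b F) (ℓ : ℕ) (hN : ℓ ∣ N) (y : F) (k : ℕ)
    (s s' : (ZMod N)ˣ) (t : ZMod p)
    (h : (s' : ZMod N).val % (N / ℓ) = (s : ZMod N).val % (N / ℓ)) :
    D.e (s', t) (D.cc ℓ y k) = D.e (s, t) (D.cc ℓ y k) := by
  rw [cc_eq D ℓ hN y k, map_div₀, map_div₀, map_sum, map_sum]
  congr 1
  · refine Finset.sum_congr rfl fun m _ => ?_
    split_ifs with hm
    · rw [map_sum, map_sum]
      refine Finset.sum_congr rfl fun j _ => ?_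
      rw [map_mul, map_mul, map_mul, map_mul, map_ratCast, map_ratCast, D.e_zl, D.e_zl, map_pow, map_pow,
        D.ex, D.ex]
      congr 2
      obtain ⟨a, ha⟩ := dvd_of_cast hN m hm
      obtain ⟨u, hu⟩ := dvd_of_mod _ _ h
      congr 1
      have h1 : m * (s' : ZMod N) - m * (s : ZMod N) = 0 := by
        rw [← mul_sub, hu, ha]
        have h2 : ((ℓ : ZMod N)) * ((N / ℓ : ℕ) : ZMod N) = 0 := by
          rw [← Nat.cast_mul, Nat.mul_div_cancel' hN, ZMod.natCast_self]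
        calc (ℓ : ZMod N) * a * (((N / ℓ : ℕ) : ZMod N) * u) =
            ((ℓ : ZMod N)) * ((N / ℓ : ℕ) : ZMod N) * (a * u) := by ring
          _ = 0 := by rw [h2, zero_mul]
      exact sub_eq_zero.1 h1
    · rw [map_zero, map_zero]
  · rw [map_natCast, map_natCast]

private theorem cc_per (D : Dat p N b F) (ℓ : ℕ) (hN : ℓ ∣ N) (y : F) (k k' : ℕ)
    (h : k % ℓ = k' % ℓ) : D.cc ℓ y k = D.cc ℓ y k' := by
  rw [cc_eq D ℓ hN y k, cc_eq D ℓ hN y k']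
  have h1 : ((k * (N / ℓ) : ℕ) : ZMod N) = ((k' * (N / ℓ) : ℕ) : ZMod N) := by
    rw [ZMod.natCast_eq_natCast_iff]
    have h2 : k ≡ k' [MOD ℓ] := h
    have h3 := h2.mul_right' (N / ℓ)
    rwa [Nat.mul_div_cancel' hN] at h3
  rw [h1]

theorem e_cc (D : Dat p N b F) (ℓ : ℕ) (hℓ : ℓ.Prime) (hN : ℓ ∣ N) (hN2 : ¬ ℓ ^ 2 ∣ N) (y : F) (k : ℕ) (s : (ZMod N)ˣ) (t : ZMod p) :
    (ℓ : ℂ) * D.e (s, t) (D.cc ℓ y k) =
      ∑ s' ∈ univ.filter (fun s' : (ZMod N)ˣ => (s' : ZMod N).val % (N / ℓ) = (s : ZMod N).val % (N / ℓ)),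
        D.e (s', t) y * ch (-((s' : ZMod N) * ((k * (N / ℓ) : ℕ) : ZMod N))) := by
  have hc : ℓ.Coprime (N / ℓ) := by
    refine cop_of hℓ ?_
    rwa [Nat.mul_div_cancel' hN]
  have h1 : ∀ s' ∈ univ.filter (fun s' : (ZMod N)ˣ => (s' : ZMod N).val % (N / ℓ) =
      (s : ZMod N).val % (N / ℓ)),
      D.e (s', t) y * ch (-((s' : ZMod N) * ((k * (N / ℓ) : ℕ) : ZMod N))) =
      ∑ k' ∈ range ℓ, D.e (s, t) (D.cc ℓ y k') *
        ch ((s' : ZMod N) * ((((k' : ℤ) - k) * ((N / ℓ : ℕ) : ℤ) : ℤ) : ZMod N)) := by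
    intro s' hs'
    conv_lhs => rw [cc_sum D ℓ hℓ hN hN2 y]
    rw [map_sum, Finset.sum_mul]
    refine Finset.sum_congr rfl fun k' _ => ?_
    rw [map_mul, D.e_zk, e_cc_congr D ℓ hN y k' s s' t (mem_filter.1 hs').2, mul_comm (ch _),
      mul_assoc, ← ch_add]
    congr 2
    generalize N / ℓ = M'
    push_cast
    ring
  rw [Finset.sum_congr rfl h1, Finset.sum_comm]
  have h2 : ∀ k' ∈ range ℓ, ∑ s' ∈ univ.filter (fun s' : (ZMod N)ˣ =>
      (s' : ZMod N).val % (N / ℓ) = (s : ZMod N).val % (N / ℓ)), D.e (s, t) (D.cc ℓ y k') *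
        ch ((s' : ZMod N) * ((((k' : ℤ) - k) * ((N / ℓ : ℕ) : ℤ) : ℤ) : ZMod N)) =
      (if k' = k % ℓ then (ℓ : ℂ) * D.e (s, t) (D.cc ℓ y k') else 0) - D.e (s, t) (D.cc ℓ y k') := by
    intro k' hk'
    rw [← Finset.mul_sum, sumN hℓ hN hc s]
    have h3 : ((((k' : ℤ) - k : ℤ)) : ZMod ℓ) = 0 ↔ k' = k % ℓ := by
      push_cast
      rw [sub_eq_zero, ZMod.natCast_eq_natCast_iff', Nat.mod_eq_of_lt (mem_range.1 hk')]
    rw [if_congr h3 rfl rfl]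
    split_ifs <;> ring
  rw [Finset.sum_congr rfl h2, Finset.sum_sub_distrib, Finset.sum_ite_eq' (range ℓ) (k % ℓ),
    if_pos (mem_range.2 (Nat.mod_lt _ hℓ.pos)), ← map_sum, cc_zero D ℓ hℓ hN hN2 y, map_zero, sub_zero,
    cc_per D ℓ hN y (k % ℓ) k (Nat.mod_mod _ _)]

private theorem cc_mono (D : Dat p N b F) (ℓ : ℕ) (hℓ : ℓ.Prime) (hN : ℓ ∣ N) (hN2 : ¬ ℓ ^ 2 ∣ N)
    (l : ZMod N) (j : ℕ) (k k' : ℕ) (hk : k < ℓ) (hk' : k' < ℓ) :
    IsIntegral ℤ (D.cc ℓ (D.z ^ l.val * D.x ^ j) k - D.cc ℓ (D.z ^ l.val * D.x ^ j) k') := by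
  have hc : ℓ.Coprime (N / ℓ) := by
    refine cop_of hℓ ?_
    rwa [Nat.mul_div_cancel' hN]
  have hℓ0 : (ℓ : ℂ) ≠ 0 := by exact_mod_cast hℓ.ne_zero
  obtain ⟨k₀, hk₀, hk₀'⟩ := exu hℓ hc l.val
  have hcond := (hk₀' k₀ hk₀).2 rfl
  have hm := (cond_iff hN l (k₀ * (N / ℓ))).1 hcond
  have key : ∀ k'' < ℓ, D.e (1, 0) (D.cc ℓ (D.z ^ l.val * D.x ^ j) k'') =
      ((if k₀ = k'' then 1 else 0) - 1 / (ℓ : ℂ)) *
        D.e (1, 0) (D.z ^ (l - ((k₀ * (N / ℓ) : ℕ) : ZMod N)).val * D.x ^ j) := by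
    intro k'' hk''
    have h1 := e_cc D ℓ hℓ hN hN2 (D.z ^ l.val * D.x ^ j) k'' 1 0
    have h2 : ∀ s' ∈ univ.filter (fun s' : (ZMod N)ˣ => (s' : ZMod N).val % (N / ℓ) =
        ((1 : (ZMod N)ˣ) : ZMod N).val % (N / ℓ)),
        D.e (s', 0) (D.z ^ l.val * D.x ^ j) *
          ch (-((s' : ZMod N) * ((k'' * (N / ℓ) : ℕ) : ZMod N))) =
        D.e (1, 0) (D.z ^ (l - ((k₀ * (N / ℓ) : ℕ) : ZMod N)).val * D.x ^ j) *
          ch ((s' : ZMod N) * ((((k₀ : ℤ) - k'') * ((N / ℓ : ℕ) : ℤ) : ℤ) : ZMod N)) := by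
      intro s' hs'
      obtain ⟨a, ha⟩ := dvd_of_cast hN _ hm
      obtain ⟨u, hu⟩ := dvd_of_mod _ _ (mem_filter.1 hs').2
      have h3 : (l - ((k₀ * (N / ℓ) : ℕ) : ZMod N)) * (s' : ZMod N) =
          (l - ((k₀ * (N / ℓ) : ℕ) : ZMod N)) * ((1 : (ZMod N)ˣ) : ZMod N) := by
        apply sub_eq_zero.1
        rw [← mul_sub, hu, ha]
        have h2 : ((ℓ : ZMod N)) * ((N / ℓ : ℕ) : ZMod N) = 0 := by
          rw [← Nat.cast_mul, Nat.mul_div_cancel' hN, ZMod.natCast_self]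
        calc (ℓ : ZMod N) * a * (((N / ℓ : ℕ) : ZMod N) * u) =
            ((ℓ : ZMod N)) * ((N / ℓ : ℕ) : ZMod N) * (a * u) := by ring
          _ = 0 := by rw [h2, zero_mul]
      have h4 : ch (l * (s' : ZMod N)) * ch (-((s' : ZMod N) * ((k'' * (N / ℓ) : ℕ) : ZMod N))) =
          ch ((l - ((k₀ * (N / ℓ) : ℕ) : ZMod N)) * (s' : ZMod N)) *
            ch ((s' : ZMod N) * ((((k₀ : ℤ) - k'') * ((N / ℓ : ℕ) : ℤ) : ℤ) : ZMod N)) := by
        rw [← ch_add, ← ch_add]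
        congr 1
        generalize N / ℓ = M'
        push_cast
        ring
      rw [map_mul, map_mul, D.e_zl, D.e_zl, map_pow, map_pow, D.ex, D.ex, ← h3, mul_right_comm, h4,
        mul_right_comm]
    rw [Finset.sum_congr rfl h2, ← Finset.mul_sum, sumN hℓ hN hc 1] at h1
    have h3 : ((((k₀ : ℤ) - k'' : ℤ)) : ZMod ℓ) = 0 ↔ k₀ = k'' := by
      push_cast
      rw [sub_eq_zero, ZMod.natCast_eq_natCast_iff', Nat.mod_eq_of_lt (mem_range.1 hk₀), Nat.mod_eq_of_lt hk'']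
    rw [if_congr h3 rfl rfl] at h1
    apply mul_left_cancel₀ hℓ0
    rw [h1]
    split_ifs
    · field_simp
    · field_simp
      ring
  rw [← D.int_iff (1, 0), map_sub, key k hk, key k' hk', ← sub_mul, sub_sub_sub_cancel_right]
  refine IsIntegral.mul ?_ ((D.int_iff (1, 0) _).2 ?_)
  · refine IsIntegral.sub ?_ ?_
    · split_ifs
      · exact isIntegral_one
      · exact isIntegral_zero
    · split_ifs
      · exact isIntegral_one
      · exact isIntegral_zero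
  · exact (D.z_int.pow _).mul (D.x_int.pow _)

private theorem cc_add (D : Dat p N b F) (ℓ : ℕ) (y y' : F) (k : ℕ) :
    D.cc ℓ (y + y') k = D.cc ℓ y k + D.cc ℓ y' k := by
  unfold Dat.cc
  rw [← add_div, ← Finset.sum_add_distrib]
  congr 1
  refine Finset.sum_congr rfl fun l _ => ?_
  split_ifs
  · rw [← Finset.sum_add_distrib]
    refine Finset.sum_congr rfl fun j _ => ?_
    have h : D.arr (y + y') l j = D.arr y l j + D.arr y' l j := by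
      unfold Dat.arr
      rw [add_mul, map_add, add_div]
    rw [h]
    push_cast
    ring
  · rw [add_zero]

private theorem cc_smul (D : Dat p N b F) (ℓ : ℕ) (c : ℚ) (y : F) (k : ℕ) :
    D.cc ℓ ((c : F) * y) k = (c : F) * D.cc ℓ y k := by
  unfold Dat.cc
  rw [← mul_div_assoc, Finset.mul_sum]
  congr 1
  refine Finset.sum_congr rfl fun l _ => ?_
  split_ifs
  · rw [Finset.mul_sum]
    refine Finset.sum_congr rfl fun j _ => ?_
    have h : D.arr ((c : F) * y) l j = c * D.arr y l j := by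
      unfold Dat.arr
      have h1 : (c : F) * y * D.mon l j = c • (y * D.mon l j) := by
        rw [Algebra.smul_def, eq_ratCast, mul_assoc]
      rw [h1, map_smul, smul_eq_mul, mul_div_assoc]
    rw [h]
    push_cast
    ring
  · rw [mul_zero]

private theorem ch_int {N : ℕ} [NeZero N] (a : ZMod N) : IsIntegral ℤ (ch a) := by
  refine IsIntegral.of_pow (Nat.pos_of_ne_zero (NeZero.ne N)) ?_
  rw [ch_pow, ZMod.natCast_self, zero_mul, ch_zero]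
  exact isIntegral_one

theorem cc_int (D : Dat p N b F) (ℓ : ℕ) (hℓ : ℓ.Prime) (hN : ℓ ∣ N) (hN2 : ¬ ℓ ^ 2 ∣ N) (hℓb : ¬ ℓ ∣ p * b) (y : F) (hy : IsIntegral ℤ y)
    (k k' : ℕ) (hk : k < ℓ) (hk' : k' < ℓ) : IsIntegral ℤ (D.cc ℓ y k - D.cc ℓ y k') := by
  have hA : IsIntegral ℤ ((ℓ : F) * (D.cc ℓ y k - D.cc ℓ y k')) := by
    rw [← D.int_iff (1, 0), map_mul, map_sub, map_natCast, mul_sub, e_cc D ℓ hℓ hN hN2,
      e_cc D ℓ hℓ hN hN2]
    refine IsIntegral.sub (IsIntegral.sum _ fun s' _ => ?_) (IsIntegral.sum _ fun s' _ => ?_)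
    · exact ((D.int_iff _ _).2 hy).mul (ch_int _)
    · exact ((D.int_iff _ _).2 hy).mul (ch_int _)
  have hB : IsIntegral ℤ (((p : F) * (b : F)) * (D.cc ℓ y k - D.cc ℓ y k')) := by
    choose c hc using fun j => rep D y hy j
    have h1 : ((p : F) * (b : F)) * y =
        ∑ j : ZMod p, ∑ l : ZMod N, ((c j l : ℚ) : F) * (D.z ^ l.val * D.x ^ j.val) := by
      conv_lhs => rw [inversion D y, Finset.mul_sum]
      refine Finset.sum_congr rfl fun j _ => ?_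
      rw [← mul_assoc, hc j, Finset.sum_mul]
      refine Finset.sum_congr rfl fun l _ => ?_
      push_cast
      ring
    have h2 : ∀ k : ℕ, ((p : F) * (b : F)) * D.cc ℓ y k =
        ∑ j : ZMod p, ∑ l : ZMod N, ((c j l : ℚ) : F) * D.cc ℓ (D.z ^ l.val * D.x ^ j.val) k := by
      intro k
      obtain ⟨Φ, hΦ⟩ : ∃ Φ : F →+ F, ∀ y, Φ y = D.cc ℓ y k :=
        ⟨AddMonoidHom.mk' (fun y => D.cc ℓ y k) (fun a b => cc_add D ℓ a b k), fun _ => rfl⟩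
      have h3 := cc_smul D ℓ ((p : ℚ) * (b : ℚ)) y k
      push_cast at h3
      rw [← h3, h1, ← hΦ, map_sum]
      refine Finset.sum_congr rfl fun j _ => ?_
      rw [map_sum]
      refine Finset.sum_congr rfl fun l _ => ?_
      rw [hΦ, cc_smul]
    rw [mul_sub, h2 k, h2 k', ← Finset.sum_sub_distrib]
    refine IsIntegral.sum _ fun j _ => ?_
    rw [← Finset.sum_sub_distrib]
    refine IsIntegral.sum _ fun l _ => ?_
    rw [← mul_sub]
    refine IsIntegral.mul ?_ (cc_mono D ℓ hℓ hN hN2 l j.val k k' hk hk')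
    have h4 : (((c j l : ℤ) : ℚ) : F) = algebraMap ℤ F (c j l) := by simp
    rw [h4]
    exact isIntegral_algebraMap
  have hcop : IsCoprime (ℓ : ℤ) ((p * b : ℕ) : ℤ) :=
    Nat.isCoprime_iff_coprime.2 ((Nat.Prime.coprime_iff_not_dvd hℓ).2 hℓb)
  obtain ⟨u, v, huv⟩ := hcop
  have h5 : D.cc ℓ y k - D.cc ℓ y k' = (algebraMap ℤ F u) * ((ℓ : F) * (D.cc ℓ y k - D.cc ℓ y k')) +
      (algebraMap ℤ F v) * (((p : F) * (b : F)) * (D.cc ℓ y k - D.cc ℓ y k')) := by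
    have h6 := congrArg (fun n : ℤ => (n : F)) huv
    push_cast at h6
    simp only [eq_intCast]
    calc D.cc ℓ y k - D.cc ℓ y k' = 1 * (D.cc ℓ y k - D.cc ℓ y k') := by rw [one_mul]
      _ = (u * ℓ + v * (p * b)) * (D.cc ℓ y k - D.cc ℓ y k') := by rw [h6]
      _ = _ := by ring
  rw [h5]
  exact (isIntegral_algebraMap.mul hA).add (isIntegral_algebraMap.mul hB)

end Pool.Agent.H61.WN
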