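import Pool.Agent.H61.WN.Cc

/-!
# [H61 WN Ccs] THEOREM WN: Parseval for the components (`ℓ ∣ N`, `ℓ^2 ∤ N`)

See `Cc`: for every `s`, `t`: `∑_(s' ≡ s mod N/ℓ) |e(s',t)(y)|^2 = (1/2) ∑_(k,k'<ℓ) |e(s,t)(cc y k - cc y k')|^2`, `e(s',t)(y) = ∑_k ch(s' k N/ℓ) e(s,t)(cc y k)` (`cc_sum`, `cc_mem`: the
elements of `ℚ(z^ℓ, x)` have the same image under `(s,t)` and `(s',t)`: `ch(v N/ℓ ℓ m) = 1`, induction `IntermediateField.adjoin_induction` or `eqLocusField`),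
`∑_(all ℓ classes v) - (v with s + v N/ℓ ≡ 0 mod ℓ)` `= ℓ ∑ |C_k|^2 - |∑ C_k|^2`, the second sum is `0` by `cc_zero`. Sum over `s`: every unit is counted `ℓ - 1` times.
-/

set_option autoImplicit false

namespace Pool.Agent.H61.WN

open Finset

variable {p N b : ℕ} [Fact p.Prime] [NeZero N] {F : Type} [Field F] [NumberField F]

private theorem ccs_pair (ℓ : ℕ) (C : ℕ → ℂ) (h0 : ∑ k ∈ range ℓ, C k = 0) :
    ∑ k ∈ range ℓ, ∑ k' ∈ range ℓ, ‖C k - C k'‖ ^ 2 = 2 * ℓ * ∑ k ∈ range ℓ, ‖C k‖ ^ 2 := by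
  have key : ((∑ k ∈ range ℓ, ∑ k' ∈ range ℓ, ‖C k - C k'‖ ^ 2 : ℝ) : ℂ) =
      ((2 * ℓ * ∑ k ∈ range ℓ, ‖C k‖ ^ 2 : ℝ) : ℂ) := by
    push_cast
    have h1 : ∀ k k' : ℕ, ((‖C k - C k'‖ : ℂ)) ^ 2 = (‖C k‖ : ℂ) ^ 2 + (‖C k'‖ : ℂ) ^ 2 -
        C k * (starRingEnd ℂ) (C k') - C k' * (starRingEnd ℂ) (C k) := by
      intro k k'
      rw [← Complex.mul_conj', ← Complex.mul_conj', ← Complex.mul_conj', map_sub]
      ring
    simp_rw [h1]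
    simp only [Finset.sum_add_distrib, Finset.sum_sub_distrib, Finset.sum_const,
      Finset.card_range, nsmul_eq_mul, ← Finset.mul_sum, ← Finset.sum_mul, ← map_sum, h0,
      map_zero, mul_zero, zero_mul]
    ring
  exact_mod_cast key

private theorem ccs_inv (D : Dat p N b F) (ℓ : ℕ) (hℓ : ℓ.Prime) (hN : ℓ ∣ N)
    (s s' : (ZMod N)ˣ) (h : (s' : ZMod N).val % (N / ℓ) = (s : ZMod N).val % (N / ℓ))
    (t : ZMod p) {c : F} (hc : c ∈ IntermediateField.adjoin ℚ ({D.z ^ ℓ, D.x} : Set F)) :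
    D.e (s', t) c = D.e (s, t) c := by
  have h0 : (ℓ : ZMod N) * (s' : ZMod N) = (ℓ : ZMod N) * (s : ZMod N) := by
    have h1 : (s' : ZMod N).val ≡ (s : ZMod N).val [MOD (N / ℓ)] := h
    have h2 := h1.mul_left' ℓ
    rw [Nat.mul_div_cancel' hN] at h2
    have h3 := (ZMod.natCast_eq_natCast_iff _ _ N).2 h2
    push_cast at h3
    rwa [ZMod.natCast_zmod_val, ZMod.natCast_zmod_val] at h3
  induction hc using IntermediateField.adjoin_induction with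
  | mem x hx =>
    rcases hx with rfl | hx
    · rw [D.e_zk, D.e_zk, h0]
    · rw [Set.mem_singleton_iff.1 hx, D.ex, D.ex]
  | algebraMap q => rw [eq_ratCast, map_ratCast, map_ratCast]
  | add x y _ _ hx hy => rw [map_add, map_add, hx, hy]
  | inv x _ hx => rw [map_inv₀, map_inv₀, hx]
  | mul x y _ _ hx hy => rw [map_mul, map_mul, hx, hy]

private theorem ccs_one (D : Dat p N b F) (ℓ : ℕ) (hℓ : ℓ.Prime) (hN : ℓ ∣ N)
    (hN2 : ¬ ℓ ^ 2 ∣ N) (y : F) (s : (ZMod N)ˣ) (t : ZMod p) :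
    ∑ s' ∈ univ.filter (fun s' : (ZMod N)ˣ => (s' : ZMod N).val % (N / ℓ) = (s : ZMod N).val % (N / ℓ)),
      ‖D.e (s', t) y‖ ^ 2 = ℓ * ∑ k ∈ range ℓ, ‖D.e (s, t) (D.cc ℓ y k)‖ ^ 2 := by
  have key : ((∑ s' ∈ univ.filter (fun s' : (ZMod N)ˣ => (s' : ZMod N).val % (N / ℓ) = (s : ZMod N).val % (N / ℓ)),
      ‖D.e (s', t) y‖ ^ 2 : ℝ) : ℂ) =
      ((ℓ * ∑ k ∈ range ℓ, ‖D.e (s, t) (D.cc ℓ y k)‖ ^ 2 : ℝ) : ℂ) := by
    push_cast
    have h1 : ∀ s' ∈ univ.filter (fun s' : (ZMod N)ˣ => (s' : ZMod N).val % (N / ℓ) = (s : ZMod N).val % (N / ℓ)),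
        (‖D.e (s', t) y‖ : ℂ) ^ 2 = ∑ k ∈ range ℓ, (D.e (s', t) y *
          ch (-((s' : ZMod N) * ((k * (N / ℓ) : ℕ) : ZMod N)))) *
            (starRingEnd ℂ) (D.e (s, t) (D.cc ℓ y k)) := by
      intro s' hs'
      have hs := (Finset.mem_filter.1 hs').2
      rw [← Complex.mul_conj']
      have h2 : D.e (s', t) y = ∑ k ∈ range ℓ, ch (((k * (N / ℓ) : ℕ) : ZMod N) * (s' : ZMod N)) *
          D.e (s, t) (D.cc ℓ y k) := by
        conv_lhs => rw [cc_sum D ℓ hℓ hN hN2 y]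
        rw [map_sum]
        refine Finset.sum_congr rfl fun k _ => ?_
        rw [map_mul, D.e_zk, ccs_inv D ℓ hℓ hN s s' hs t (cc_mem D ℓ hℓ hN y k)]
      have h3 : (starRingEnd ℂ) (D.e (s', t) y) = ∑ k ∈ range ℓ,
          ch (-((s' : ZMod N) * ((k * (N / ℓ) : ℕ) : ZMod N))) *
            (starRingEnd ℂ) (D.e (s, t) (D.cc ℓ y k)) := by
        rw [h2, map_sum]
        refine Finset.sum_congr rfl fun k _ => ?_
        rw [map_mul, ← ch_neg, mul_comm (s' : ZMod N)]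
      rw [h3, Finset.mul_sum]
      refine Finset.sum_congr rfl fun k _ => ?_
      rw [mul_assoc]
    rw [Finset.sum_congr rfl h1, Finset.sum_comm, Finset.mul_sum]
    refine Finset.sum_congr rfl fun k _ => ?_
    rw [← Finset.sum_mul, ← e_cc D ℓ hℓ hN hN2 y k s t, mul_assoc, Complex.mul_conj']
  exact_mod_cast key

private theorem ccs_count (ℓ : ℕ) (hℓ : ℓ.Prime) (hN : ℓ ∣ N) (hN2 : ¬ ℓ ^ 2 ∣ N)
    (s' : (ZMod N)ˣ) : ((univ.filter (fun s : (ZMod N)ˣ =>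
      (s' : ZMod N).val % (N / ℓ) = (s : ZMod N).val % (N / ℓ))).card : ℝ) = (ℓ : ℝ) - 1 := by
  classical
  obtain ⟨M, hM⟩ := hN
  have hM0 : M ≠ 0 := by
    rintro rfl
    exact NeZero.ne N (by rw [hM, mul_zero])
  have : NeZero M := ⟨hM0⟩
  have hdiv : N / ℓ = M := by
    rw [hM, Nat.mul_div_cancel_left _ hℓ.pos]
  have hMN : M ∣ N := ⟨ℓ, by rw [hM, mul_comm]⟩
  have hco : Nat.Coprime ℓ M := by
    rw [Nat.Prime.coprime_iff_not_dvd hℓ]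
    rintro ⟨c, rfl⟩
    exact hN2 ⟨c, by rw [hM]; ring⟩
  have hiff : ∀ s : (ZMod N)ˣ, ((s' : ZMod N).val % (N / ℓ) = (s : ZMod N).val % (N / ℓ)) ↔
      ZMod.unitsMap hMN s = ZMod.unitsMap hMN s' := by
    intro s
    have h1 : ∀ u : (ZMod N)ˣ, ((ZMod.unitsMap hMN u : (ZMod M)ˣ) : ZMod M) =
        (((u : ZMod N).val : ℕ) : ZMod M) := by
      intro u
      rw [ZMod.unitsMap_val, ZMod.natCast_val]
    rw [← Units.val_inj, h1, h1, ZMod.natCast_eq_natCast_iff', hdiv]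
    exact eq_comm
  have hfib : ∀ v : (ZMod M)ˣ, (univ.filter fun s : (ZMod N)ˣ => ZMod.unitsMap hMN s = v).card =
      (univ.filter fun s : (ZMod N)ˣ => ZMod.unitsMap hMN s = ZMod.unitsMap hMN s').card := by
    intro v
    obtain ⟨w, hw⟩ := ZMod.unitsMap_surjective hMN v
    exact MonoidHom.card_fiber_eq_of_mem_range (ZMod.unitsMap hMN) ⟨w, hw⟩ ⟨s', rfl⟩
  have hsum : (univ : Finset (ZMod N)ˣ).card = ∑ v : (ZMod M)ˣ,
      (univ.filter fun s : (ZMod N)ˣ => ZMod.unitsMap hMN s = v).card :=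
    Finset.card_eq_sum_card_fiberwise (fun _ _ => Finset.mem_univ _)
  simp_rw [hfib] at hsum
  rw [Finset.sum_const, smul_eq_mul, Finset.card_univ, Finset.card_univ, ZMod.card_units_eq_totient,
    ZMod.card_units_eq_totient] at hsum
  have htot : Nat.totient N = (ℓ - 1) * Nat.totient M := by
    rw [hM, Nat.totient_mul hco, Nat.totient_prime hℓ]
  have hpos : 0 < Nat.totient M := Nat.totient_pos.2 (Nat.pos_of_ne_zero hM0)
  rw [htot, mul_comm] at hsum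
  have h2 := Nat.eq_of_mul_eq_mul_left hpos hsum
  have h3 : (univ.filter (fun s : (ZMod N)ˣ =>
      (s' : ZMod N).val % (N / ℓ) = (s : ZMod N).val % (N / ℓ))) =
      (univ.filter fun s : (ZMod N)ˣ => ZMod.unitsMap hMN s = ZMod.unitsMap hMN s') := by
    ext s
    rw [Finset.mem_filter, Finset.mem_filter, hiff]
  rw [h3, ← h2, Nat.cast_sub hℓ.one_le, Nat.cast_one]

theorem sum_cc (D : Dat p N b F) (ℓ : ℕ) (hℓ : ℓ.Prime) (hN : ℓ ∣ N) (hN2 : ¬ ℓ ^ 2 ∣ N) (y : F) :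
    2 * ((ℓ : ℝ) - 1) * ∑ st : (ZMod N)ˣ × ZMod p, ‖D.e st y‖ ^ 2 =
      ∑ k ∈ range ℓ, ∑ k' ∈ range ℓ, ∑ st : (ZMod N)ˣ × ZMod p, ‖D.e st (D.cc ℓ y k - D.cc ℓ y k')‖ ^ 2 := by
  have h1 : ∀ (s : (ZMod N)ˣ) (t : ZMod p), ∑ k ∈ range ℓ, ∑ k' ∈ range ℓ,
      ‖D.e (s, t) (D.cc ℓ y k - D.cc ℓ y k')‖ ^ 2 = 2 * ∑ s' ∈ univ.filter (fun s' : (ZMod N)ˣ =>
        (s' : ZMod N).val % (N / ℓ) = (s : ZMod N).val % (N / ℓ)), ‖D.e (s', t) y‖ ^ 2 := by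
    intro s t
    have h0 : ∑ k ∈ range ℓ, D.e (s, t) (D.cc ℓ y k) = 0 := by
      rw [← map_sum, cc_zero D ℓ hℓ hN hN2 y, map_zero]
    have h2 := ccs_pair ℓ (fun k => D.e (s, t) (D.cc ℓ y k)) h0
    rw [ccs_one D ℓ hℓ hN hN2 y s t, ← mul_assoc, ← h2]
    simp only [map_sub]
  have h3 : ∑ k ∈ range ℓ, ∑ k' ∈ range ℓ, ∑ st : (ZMod N)ˣ × ZMod p,
      ‖D.e st (D.cc ℓ y k - D.cc ℓ y k')‖ ^ 2 = ∑ st : (ZMod N)ˣ × ZMod p, ∑ k ∈ range ℓ,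
        ∑ k' ∈ range ℓ, ‖D.e st (D.cc ℓ y k - D.cc ℓ y k')‖ ^ 2 := by
    rw [Finset.sum_congr rfl fun k _ => Finset.sum_comm, Finset.sum_comm]
  rw [h3, Fintype.sum_prod_type, Fintype.sum_prod_type]
  simp only [h1]
  simp only [← Finset.mul_sum]
  rw [mul_assoc]
  congr 1
  rw [Finset.mul_sum]
  have h4 : ∀ s : (ZMod N)ˣ, ∑ t : ZMod p, ∑ s' ∈ univ.filter (fun s' : (ZMod N)ˣ =>
      (s' : ZMod N).val % (N / ℓ) = (s : ZMod N).val % (N / ℓ)), ‖D.e (s', t) y‖ ^ 2 =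
      ∑ s' : (ZMod N)ˣ, if (s' : ZMod N).val % (N / ℓ) = (s : ZMod N).val % (N / ℓ) then
        ∑ t : ZMod p, ‖D.e (s', t) y‖ ^ 2 else 0 := by
    intro s
    rw [Finset.sum_comm, Finset.sum_filter]
  simp only [h4]
  rw [Finset.sum_comm]
  refine Finset.sum_congr rfl fun s' _ => ?_
  rw [← Finset.sum_filter, Finset.sum_const, nsmul_eq_mul, ccs_count ℓ hℓ hN hN2 s']

end Pool.Agent.H61.WN
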