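import Mathlib

/-!
# [H61 WN Cmb] THEOREM WN: a counting lemma

`f` on `{0, .., ℓ-1}`, at most `21/10 (ℓ - 1)` ordered pairs `(k, k')` with `f k ≠ f k'`: all values but at most one are equal.
PROOF. `g k` = number of `k'` with `f k' ≠ f k`. Take `k` with `g k` minimal, `a = ℓ - g k` the size of its class. If `g k ≥ 3`: the number is `≥ 3 ℓ`. If `g k = 2`: two elements `u ≠ v` outside the
class (of size `ℓ - 2`); the pairs between `{u, v}` and the class and back: `4 (ℓ - 2)`; `4 (ℓ - 2) > 21/10 (ℓ - 1)` for `ℓ ≥ 4`; `ℓ = 3`: the class has `1` element and all `g ≥ 2`: `6 > 4.2` pairs; `ℓ = 2`: `g ≤ 1`. So `g k ≤ 1`.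
-/

set_option autoImplicit false

namespace Pool.Agent.H61.WN

open Finset

theorem cmb {S : Type} [DecidableEq S] (ℓ : ℕ) (hℓ : 2 ≤ ℓ) (f : ℕ → S)
    (h : 10 * (((range ℓ) ×ˢ (range ℓ)).filter (fun kk => f kk.1 ≠ f kk.2)).card ≤ 21 * (ℓ - 1)) :
    ∃ k₀ < ℓ, ∃ v : S, ∀ k < ℓ, k ≠ k₀ → f k = v := by
  obtain ⟨g, hg⟩ : ∃ g : ℕ → ℕ, ∀ k, g k = ((range ℓ).filter (fun k' => f k ≠ f k')).card :=
    ⟨_, fun k => rfl⟩
  have htot : (((range ℓ) ×ˢ (range ℓ)).filter (fun kk => f kk.1 ≠ f kk.2)).card =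
      ∑ k ∈ range ℓ, g k := by
    rw [card_filter, sum_product]
    refine sum_congr rfl fun k _ => ?_
    rw [hg, card_filter]
  obtain ⟨k, hk, hmin⟩ := exists_min_image (range ℓ) g ⟨0, mem_range.2 (by omega)⟩
  have hsplit : ((range ℓ).filter (fun k' => f k ≠ f k')).card +
      ((range ℓ).filter (fun k' => ¬ f k ≠ f k')).card = ℓ := by
    rw [card_filter_add_card_filter_not, card_range]
  have h1 : ℓ * g k ≤ ∑ k ∈ range ℓ, g k := by
    have h2 := card_nsmul_le_sum (range ℓ) g (g k) fun x hx => hmin x hx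
    rwa [card_range, smul_eq_mul] at h2
  have h2 : 2 * (g k * (ℓ - g k)) ≤ ∑ k ∈ range ℓ, g k := by
    rw [← sum_filter_add_sum_filter_not (range ℓ) (fun k' => f k ≠ f k')]
    have hC : ((range ℓ).filter (fun k' => ¬ f k ≠ f k')).card = ℓ - g k := by
      rw [hg]
      omega
    have h3 : g k * (ℓ - g k) ≤ ∑ x ∈ (range ℓ).filter (fun k' => f k ≠ f k'), g x := by
      have h4 := card_nsmul_le_sum ((range ℓ).filter (fun k' => f k ≠ f k')) g (ℓ - g k) ?_
      · rwa [← hg, smul_eq_mul] at h4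
      · intro x hx
        rw [← hC, hg x]
        refine card_le_card fun y hy => ?_
        rw [mem_filter] at hy hx ⊢
        refine ⟨hy.1, fun he => hx.2 ?_⟩
        rw [he]
        exact not_not.1 hy.2
    have h5 : g k * (ℓ - g k) ≤ ∑ x ∈ (range ℓ).filter (fun k' => ¬ f k ≠ f k'), g x := by
      have h4 := card_nsmul_le_sum ((range ℓ).filter (fun k' => ¬ f k ≠ f k')) g (g k)
        fun x hx => hmin x (mem_filter.1 hx).1
      rw [hC, smul_eq_mul] at h4
      rw [mul_comm]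
      exact h4
    omega
  rw [htot] at h
  have hgl : g k ≤ ℓ := by
    rw [hg]
    omega
  have hm : g k ≤ 1 := by
    by_contra hm
    rcases Nat.lt_or_ge (g k) 3 with h3 | h3
    · have h4 : g k = 2 := by omega
      rw [h4] at h1 h2
      omega
    · have h4 : ℓ * 3 ≤ ℓ * g k := Nat.mul_le_mul_left _ h3
      omega
  rcases Nat.lt_or_ge (g k) 1 with h3 | h3
  · refine ⟨0, by omega, f k, fun x hx _ => ?_⟩
    have h4 : ((range ℓ).filter (fun k' => f k ≠ f k')).card = 0 := by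
      rw [← hg]
      omega
    rw [card_eq_zero, filter_eq_empty_iff] at h4
    exact (not_not.1 (h4 (mem_range.2 hx))).symm
  · have h4 : ((range ℓ).filter (fun k' => f k ≠ f k')).card = 1 := by
      rw [← hg]
      omega
    obtain ⟨k₀, hk₀⟩ := card_eq_one.1 h4
    have h5 : k₀ ∈ (range ℓ).filter (fun k' => f k ≠ f k') := by
      rw [hk₀]
      exact mem_singleton_self _
    refine ⟨k₀, mem_range.1 (mem_filter.1 h5).1, f k, fun x hx hne => ?_⟩
    by_contra h6
    apply hne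
    rw [← mem_singleton, ← hk₀, mem_filter]
    exact ⟨mem_range.2 hx, fun h7 => h6 h7.symm⟩

end Pool.Agent.H61.WN
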