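import Pool.Agent.H61.WN.Rep
import Pool.Agent.H61.WN.Pib

/-!
# [H61 WN Cmp] THEOREM WN: the parts of an element with exponents `l ≡ k` mod `ℓ`, the case `ℓ^2 ∣ N`

`cmp ℓ y k` = the part of `y = (1/p) ∑ arr y l j z^l x^j` with `l ≡ k` mod `ℓ`.
`e_cmp`: (`ℓ^2 ∣ N`) the numbers `s (1 + u N/ℓ)`, `u < ℓ`, are units of `ZMod N` with `ch(s (1 + u N/ℓ) l) = ch(s l) ch_ℓ(s u l)` (`ch_level`), so
`(1/ℓ) ∑_u ch_ℓ(-(s u k)) e(s (1 + u N/ℓ), t)(y) = e(s,t)(cmp ℓ y k)`: both sides are `ℚ`-linear in `y`, check for `y = z^l x^j` (or insert the inversion formula).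
`cmp_int`: `ℓ cmp ℓ y k` is integral (`e_cmp`), `p b cmp ℓ y k` is integral (`rep`: `p b y = ∑_j ∑_l c_j(l) z^l x^j` with integers `c_j(l)`, and `cmp` is linear with
`cmp ℓ (z^l x^j) k = z^l x^j` or `0`, from `e_cmp`), and `u ℓ + v p b = 1`.
-/

set_option autoImplicit false

namespace Pool.Agent.H61.WN

open Finset

variable {p N b : ℕ} [Fact p.Prime] [NeZero N] {F : Type} [Field F] [NumberField F]

/-- the part of `y` with exponents `≡ k` mod `ℓ` -/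
noncomputable def Dat.cmp (D : Dat p N b F) (ℓ : ℕ) (y : F) (k : ℕ) : F :=
  (∑ l : ZMod N, if l.val % ℓ = k then ∑ j : ZMod p, ((D.arr y l j : ℚ) : F) * D.z ^ l.val * D.x ^ j.val else 0) / (p : F)

private theorem inv_mono (D : Dat p N b F) (y : F) :
    y = (∑ l : ZMod N, ∑ j : ZMod p, ((D.arr y l j : ℚ) : F) * D.z ^ l.val * D.x ^ j.val) / (p : F) := by
  conv_lhs => rw [inversion D y]
  rw [Finset.sum_comm, Finset.sum_div]
  refine Finset.sum_congr rfl fun j _ => ?_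
  rw [Dat.row, div_mul_eq_mul_div, Finset.sum_mul]

theorem cmp_sum (D : Dat p N b F) (ℓ : ℕ) (hℓ : 0 < ℓ) (y : F) : y = ∑ k ∈ range ℓ, D.cmp ℓ y k := by
  have h1 : ∑ k ∈ range ℓ, D.cmp ℓ y k =
      (∑ k ∈ range ℓ, ∑ l : ZMod N, if l.val % ℓ = k then
        ∑ j : ZMod p, ((D.arr y l j : ℚ) : F) * D.z ^ l.val * D.x ^ j.val else 0) / (p : F) := by
    rw [Finset.sum_div]
    rfl
  have h2 : (∑ k ∈ range ℓ, ∑ l : ZMod N, if l.val % ℓ = k then
        ∑ j : ZMod p, ((D.arr y l j : ℚ) : F) * D.z ^ l.val * D.x ^ j.val else 0) =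
      ∑ l : ZMod N, ∑ j : ZMod p, ((D.arr y l j : ℚ) : F) * D.z ^ l.val * D.x ^ j.val := by
    rw [Finset.sum_comm]
    refine Finset.sum_congr rfl fun l _ => ?_
    rw [Finset.sum_ite_eq, if_pos (Finset.mem_range.2 (Nat.mod_lt _ hℓ))]
  rw [h1, h2]
  exact inv_mono D y

theorem cmp_mem (D : Dat p N b F) (ℓ : ℕ) (hℓ : 0 < ℓ) (y : F) (k : ℕ) (hk : k < ℓ) :
    ∃ w ∈ IntermediateField.adjoin ℚ ({D.z ^ ℓ, D.x} : Set F), D.cmp ℓ y k = D.z ^ k * w := by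
  have hz : D.z ^ ℓ ∈ IntermediateField.adjoin ℚ ({D.z ^ ℓ, D.x} : Set F) :=
    IntermediateField.subset_adjoin _ _ (by simp)
  have hx : D.x ∈ IntermediateField.adjoin ℚ ({D.z ^ ℓ, D.x} : Set F) :=
    IntermediateField.subset_adjoin _ _ (by simp)
  refine ⟨(∑ l : ZMod N, if l.val % ℓ = k then
      ∑ j : ZMod p, ((D.arr y l j : ℚ) : F) * (D.z ^ ℓ) ^ (l.val / ℓ) * D.x ^ j.val else 0) / (p : F), ?_, ?_⟩
  · refine div_mem (sum_mem fun l _ => ?_) (natCast_mem _ _)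
    split_ifs
    · refine sum_mem fun j _ => mul_mem (mul_mem ?_ (pow_mem hz _)) (pow_mem hx _)
      have := (IntermediateField.adjoin ℚ ({D.z ^ ℓ, D.x} : Set F)).algebraMap_mem (D.arr y l j)
      simpa using this
    · exact zero_mem _
  · rw [Dat.cmp, ← mul_div_assoc, Finset.mul_sum]
    congr 1
    refine Finset.sum_congr rfl fun l _ => ?_
    split_ifs with h
    · rw [Finset.mul_sum]
      refine Finset.sum_congr rfl fun j _ => ?_
      have e1 : D.z ^ l.val = D.z ^ k * (D.z ^ ℓ) ^ (l.val / ℓ) := by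
        rw [← pow_mul, ← pow_add, ← h, Nat.mod_add_div]
      rw [e1]
      ring
    · simp

/-- `s (1 + u N/ℓ)` is a unit -/
theorem unit_sq (ℓ : ℕ) (hℓ : ℓ.Prime) (hN : ℓ ^ 2 ∣ N) (s : (ZMod N)ˣ) (u : ℕ) :
    ∃ s' : (ZMod N)ˣ, (s' : ZMod N) = (s : ZMod N) * (1 + ((u * (N / ℓ) : ℕ) : ZMod N)) := by
  have h0 : ((u * (N / ℓ) : ℕ) : ZMod N) * ((u * (N / ℓ) : ℕ) : ZMod N) = 0 := by
    rw [← Nat.cast_mul, ZMod.natCast_eq_zero_iff]
    obtain ⟨c, hc⟩ := hN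
    have h1 : N / ℓ = ℓ * c := by
      conv_lhs => rw [hc]
      rw [pow_two, mul_assoc, Nat.mul_div_cancel_left _ hℓ.pos]
    rw [h1]
    refine ⟨u * u * c, ?_⟩
    conv_rhs => rw [hc]
    ring
  have h1 : (1 + ((u * (N / ℓ) : ℕ) : ZMod N)) * (1 - ((u * (N / ℓ) : ℕ) : ZMod N)) = 1 := by
    linear_combination -h0
  have h2 : (1 - ((u * (N / ℓ) : ℕ) : ZMod N)) * (1 + ((u * (N / ℓ) : ℕ) : ZMod N)) = 1 := by
    linear_combination -h0
  exact ⟨s * ⟨1 + ((u * (N / ℓ) : ℕ) : ZMod N), 1 - ((u * (N / ℓ) : ℕ) : ZMod N), h1, h2⟩, by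
    rw [Units.val_mul]⟩

private theorem sum_range_zmod (ℓ : ℕ) [NeZero ℓ] (f : ZMod ℓ → ℂ) :
    ∑ u ∈ range ℓ, f (u : ZMod ℓ) = ∑ a : ZMod ℓ, f a := by
  refine Finset.sum_bij' (fun u _ => (u : ZMod ℓ)) (fun a _ => a.val) (fun _ _ => Finset.mem_univ _)
    (fun a _ => Finset.mem_range.2 (ZMod.val_lt a)) (fun u hu => ?_) (fun a _ => ?_) (fun _ _ => rfl)
  · exact ZMod.val_cast_of_lt (Finset.mem_range.1 hu)
  · exact ZMod.natCast_zmod_val a

private theorem T_mono (D : Dat p N b F) (ℓ : ℕ) [NeZero ℓ] (hℓ : ℓ.Prime) (hN : ℓ ^ 2 ∣ N) (k : ℕ) (hk : k < ℓ) (t : ZMod p)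
    (S : (ZMod N)ˣ → ℕ → (ZMod N)ˣ) (hS : ∀ s u, (S s u : ZMod N) = (s : ZMod N) * (1 + ((u * (N / ℓ) : ℕ) : ZMod N)))
    (s : (ZMod N)ˣ) (l : ZMod N) (j : ZMod p) :
    ∑ u ∈ range ℓ, D.e (S s u, t) (D.z ^ l.val * D.x ^ j.val) * ch (-(((s : ZMod N).val * u * k : ℕ) : ZMod ℓ)) =
      if l.val % ℓ = k then (ℓ : ℂ) * D.e (s, t) (D.z ^ l.val * D.x ^ j.val) else 0 := by
  have hlN : ℓ ∣ N := dvd_trans (dvd_pow_self ℓ two_ne_zero) hN
  have h1 : ∀ u ∈ range ℓ, D.e (S s u, t) (D.z ^ l.val * D.x ^ j.val) * ch (-(((s : ZMod N).val * u * k : ℕ) : ZMod ℓ)) =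
      D.e (s, t) (D.z ^ l.val * D.x ^ j.val) *
        ch ((u : ZMod ℓ) * (((s : ZMod N).val : ZMod ℓ) * (((l.val : ℕ) : ZMod ℓ) - (k : ZMod ℓ)))) := by
    intro u _
    have e1 : D.e (S s u, t) (D.z ^ l.val) =
        D.e (s, t) (D.z ^ l.val) * ch (((l.val * (s : ZMod N).val * u : ℕ) : ZMod ℓ)) := by
      rw [D.e_zl, D.e_zl, hS]
      have e2 : l * ((s : ZMod N) * (1 + ((u * (N / ℓ) : ℕ) : ZMod N))) =
          l * (s : ZMod N) + ((((N / ℓ : ℕ) : ℤ) * ((l.val * (s : ZMod N).val * u : ℕ) : ℤ) : ℤ) : ZMod N) := by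
        rw [Int.cast_mul, Int.cast_natCast, Int.cast_natCast, Nat.cast_mul, Nat.cast_mul, Nat.cast_mul,
          ZMod.natCast_zmod_val, ZMod.natCast_zmod_val]
        ring
      rw [e2, ch_add, ch_level ℓ hlN, Int.cast_natCast]
    have e3 : D.e (S s u, t) (D.x ^ j.val) = D.e (s, t) (D.x ^ j.val) := by
      rw [map_pow, map_pow, D.ex, D.ex]
    rw [map_mul, map_mul, e1, e3]
    have e4 : (u : ZMod ℓ) * (((s : ZMod N).val : ZMod ℓ) * (((l.val : ℕ) : ZMod ℓ) - (k : ZMod ℓ))) =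
        ((l.val * (s : ZMod N).val * u : ℕ) : ZMod ℓ) + (-(((s : ZMod N).val * u * k : ℕ) : ZMod ℓ)) := by
      push_cast
      ring
    rw [e4, ch_add]
    ring
  rw [Finset.sum_congr rfl h1, ← Finset.mul_sum,
    sum_range_zmod ℓ (fun a => ch (a * (((s : ZMod N).val : ZMod ℓ) * (((l.val : ℕ) : ZMod ℓ) - (k : ZMod ℓ))))),
    sum_ch_mul]
  have hs : ((s : ZMod N).val : ZMod ℓ) ≠ 0 := by
    intro h
    rw [ZMod.natCast_eq_zero_iff] at h
    have h2 := ZMod.val_coe_unit_coprime s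
    have h3 : ℓ ∣ Nat.gcd (s : ZMod N).val N := Nat.dvd_gcd h hlN
    rw [h2] at h3
    exact hℓ.one_lt.ne' (Nat.dvd_one.1 h3)
  have : Fact ℓ.Prime := ⟨hℓ⟩
  have h5 : (((s : ZMod N).val : ZMod ℓ) * (((l.val : ℕ) : ZMod ℓ) - (k : ZMod ℓ)) = 0) ↔ l.val % ℓ = k := by
    rw [mul_eq_zero, or_iff_right hs, sub_eq_zero, ZMod.natCast_eq_natCast_iff', Nat.mod_eq_of_lt hk]
  by_cases h : l.val % ℓ = k
  · rw [if_pos (h5.2 h), if_pos h]
    ring
  · rw [if_neg (fun h' => h (h5.1 h')), if_neg h, mul_zero]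

theorem e_cmp (D : Dat p N b F) (ℓ : ℕ) [NeZero ℓ] (hℓ : ℓ.Prime) (hN : ℓ ^ 2 ∣ N) (y : F) (k : ℕ) (hk : k < ℓ) (t : ZMod p)
    (S : (ZMod N)ˣ → ℕ → (ZMod N)ˣ) (hS : ∀ s u, (S s u : ZMod N) = (s : ZMod N) * (1 + ((u * (N / ℓ) : ℕ) : ZMod N)))
    (s : (ZMod N)ˣ) :
    (ℓ : ℂ) * D.e (s, t) (D.cmp ℓ y k) =
      ∑ u ∈ range ℓ, D.e (S s u, t) y * ch (-(((s : ZMod N).val * u * k : ℕ) : ZMod ℓ)) := by
  have hp : (p : ℂ) ≠ 0 := by exact_mod_cast (Fact.out : p.Prime).ne_zero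
  have h1 : ∀ u ∈ range ℓ, D.e (S s u, t) y * ch (-(((s : ZMod N).val * u * k : ℕ) : ZMod ℓ)) =
      ∑ l : ZMod N, ∑ j : ZMod p, ((D.arr y l j : ℚ) : ℂ) / p *
        (D.e (S s u, t) (D.z ^ l.val * D.x ^ j.val) * ch (-(((s : ZMod N).val * u * k : ℕ) : ZMod ℓ))) := by
    intro u _
    conv_lhs => rw [inv_mono D y]
    rw [map_div₀, map_sum, map_natCast, Finset.sum_div, Finset.sum_mul]
    refine Finset.sum_congr rfl fun l _ => ?_
    rw [map_sum, Finset.sum_div, Finset.sum_mul]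
    refine Finset.sum_congr rfl fun j _ => ?_
    rw [mul_assoc, map_mul, map_ratCast]
    ring
  rw [Finset.sum_congr rfl h1, Finset.sum_comm, Dat.cmp, map_div₀, map_sum, map_natCast, ← mul_div_assoc, Finset.mul_sum,
    Finset.sum_div]
  refine Finset.sum_congr rfl fun l _ => ?_
  rw [Finset.sum_comm]
  have h2 : ∀ j ∈ (Finset.univ : Finset (ZMod p)), ∑ u ∈ range ℓ, ((D.arr y l j : ℚ) : ℂ) / p *
        (D.e (S s u, t) (D.z ^ l.val * D.x ^ j.val) * ch (-(((s : ZMod N).val * u * k : ℕ) : ZMod ℓ))) =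
      ((D.arr y l j : ℚ) : ℂ) / p * (if l.val % ℓ = k then (ℓ : ℂ) * D.e (s, t) (D.z ^ l.val * D.x ^ j.val) else 0) := by
    intro j _
    rw [← Finset.mul_sum, T_mono D ℓ hℓ hN k hk t S hS s l j]
  rw [Finset.sum_congr rfl h2]
  split_ifs with h
  · rw [map_sum, Finset.mul_sum, Finset.sum_div]
    refine Finset.sum_congr rfl fun j _ => ?_
    rw [mul_assoc ((D.arr y l j : ℚ) : F), map_mul (D.e (s, t)) ((D.arr y l j : ℚ) : F), map_ratCast]
    ring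
  · simp

private theorem ch_integral {n : ℕ} [NeZero n] (a : ZMod n) : IsIntegral ℤ (ch a) := by
  refine IsIntegral.of_pow (Nat.pos_of_ne_zero (NeZero.ne n)) ?_
  rw [ch_pow]
  simp [ch_zero, isIntegral_one]

theorem cmp_int (D : Dat p N b F) (ℓ : ℕ) (hℓ : ℓ.Prime) (hN : ℓ ^ 2 ∣ N) (hℓb : ¬ ℓ ∣ p * b) (y : F) (hy : IsIntegral ℤ y)
    (k : ℕ) (hk : k < ℓ) : IsIntegral ℤ (D.cmp ℓ y k) := by
  have : NeZero ℓ := ⟨hℓ.ne_zero⟩
  choose S hS using fun (s : (ZMod N)ˣ) (u : ℕ) => unit_sq ℓ hℓ hN s u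
  have hℓC : (ℓ : ℂ) ≠ 0 := by exact_mod_cast hℓ.ne_zero
  have hp : (p : F) ≠ 0 := by exact_mod_cast (Fact.out : p.Prime).ne_zero
  -- `ℓ cmp` is integral
  have h1 : IsIntegral ℤ ((ℓ : F) * D.cmp ℓ y k) := by
    rw [← D.int_iff (1, 0), map_mul, map_natCast, e_cmp D ℓ hℓ hN y k hk 0 S hS 1]
    exact IsIntegral.sum _ fun u _ => ((D.int_iff _ y).2 hy).mul (ch_integral _)
  -- `p b cmp` is integral
  choose c hc using fun j : ZMod p => rep D y hy j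
  have hy2 : (p : F) * (b : F) * y = ∑ l : ZMod N, ∑ j : ZMod p, (c j l : F) * (D.z ^ l.val * D.x ^ j.val) := by
    conv_lhs => rw [inversion D y]
    rw [Finset.mul_sum, Finset.sum_comm]
    refine Finset.sum_congr rfl fun j _ => ?_
    rw [← mul_assoc, hc, Finset.sum_mul]
    refine Finset.sum_congr rfl fun l _ => ?_
    ring
  have h3 : (p : F) * (b : F) * D.cmp ℓ y k =
      ∑ l : ZMod N, if l.val % ℓ = k then ∑ j : ZMod p, (c j l : F) * (D.z ^ l.val * D.x ^ j.val) else 0 := by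
    apply (D.e (1, 0)).injective
    apply mul_left_cancel₀ hℓC
    have e1 : (ℓ : ℂ) * D.e (1, 0) ((p : F) * (b : F) * D.cmp ℓ y k) =
        ∑ u ∈ range ℓ, D.e (S 1 u, 0) ((p : F) * (b : F) * y) *
          ch (-((((1 : (ZMod N)ˣ) : ZMod N).val * u * k : ℕ) : ZMod ℓ)) := by
      rw [map_mul (D.e (1, 0)) ((p : F) * (b : F)), mul_left_comm, e_cmp D ℓ hℓ hN y k hk 0 S hS 1, Finset.mul_sum]
      refine Finset.sum_congr rfl fun u _ => ?_
      rw [map_mul (D.e (S 1 u, 0)) ((p : F) * (b : F))]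
      simp only [map_mul, map_natCast]
      ring
    rw [e1, hy2]
    have e2 : ∀ u ∈ range ℓ, D.e (S 1 u, 0) (∑ l : ZMod N, ∑ j : ZMod p, (c j l : F) * (D.z ^ l.val * D.x ^ j.val)) *
          ch (-((((1 : (ZMod N)ˣ) : ZMod N).val * u * k : ℕ) : ZMod ℓ)) =
        ∑ l : ZMod N, ∑ j : ZMod p, (c j l : ℂ) * (D.e (S 1 u, 0) (D.z ^ l.val * D.x ^ j.val) *
          ch (-((((1 : (ZMod N)ˣ) : ZMod N).val * u * k : ℕ) : ZMod ℓ))) := by
      intro u _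
      rw [map_sum, Finset.sum_mul]
      refine Finset.sum_congr rfl fun l _ => ?_
      rw [map_sum, Finset.sum_mul]
      refine Finset.sum_congr rfl fun j _ => ?_
      rw [map_mul (D.e (S 1 u, 0)) (c j l : F), map_intCast]
      ring
    rw [Finset.sum_congr rfl e2, Finset.sum_comm, map_sum, Finset.mul_sum]
    refine Finset.sum_congr rfl fun l _ => ?_
    rw [Finset.sum_comm]
    have e3 : ∀ j ∈ (Finset.univ : Finset (ZMod p)), ∑ u ∈ range ℓ, (c j l : ℂ) *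
          (D.e (S 1 u, 0) (D.z ^ l.val * D.x ^ j.val) *
            ch (-((((1 : (ZMod N)ˣ) : ZMod N).val * u * k : ℕ) : ZMod ℓ))) =
        (c j l : ℂ) * (if l.val % ℓ = k then (ℓ : ℂ) * D.e (1, 0) (D.z ^ l.val * D.x ^ j.val) else 0) := by
      intro j _
      rw [← Finset.mul_sum, T_mono D ℓ hℓ hN k hk 0 S hS 1 l j]
    rw [Finset.sum_congr rfl e3]
    split_ifs with h
    · rw [map_sum, Finset.mul_sum]
      refine Finset.sum_congr rfl fun j _ => ?_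
      rw [map_mul (D.e (1, 0)) (c j l : F), map_intCast]
      ring
    · simp
  have h4 : IsIntegral ℤ ((p : F) * (b : F) * D.cmp ℓ y k) := by
    rw [h3]
    refine IsIntegral.sum _ fun l _ => ?_
    split_ifs
    · refine IsIntegral.sum _ fun j _ => ?_
      refine IsIntegral.mul ?_ ((D.z_int.pow _).mul (D.x_int.pow _))
      simpa using isIntegral_algebraMap (R := ℤ) (A := F) (x := c j l)
    · exact isIntegral_zero
  -- Bezout
  have h5 : IsCoprime (ℓ : ℤ) ((p * b : ℕ) : ℤ) := by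
    rw [Nat.isCoprime_iff_coprime]
    exact (Nat.Prime.coprime_iff_not_dvd hℓ).2 hℓb
  obtain ⟨u, v, huv⟩ := h5
  have h6 : D.cmp ℓ y k = (u : F) * ((ℓ : F) * D.cmp ℓ y k) + (v : F) * ((p : F) * (b : F) * D.cmp ℓ y k) := by
    have h7 : (u : F) * (ℓ : F) + (v : F) * ((p : F) * (b : F)) = 1 := by
      have := congrArg (fun n : ℤ => (n : F)) huv
      push_cast at this
      exact this
    calc D.cmp ℓ y k = 1 * D.cmp ℓ y k := (one_mul _).symm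
      _ = ((u : F) * (ℓ : F) + (v : F) * ((p : F) * (b : F))) * D.cmp ℓ y k := by rw [h7]
      _ = _ := by ring
  rw [h6]
  have hu : IsIntegral ℤ (u : F) := by
    simpa using isIntegral_algebraMap (R := ℤ) (A := F) (x := u)
  have hv : IsIntegral ℤ (v : F) := by
    simpa using isIntegral_algebraMap (R := ℤ) (A := F) (x := v)
  exact (hu.mul h1).add (hv.mul h4)

end Pool.Agent.H61.WN
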