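import Pool.Agent.H61.WN.Tpi
import Pool.Agent.H61.WN.Pib

/-!
# [H61 WN Cod] THEOREM WN: the mixed differences of order `≥ p`

The sum is `(b/N) Tr(π_1 a z^(-l₀) (w - 1)^k (w' - 1)^l)`, `w = z^(-N/p)` (`w - 1 = -π_p`), `w' = b/x = x^(p-1)` (binomial theorem; `b^t x^(-t) = w'^t`,
`z^(-(l₀ + s N/p)) = z^(-l₀) w^s`; see `mixed`, `mon_nat` in `Pool/Agent/H84/WI/Co.lean`). `g := a (w-1)^k (w'-1)^l / p` is integral:
`g^(p(p-1)) p^(p(p-1)) = a^(..) (π_p^(p-1))^(pk) ((w'-1)^p)^((p-1) l) = a^(..) p^(pk + (p-1)l) v^(..) v'^(..)` (`pip_pow`, `xi_pow`) and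
`pk + (p-1) l ≥ p (p-1)` as `k + l ≥ p` (`(p-1)(k+l) + k`). So the sum is `p * (b arr (π_1 g) l₀ 0)`, an integral multiple of `p` by `arr_int`
(`mon l₀ 0 = z^(-l₀)`).
-/

set_option autoImplicit false

namespace Pool.Agent.H61.WN

open Finset

variable {p N b : ℕ} [Fact p.Prime] [NeZero N] {F : Type} [Field F] [NumberField F]

private theorem z_val_add (D : Dat p N b F) (a c : ZMod N) :
    D.z ^ (a + c).val = D.z ^ a.val * D.z ^ c.val := by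
  have h : ∀ m : ℕ, D.z ^ (m % N) = D.z ^ m := fun m => by
    conv_rhs => rw [← Nat.div_add_mod m N, pow_add, pow_mul, D.hz, one_pow, one_mul]
  rw [← pow_add, ZMod.val_add]
  exact h _

private theorem z_neg_nat (D : Dat p N b F) (s : ℕ) : D.z ^ (-(s : ZMod N)).val = D.z⁻¹ ^ s := by
  have h1 : D.z ^ (-(s : ZMod N)).val * D.z ^ s = 1 := by
    rw [← pow_add]
    have h2 : N ∣ (-(s : ZMod N)).val + s := by
      rw [← ZMod.natCast_eq_zero_iff]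
      push_cast
      rw [ZMod.natCast_zmod_val]
      ring
    obtain ⟨c, hc⟩ := h2
    rw [hc, pow_mul, D.hz, one_pow]
  rw [inv_pow]
  exact eq_inv_of_mul_eq_one_left h1

private theorem mon_cod (D : Dat p N b F) (hb : b ≠ 0) (l₀ : ZMod N) (s t : ℕ) (ht : t < p) :
    (b : F) ^ t * D.mon (l₀ + ((s * (N / p) : ℕ) : ZMod N)) (t : ZMod p) =
      D.z ^ (-l₀).val * ((D.z⁻¹ ^ (N / p)) ^ s * (D.x ^ (p - 1)) ^ t) := by
  have hp : p.Prime := Fact.out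
  have hx0 : D.x ≠ 0 := D.x_ne_zero hb
  have e1 : -(l₀ + ((s * (N / p) : ℕ) : ZMod N)) = -l₀ + -(((s * (N / p) : ℕ)) : ZMod N) := by ring
  rw [Dat.mon, e1, z_val_add, z_neg_nat, ZMod.val_natCast_of_lt ht, ← D.hx]
  have h1 : D.x ^ p = D.x ^ (p - 1) * D.x := by
    rw [← pow_succ, Nat.sub_add_cancel hp.one_le]
  have h2 : D.z⁻¹ ^ (s * (N / p)) = (D.z⁻¹ ^ (N / p)) ^ s := by
    rw [mul_comm, pow_mul]
  rw [h1, mul_pow, h2]
  have hx1 : D.x ^ t ≠ 0 := pow_ne_zero _ hx0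
  calc (D.x ^ (p - 1)) ^ t * D.x ^ t * (D.z ^ (-l₀).val * (D.z⁻¹ ^ (N / p)) ^ s * (D.x ^ t)⁻¹) =
        D.z ^ (-l₀).val * ((D.z⁻¹ ^ (N / p)) ^ s * (D.x ^ (p - 1)) ^ t) * (D.x ^ t * (D.x ^ t)⁻¹) := by
          ring
    _ = _ := by rw [mul_inv_cancel₀ hx1, mul_one]

theorem code (D : Dat p N b F) (hb : b ≠ 0) (hpb : ¬ p ∣ b) (a : F) (ha : IsIntegral ℤ a)
    (n : ZMod N → ZMod p → ℤ) (hn : ∀ l j, (b : ℚ) * D.arr (D.piN 1 * a) l j = (n l j : ℚ)) (l₀ : ZMod N)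
    (k l : ℕ) (hk : k < p) (hl : l < p) (hkl : p ≤ k + l) :
    (p : ℤ) ∣ ∑ s ∈ range (k + 1), ∑ t ∈ range (l + 1),
      (-1) ^ ((k - s) + (l - t)) * (k.choose s : ℤ) * (l.choose t : ℤ) *
        ((b : ℤ) ^ t * n (l₀ + ((s * (N / p) : ℕ) : ZMod N)) (t : ZMod p)) := by
  have hp : p.Prime := Fact.out
  have hpF : (p : F) ≠ 0 := by exact_mod_cast hp.ne_zero
  have hNQ : (N : ℚ) ≠ 0 := by exact_mod_cast NeZero.ne N
  obtain ⟨v, hv, -, -, hpi⟩ := pip_pow D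
  obtain ⟨v', hv', hxi⟩ := xi_pow D hpb
  obtain ⟨w, hw⟩ : ∃ w : F, w = D.z⁻¹ ^ (N / p) := ⟨_, rfl⟩
  obtain ⟨w', hw'⟩ : ∃ w' : F, w' = D.x ^ (p - 1) := ⟨_, rfl⟩
  have hwp : (w - 1) ^ (p - 1) = (p : F) * ((-1) ^ (p - 1) * v) := by
    have h1 : w - 1 = -1 * D.pip := by
      rw [Dat.pip, hw]
      ring
    rw [h1, mul_pow, hpi]
    ring
  rw [← hw'] at hxi
  obtain ⟨c, hc⟩ : ∃ c : ℕ → ℕ → ℤ, c = fun s t =>
      (-1) ^ ((k - s) + (l - t)) * (k.choose s : ℤ) * (l.choose t : ℤ) * (b : ℤ) ^ t := ⟨_, rfl⟩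
  -- the binomial theorem
  have hsum : D.piN 1 * (a * (w - 1) ^ k * (w' - 1) ^ l) * D.mon l₀ 0 =
      ∑ s ∈ range (k + 1), ∑ t ∈ range (l + 1), ((c s t : ℤ) : F) *
        (D.piN 1 * a * D.mon (l₀ + ((s * (N / p) : ℕ) : ZMod N)) (t : ZMod p)) := by
    have e0 : D.mon l₀ 0 = D.z ^ (-l₀).val := by simp [Dat.mon]
    have e1 : (w - 1) ^ k = ∑ s ∈ range (k + 1), w ^ s * (-1) ^ (k - s) * (k.choose s : F) := by
      rw [sub_eq_add_neg, add_pow]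
    have e2 : (w' - 1) ^ l = ∑ t ∈ range (l + 1), w' ^ t * (-1) ^ (l - t) * (l.choose t : F) := by
      rw [sub_eq_add_neg, add_pow]
    have e3 : D.piN 1 * (a * (w - 1) ^ k * (w' - 1) ^ l) * D.mon l₀ 0 =
        (D.piN 1 * a * D.z ^ (-l₀).val) * ((w - 1) ^ k * (w' - 1) ^ l) := by
      rw [e0]
      ring
    rw [e3, e1, e2, sum_mul_sum, mul_sum]
    refine sum_congr rfl fun s hs => ?_
    rw [mul_sum]
    refine sum_congr rfl fun t ht => ?_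
    rw [mem_range] at hs ht
    have h4 := mon_cod D hb l₀ s t (by omega)
    rw [← hw, ← hw'] at h4
    have h5 : ((c s t : ℤ) : F) = (-1) ^ (k - s) * (-1) ^ (l - t) * (k.choose s : F) *
        (l.choose t : F) * (b : F) ^ t := by
      rw [hc]
      push_cast
      rw [pow_add]
    rw [h5]
    calc _ = (D.piN 1 * a) * ((-1) ^ (k - s) * (-1) ^ (l - t) * (k.choose s : F) *
        (l.choose t : F)) * (D.z ^ (-l₀).val * (w ^ s * w' ^ t)) := by ring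
      _ = _ := by rw [← h4]; ring
  have htr : (b : ℚ) * D.arr (D.piN 1 * (a * (w - 1) ^ k * (w' - 1) ^ l)) l₀ 0 =
      ((∑ s ∈ range (k + 1), ∑ t ∈ range (l + 1),
      (-1) ^ ((k - s) + (l - t)) * (k.choose s : ℤ) * (l.choose t : ℤ) *
        ((b : ℤ) ^ t * n (l₀ + ((s * (N / p) : ℕ) : ZMod N)) (t : ZMod p)) : ℤ) : ℚ) := by
    rw [Dat.arr, hsum, map_sum, Int.cast_sum, sum_div, mul_sum]
    refine sum_congr rfl fun s hs => ?_
    rw [map_sum, Int.cast_sum, sum_div, mul_sum]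
    refine sum_congr rfl fun t ht => ?_
    have h6 : ((c s t : ℤ) : F) * (D.piN 1 * a * D.mon (l₀ + ((s * (N / p) : ℕ) : ZMod N)) (t : ZMod p)) =
        ((c s t : ℤ) : ℚ) • (D.piN 1 * a * D.mon (l₀ + ((s * (N / p) : ℕ) : ZMod N)) (t : ZMod p)) := by
      rw [Algebra.smul_def]; simp
    rw [h6, map_smul, smul_eq_mul]
    have h7 := hn (l₀ + ((s * (N / p) : ℕ) : ZMod N)) (t : ZMod p)
    rw [Dat.arr] at h7
    have h8 : ((c s t : ℤ) : ℚ) = (-1) ^ ((k - s) + (l - t)) * (k.choose s : ℚ) *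
        (l.choose t : ℚ) * (b : ℚ) ^ t := by
      rw [hc]
      push_cast
      rfl
    rw [h8, Int.cast_mul, Int.cast_mul (_ : ℤ) (n _ _), ← h7]
    push_cast
    ring
  -- `G = p g`
  obtain ⟨g, hg⟩ : ∃ g : F, g = a * (w - 1) ^ k * (w' - 1) ^ l / (p : F) := ⟨_, rfl⟩
  have hG : a * (w - 1) ^ k * (w' - 1) ^ l = (p : F) * g := by rw [hg]; field_simp
  have hpint : IsIntegral ℤ (p : F) := by
    have h := isIntegral_algebraMap (R := ℤ) (A := F) (x := (p : ℤ))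
    simpa using h
  obtain ⟨e, he⟩ : ∃ e, p * k + (p - 1) * l = p * (p - 1) + e := by
    refine ⟨p * k + (p - 1) * l - p * (p - 1), ?_⟩
    have h8 : p * (p - 1) ≤ p * k + (p - 1) * l := by
      obtain ⟨q, rfl⟩ : ∃ q, p = q + 1 := ⟨p - 1, (Nat.sub_add_cancel hp.one_le).symm⟩
      simp only [Nat.add_sub_cancel] at hkl ⊢
      nlinarith [Nat.mul_le_mul_left q hkl]
    omega
  have hpow : g ^ (p * (p - 1)) =
      a ^ (p * (p - 1)) * ((-1) ^ (p - 1) * v) ^ (p * k) * v' ^ ((p - 1) * l) * (p : F) ^ e := by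
    have h9 : ((p : F) * g) ^ (p * (p - 1)) = a ^ (p * (p - 1)) * ((w - 1) ^ (p - 1)) ^ (p * k) *
        ((w' - 1) ^ p) ^ ((p - 1) * l) := by
      rw [← hG, mul_pow, mul_pow, ← pow_mul, ← pow_mul, ← pow_mul, ← pow_mul]
      rw [show k * (p * (p - 1)) = (p - 1) * (p * k) by ring,
        show l * (p * (p - 1)) = p * ((p - 1) * l) by ring]
    rw [hwp, hxi, mul_pow, mul_pow (p : F) v', mul_pow (p : F) _ (p * k)] at h9
    have h10 : (p : F) ^ (p * (p - 1)) ≠ 0 := pow_ne_zero _ hpF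
    apply mul_left_cancel₀ h10
    rw [h9]
    have h11 : (p : F) ^ (p * k) * (p : F) ^ ((p - 1) * l) =
        (p : F) ^ (p * (p - 1)) * (p : F) ^ e := by
      rw [← pow_add, he, pow_add]
    calc _ = a ^ (p * (p - 1)) * ((-1) ^ (p - 1) * v) ^ (p * k) * v' ^ ((p - 1) * l) *
          ((p : F) ^ (p * k) * (p : F) ^ ((p - 1) * l)) := by ring
      _ = _ := by rw [h11]; ring
  have hv1 : IsIntegral ℤ ((-1 : F) ^ (p - 1) * v) :=
    ((isIntegral_one.neg).pow _).mul hv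
  have hV : IsIntegral ℤ (a ^ (p * (p - 1)) * ((-1) ^ (p - 1) * v) ^ (p * k) *
      v' ^ ((p - 1) * l) * (p : F) ^ e) :=
    (((ha.pow _).mul (hv1.pow _)).mul (hv'.pow _)).mul (hpint.pow _)
  have hpos : 0 < p * (p - 1) := by
    have := hp.two_le
    exact Nat.mul_pos hp.pos (by omega)
  have hgint : IsIntegral ℤ g := by
    refine IsIntegral.of_pow (n := p * (p - 1)) hpos ?_
    rw [hpow]
    exact hV
  obtain ⟨T, hT⟩ := arr_int D 1 g hgint l₀ 0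
  have h12 : D.arr (D.piN 1 * (a * (w - 1) ^ k * (w' - 1) ^ l)) l₀ 0 =
      (p : ℚ) * D.arr (D.piN 1 * g) l₀ 0 := by
    rw [hG, Dat.arr, Dat.arr]
    have h13 : D.piN 1 * ((p : F) * g) * D.mon l₀ 0 = (p : ℚ) • (D.piN 1 * g * D.mon l₀ 0) := by
      rw [Algebra.smul_def]
      simp only [map_natCast]
      ring
    rw [h13, map_smul, smul_eq_mul, mul_div_assoc]
  rw [h12] at htr
  have h14 : (b : ℚ) * ((p : ℚ) * D.arr (D.piN 1 * g) l₀ 0) = ((p * T : ℤ) : ℚ) := by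
    rw [Int.cast_mul, ← hT]
    push_cast
    ring
  rw [h14] at htr
  exact ⟨T, (Int.cast_injective htr).symm⟩

end Pool.Agent.H61.WN
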