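import Mathlib

/-!
# [H61 WN Def] THEOREM WN (MP_187c26_nt): algebraic integers with bounded moments in `ℚ(ζ_N, b^(1/p))`, all `N`, all `p`

`Dat p N b F`: a number field `F` with a primitive `N`-th root of unity `z` (`p ∣ N`) and a `p`-th root `x` of `b`; all embeddings of `F` are
labelled by `(ZMod N)ˣ × ZMod p`: `e (s,t) z = ch s`, `e (s,t) x = ρ ch t`, `ch a = e^(2πia/N)` for `a : ZMod N`, `ρ = b^(1/p)`.
`arr D y l j = Tr(y z^(-l) x^(-j)) / N` (`l : ZMod N`, `j : ZMod p`, `0 ≤ j.val < p`), `row D y j = (∑ l, arr D y l j z^l) / p`: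
then `y = ∑ j, row D y j x^j` and `row D y j ∈ ℚ(z)`.
-/

set_option autoImplicit false

namespace Pool.Agent.H61.WN

open Finset

/-- the standard additive character `e(a/N)` -/
noncomputable def ch {N : ℕ} [NeZero N] (a : ZMod N) : ℂ := ZMod.stdAddChar a

/-- a number field with an `N`-th root of unity, a `p`-th root of `b` and all its embeddings -/
structure Dat (p N b : ℕ) [Fact p.Prime] [NeZero N] (F : Type) [Field F] [NumberField F] where
  z : F
  x : F
  ρ : ℝ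
  hpN : p ∣ N
  hz : z ^ N = 1
  hx : x ^ p = (b : F)
  hρ : 1 ≤ ρ
  hρp : ρ ^ p = (b : ℝ)
  e : (ZMod N)ˣ × ZMod p → (F →+* ℂ)
  he : Function.Bijective e
  ez : ∀ (s : (ZMod N)ˣ) (t : ZMod p), e (s, t) z = ch (s : ZMod N)
  ex : ∀ (s : (ZMod N)ˣ) (t : ZMod p), e (s, t) x = (ρ : ℂ) * ch t

section chars

variable {N : ℕ} [NeZero N]

theorem ch_zero : ch (0 : ZMod N) = 1 := by simp [ch]

theorem ch_add (a c : ZMod N) : ch (a + c) = ch a * ch c := by
  simp [ch, AddChar.map_add_eq_mul]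

theorem ch_neg (a : ZMod N) : ch (-a) = (starRingEnd ℂ) (ch a) := by
  simp [ch, AddChar.map_neg_eq_conj]

theorem norm_ch (a : ZMod N) : ‖ch a‖ = 1 := by
  simp [ch]

theorem ch_ne_zero (a : ZMod N) : ch a ≠ 0 := by
  intro h
  have := norm_ch a
  rw [h, norm_zero] at this
  exact zero_ne_one this

theorem ch_inj {a c : ZMod N} (h : ch a = ch c) : a = c := ZMod.injective_stdAddChar h

theorem ch_eq_one {a : ZMod N} (h : ch a = 1) : a = 0 := ch_inj (h.trans ch_zero.symm)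

theorem ch_pow (a : ZMod N) (n : ℕ) : ch a ^ n = ch ((n : ZMod N) * a) := by
  induction n with
  | zero => simp [ch_zero]
  | succ n ih => rw [pow_succ, ih, ← ch_add]; congr 1; push_cast; ring

theorem ch_inv (a : ZMod N) : (ch a)⁻¹ = ch (-a) := by
  rw [ch_neg]
  exact Complex.inv_eq_conj (norm_ch _)

/-- the sum over all `a : ZMod N` (`N` arbitrary) -/
theorem sum_ch_mul (c : ZMod N) : ∑ a : ZMod N, ch (a * c) = if c = 0 then (N : ℂ) else 0 := by
  split_ifs with h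
  · subst h; simp [ch_zero, ZMod.card]
  · have h1 := AddChar.sum_eq_zero_of_ne_one (ψ := (ZMod.stdAddChar (N := N)).mulShift c) (by
      intro h2
      have h3 := congrArg (fun ψ : AddChar (ZMod N) ℂ => ψ 1) h2
      simp only [AddChar.mulShift_apply, mul_one, AddChar.one_apply] at h3
      exact h (ch_eq_one h3))
    rw [← h1]
    refine Finset.sum_congr rfl fun a _ => ?_
    rw [AddChar.mulShift_apply, mul_comm]
    rfl

/-- change of level: `ch (N/d * a) = ch a` -/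
theorem ch_level (d : ℕ) [NeZero d] (hd : d ∣ N) (a : ℤ) :
    ch (((N / d : ℕ) * a : ℤ) : ZMod N) = ch (a : ZMod d) := by
  unfold ch
  rw [ZMod.stdAddChar_coe, ZMod.stdAddChar_coe]
  congr 1
  obtain ⟨c, rfl⟩ := hd
  have hd0 : (d : ℂ) ≠ 0 := by exact_mod_cast NeZero.ne d
  have hc0 : (c : ℂ) ≠ 0 := by
    have : NeZero (d * c) := inferInstance
    exact_mod_cast right_ne_zero_of_mul (NeZero.ne (d * c))
  rw [Nat.mul_div_cancel_left c (Nat.pos_of_ne_zero (NeZero.ne d))]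
  push_cast
  field_simp

end chars

variable {p N b : ℕ} [Fact p.Prime] [NeZero N] {F : Type} [Field F] [NumberField F]

/-- the monomial `z^(-l) x^(-j)` -/
noncomputable def Dat.mon (D : Dat p N b F) (l : ZMod N) (j : ZMod p) : F :=
  D.z ^ (-l).val * (D.x ^ j.val)⁻¹

/-- the array of `y` -/
noncomputable def Dat.arr (D : Dat p N b F) (y : F) (l : ZMod N) (j : ZMod p) : ℚ :=
  Algebra.trace ℚ F (y * D.mon l j) / N

/-- `y ∈ ℚ(z)`: its embeddings do not depend on `t` -/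
def Dat.isA (D : Dat p N b F) (y : F) : Prop :=
  ∀ (s : (ZMod N)ˣ) (t : ZMod p), D.e (s, t) y = D.e (s, 0) y

/-- the row `j` of `y` -/
noncomputable def Dat.row (D : Dat p N b F) (y : F) (j : ZMod p) : F :=
  (∑ l : ZMod N, ((D.arr y l j : ℚ) : F) * D.z ^ l.val) / (p : F)

/-- `π_k = ∏_(ℓ ∣ N) (1 - z^(-k N/ℓ))` (`k = 1`, or `k` prime to `N`) -/
noncomputable def Dat.piN (D : Dat p N b F) (k : ℕ) : F :=
  ∏ l ∈ N.primeFactors, (1 - D.z⁻¹ ^ (k * (N / l)))

theorem Dat.z_ne_zero (D : Dat p N b F) : D.z ≠ 0 := by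
  intro h
  have := D.hz
  rw [h, zero_pow (NeZero.ne N)] at this
  exact zero_ne_one this

theorem Dat.z_prim (D : Dat p N b F) : IsPrimitiveRoot D.z N := by
  have h1 : IsPrimitiveRoot (ch ((1 : (ZMod N)ˣ) : ZMod N)) N := by
    refine IsPrimitiveRoot.mk_of_lt _ (Nat.pos_of_ne_zero (NeZero.ne N)) ?_ fun l hl hlN h => ?_
    · rw [ch_pow, CharP.cast_eq_zero, zero_mul, ch_zero]
    · rw [ch_pow, Units.val_one, mul_one] at h
      have h2 := ch_eq_one h
      rw [ZMod.natCast_eq_zero_iff] at h2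
      exact absurd (Nat.le_of_dvd hl h2) (not_le.2 hlN)
  rw [← D.ez 1 0] at h1
  exact IsPrimitiveRoot.of_map_of_injective h1 (D.e (1, 0)).injective

theorem Dat.x_ne_zero (D : Dat p N b F) (hb : b ≠ 0) : D.x ≠ 0 := by
  intro h
  have := D.hx
  rw [h, zero_pow (Fact.out : p.Prime).ne_zero] at this
  exact hb (by exact_mod_cast this.symm)

theorem Dat.e_zk (D : Dat p N b F) (s : (ZMod N)ˣ) (t : ZMod p) (k : ℕ) :
    D.e (s, t) (D.z ^ k) = ch ((k : ZMod N) * (s : ZMod N)) := by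
  rw [map_pow, D.ez, ch_pow]

theorem Dat.e_zl (D : Dat p N b F) (s : (ZMod N)ˣ) (t : ZMod p) (l : ZMod N) :
    D.e (s, t) (D.z ^ l.val) = ch (l * (s : ZMod N)) := by
  rw [D.e_zk, ZMod.natCast_zmod_val]

theorem Dat.e_mon (D : Dat p N b F) (s : (ZMod N)ˣ) (t : ZMod p) (l : ZMod N) (j : ZMod p) :
    D.e (s, t) (D.mon l j) =
      ch (-((s : ZMod N) * l)) * (((D.ρ : ℂ) ^ j.val)⁻¹ * ch (-(t * j))) := by
  have e1 : ((-l).val : ZMod N) * (s : ZMod N) = -((s : ZMod N) * l) := by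
    rw [ZMod.natCast_zmod_val]
    ring
  have e2 : -((j.val : ZMod p) * t) = -(t * j) := by
    rw [ZMod.natCast_zmod_val]
    ring
  rw [Dat.mon, map_mul, map_inv₀, map_pow, map_pow, D.ez, D.ex, mul_pow, ch_pow, ch_pow, mul_inv, ch_inv, e1, e2]

theorem Dat.trace_eq (D : Dat p N b F) (y : F) :
    ((Algebra.trace ℚ F y : ℚ) : ℂ) = ∑ st : (ZMod N)ˣ × ZMod p, D.e st y := by
  have h1 := trace_eq_sum_embeddings (K := ℚ) (L := F) ℂ (x := y)
  have h2 : (algebraMap ℚ ℂ) (Algebra.trace ℚ F y) = ((Algebra.trace ℚ F y : ℚ) : ℂ) := rfl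
  rw [← h2, h1]
  rw [← Fintype.sum_equiv (RingHom.equivRatAlgHom (R := F) (S := ℂ)) (fun σ => σ y) (fun σ => σ y)
    (fun σ => rfl)]
  exact (Function.Bijective.sum_comp D.he (fun σ : F →+* ℂ => σ y)).symm

theorem Dat.norm_eq (D : Dat p N b F) (y : F) :
    ((Algebra.norm ℚ y : ℚ) : ℂ) = ∏ st : (ZMod N)ˣ × ZMod p, D.e st y := by
  have h1 := Algebra.norm_eq_prod_embeddings (K := ℚ) (L := F) ℂ y
  have h2 : (algebraMap ℚ ℂ) (Algebra.norm ℚ y) = ((Algebra.norm ℚ y : ℚ) : ℂ) := rfl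
  rw [← h2, h1]
  rw [← Fintype.prod_equiv (RingHom.equivRatAlgHom (R := F) (S := ℂ)) (fun σ => σ y) (fun σ => σ y)
    (fun σ => rfl)]
  exact (Function.Bijective.prod_comp D.he (fun σ : F →+* ℂ => σ y)).symm

/-- integrality can be tested in `ℂ` -/
theorem Dat.int_iff (D : Dat p N b F) (st : (ZMod N)ˣ × ZMod p) (y : F) :
    IsIntegral ℤ (D.e st y) ↔ IsIntegral ℤ y :=
  isIntegral_algHom_iff ((D.e st).toIntAlgHom) (D.e st).injective

theorem Dat.z_int (D : Dat p N b F) : IsIntegral ℤ D.z :=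
  IsIntegral.of_pow (Nat.pos_of_ne_zero (NeZero.ne N)) (by rw [D.hz]; exact isIntegral_one)

theorem Dat.zi_int (D : Dat p N b F) : IsIntegral ℤ D.z⁻¹ :=
  IsIntegral.of_pow (Nat.pos_of_ne_zero (NeZero.ne N)) (by rw [inv_pow, D.hz, inv_one]; exact isIntegral_one)

theorem Dat.x_int (D : Dat p N b F) : IsIntegral ℤ D.x :=
  IsIntegral.of_pow (Fact.out : p.Prime).pos (by
    rw [D.hx]
    simpa using isIntegral_algebraMap (R := ℤ) (A := F) (x := (b : ℤ)))

end Pool.Agent.H61.WN
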