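import Pool.Agent.H61.WN.Ccs
import Pool.Agent.H61.WN.Cmb

/-!
# [H61 WN Done] THEOREM WN: descent at a prime `ℓ` with `ℓ ∣ N`, `ℓ^2 ∤ N`, `ℓ ∤ p b`

`sum_cc`, `cc_int` and `sum_sq_ge`: every pair `(k, k')` with `cc a k ≠ cc a k'` contributes `≥ card`, so their number `m` has `m card ≤ 2 (ℓ - 1) 21/20 card`. `cmb`: `cc a k = v` for all
`k ≠ k₀`. `a = ∑ ω^k cc a k = ω^(k₀) (cc a k₀ - v) + v ∑_k ω^k = ω^(k₀) (cc a k₀ - v)` (`ω = z^(N/ℓ)` is a primitive `ℓ`-th root of unity). `cc_mem`: `v = cc a k₁` for some `k₁ ≠ k₀`, `k₁ < ℓ` (`ℓ ≥ 2`).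
`z^(k₀ (N/ℓ) (ℓ - 1)) a = cc a k₀ - v`.
-/

set_option autoImplicit false

namespace Pool.Agent.H61.WN

open Finset

variable {p N b : ℕ} [Fact p.Prime] [NeZero N] {F : Type} [Field F] [NumberField F]

theorem done (D : Dat p N b F) (ℓ : ℕ) (hℓ : ℓ.Prime) (hN : ℓ ∣ N) (hN2 : ¬ ℓ ^ 2 ∣ N) (hℓb : ¬ ℓ ∣ p * b) (a : F) (ha : IsIntegral ℤ a) (ha0 : a ≠ 0)
    (hE : ∑ st : (ZMod N)ˣ × ZMod p, ‖D.e st a‖ ^ 2 ≤ 21 / 20 * Fintype.card ((ZMod N)ˣ × ZMod p)) :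
    ∃ k : ℕ, D.z ^ k * a ∈ IntermediateField.adjoin ℚ ({D.z ^ ℓ, D.x} : Set F) := by
  classical
  have hℓ2 : 2 ≤ ℓ := hℓ.two_le
  obtain ⟨M, hM⟩ := hN
  have hNM : N / ℓ = M := by
    rw [hM]
    exact Nat.mul_div_cancel_left _ hℓ.pos
  have hN' : ℓ ∣ N := ⟨M, hM⟩
  have h1 := sum_cc D ℓ hℓ hN' hN2 a
  set K : ℝ := (Fintype.card ((ZMod N)ˣ × ZMod p) : ℝ) with hK
  have hK0 : 0 < K := by
    rw [hK]
    have : 0 < Fintype.card ((ZMod N)ˣ × ZMod p) := Fintype.card_pos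
    exact_mod_cast this
  set S := ((range ℓ) ×ˢ (range ℓ)).filter
    (fun kk => D.cc ℓ a kk.1 ≠ D.cc ℓ a kk.2) with hS
  have h2 : (S.card : ℝ) * K ≤ ∑ k ∈ range ℓ, ∑ k' ∈ range ℓ,
      ∑ st : (ZMod N)ˣ × ZMod p, ‖D.e st (D.cc ℓ a k - D.cc ℓ a k')‖ ^ 2 := by
    rw [← Finset.sum_product' (range ℓ) (range ℓ)
      (fun k k' => ∑ st : (ZMod N)ˣ × ZMod p, ‖D.e st (D.cc ℓ a k - D.cc ℓ a k')‖ ^ 2)]
    calc (S.card : ℝ) * K = ∑ _kk ∈ S, K := by rw [Finset.sum_const, nsmul_eq_mul]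
      _ ≤ ∑ kk ∈ S, ∑ st : (ZMod N)ˣ × ZMod p, ‖D.e st (D.cc ℓ a kk.1 - D.cc ℓ a kk.2)‖ ^ 2 := by
        refine Finset.sum_le_sum fun kk hkk => ?_
        rw [hS, Finset.mem_filter, Finset.mem_product, Finset.mem_range, Finset.mem_range] at hkk
        exact sum_sq_ge D _ (cc_int D ℓ hℓ hN' hN2 hℓb a ha kk.1 kk.2 hkk.1.1 hkk.1.2)
          (sub_ne_zero.2 hkk.2)
      _ ≤ ∑ kk ∈ range ℓ ×ˢ range ℓ,
          ∑ st : (ZMod N)ˣ × ZMod p, ‖D.e st (D.cc ℓ a kk.1 - D.cc ℓ a kk.2)‖ ^ 2 := by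
        refine Finset.sum_le_sum_of_subset_of_nonneg (Finset.filter_subset _ _) fun kk _ _ => ?_
        exact Finset.sum_nonneg fun st _ => sq_nonneg _
  rw [← h1] at h2
  have hl1 : (1 : ℝ) ≤ (ℓ : ℝ) - 1 := by
    have : (2 : ℝ) ≤ (ℓ : ℝ) := by exact_mod_cast hℓ2
    linarith
  have h3 : (S.card : ℝ) * K ≤ (2 * ((ℓ : ℝ) - 1) * (21 / 20)) * K := by
    calc (S.card : ℝ) * K ≤ 2 * ((ℓ : ℝ) - 1) * ∑ st : (ZMod N)ˣ × ZMod p, ‖D.e st a‖ ^ 2 := h2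
      _ ≤ 2 * ((ℓ : ℝ) - 1) * (21 / 20 * K) :=
        mul_le_mul_of_nonneg_left hE (by linarith)
      _ = (2 * ((ℓ : ℝ) - 1) * (21 / 20)) * K := by ring
  have h4 : (S.card : ℝ) ≤ 2 * ((ℓ : ℝ) - 1) * (21 / 20) := le_of_mul_le_mul_right h3 hK0
  have h5 : 10 * S.card ≤ 21 * (ℓ - 1) := by
    have h6 : ((10 * S.card : ℕ) : ℝ) ≤ ((21 * (ℓ - 1) : ℕ) : ℝ) := by
      rw [Nat.cast_mul, Nat.cast_mul, Nat.cast_sub (by omega)]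
      push_cast
      linarith
    exact_mod_cast h6
  obtain ⟨k₀, hk₀, v, hv⟩ := cmb ℓ hℓ2 (fun k => D.cc ℓ a k) h5
  -- the sum
  have hsum := cc_sum D ℓ hℓ hN' hN2 a
  rw [hNM] at hsum
  have hprim : IsPrimitiveRoot (D.z ^ M) ℓ :=
    D.z_prim.pow (Nat.pos_of_ne_zero (NeZero.ne N)) (by rw [hM, mul_comm])
  have hgeom : ∑ k ∈ range ℓ, D.z ^ (k * M) = 0 := by
    have := hprim.geom_sum_eq_zero (by omega)
    rw [← this]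
    refine Finset.sum_congr rfl fun k _ => ?_
    rw [← pow_mul, mul_comm]
  have ha1 : a = D.z ^ (k₀ * M) * (D.cc ℓ a k₀ - v) := by
    have e1 : ∑ k ∈ range ℓ, D.z ^ (k * M) * (D.cc ℓ a k - v) = D.z ^ (k₀ * M) * (D.cc ℓ a k₀ - v) := by
      refine Finset.sum_eq_single k₀ (fun k hk hne => ?_) (fun h => ?_)
      · rw [hv k (Finset.mem_range.1 hk) hne, sub_self, mul_zero]
      · exact absurd (Finset.mem_range.2 hk₀) h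
    have e2 : ∑ k ∈ range ℓ, D.z ^ (k * M) * (D.cc ℓ a k - v) =
        ∑ k ∈ range ℓ, D.z ^ (k * M) * D.cc ℓ a k - (∑ k ∈ range ℓ, D.z ^ (k * M)) * v := by
      rw [Finset.sum_mul, ← Finset.sum_sub_distrib]
      refine Finset.sum_congr rfl fun k _ => ?_
      ring
    rw [hgeom, zero_mul, sub_zero] at e2
    exact hsum.trans (e2.symm.trans e1)
  have hvm : v ∈ IntermediateField.adjoin ℚ ({D.z ^ ℓ, D.x} : Set F) := by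
    by_cases h0 : k₀ = 0
    · rw [← hv 1 (by omega) (by omega)]
      exact cc_mem D ℓ hℓ hN' a 1
    · rw [← hv 0 (by omega) (by omega)]
      exact cc_mem D ℓ hℓ hN' a 0
  refine ⟨k₀ * M * (ℓ - 1), ?_⟩
  have e3 : D.z ^ (k₀ * M * (ℓ - 1)) * a = D.cc ℓ a k₀ - v := by
    have e4 : D.z ^ (k₀ * M * (ℓ - 1)) * D.z ^ (k₀ * M) = 1 := by
      rw [← pow_add]
      have e5 : k₀ * M * (ℓ - 1) + k₀ * M = N * k₀ := by
        obtain ⟨t, rfl⟩ : ∃ t, ℓ = t + 1 := ⟨ℓ - 1, by omega⟩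
        rw [hM, Nat.add_sub_cancel]
        ring
      rw [e5, pow_mul, D.hz, one_pow]
    calc D.z ^ (k₀ * M * (ℓ - 1)) * a
        = D.z ^ (k₀ * M * (ℓ - 1)) * (D.z ^ (k₀ * M) * (D.cc ℓ a k₀ - v)) := by rw [← ha1]
      _ = (D.z ^ (k₀ * M * (ℓ - 1)) * D.z ^ (k₀ * M)) * (D.cc ℓ a k₀ - v) := by ring
      _ = D.cc ℓ a k₀ - v := by rw [e4, one_mul]
  rw [e3]
  exact sub_mem (cc_mem D ℓ hℓ hN' a k₀) hvm

end Pool.Agent.H61.WN
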