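import Pool.Agent.H61.WN.Cmp

/-!
# [H61 WN Dsq] THEOREM WN: descent at a prime `ℓ` with `ℓ^2 ∣ N`, `ℓ ∤ p b`

`orth`: `∑_st ‖e a‖^2 = ∑_(k<ℓ) ∑_st ‖e (cmp ℓ a k)‖^2`: for fixed `s, t` the numbers `E_u = e(s (1 + u N/ℓ), t)(a) = ∑_k ch_ℓ(s u k) e(s,t)(cmp ℓ a k)`
(`cmp_sum`, `cmp_mem`, or inversion of `e_cmp`), so `∑_u |E_u|^2 = ℓ ∑_k |e(s,t)(cmp ℓ a k)|^2` (`s` is prime to `ℓ`), and `s ↦ s (1 + u N/ℓ)` permutes the units for each `u`.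
Each `cmp ℓ a k ≠ 0` is a nonzero integer (`cmp_int`), so has sum of squares `≥ card` (`sum_sq_ge`): two of them would give `2 card ≤ 21/20 card`. So `a = cmp ℓ a k = z^k w`
(`cmp_mem`) and `z^(N - k) a = w`.
-/

set_option autoImplicit false

namespace Pool.Agent.H61.WN

open Finset

variable {p N b : ℕ} [Fact p.Prime] [NeZero N] {F : Type} [Field F] [NumberField F]

/-- Parseval for `ZMod ℓ`, in the form needed here -/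
private theorem pars_sq (ℓ : ℕ) [NeZero ℓ] (hℓ : ℓ.Prime) (m : ℕ) (hm : ¬ ℓ ∣ m) (E : ℕ → ℂ) :
    ∑ k ∈ range ℓ, ‖∑ u ∈ range ℓ, E u * ch (-((m * u * k : ℕ) : ZMod ℓ))‖ ^ 2 = ℓ * ∑ u ∈ range ℓ, ‖E u‖ ^ 2 := by
  have hsum : ∀ c : ZMod ℓ, ∑ k ∈ range ℓ, ch ((k : ZMod ℓ) * c) = if c = 0 then (ℓ : ℂ) else 0 := by
    intro c
    rw [← sum_ch_mul c]
    refine Finset.sum_bij' (fun u _ => (u : ZMod ℓ)) (fun a _ => a.val) (fun _ _ => Finset.mem_univ _)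
      (fun a _ => Finset.mem_range.2 (ZMod.val_lt a)) (fun u hu => ?_) (fun a _ => ?_) (fun _ _ => rfl)
    · exact ZMod.val_cast_of_lt (Finset.mem_range.1 hu)
    · exact ZMod.natCast_zmod_val a
  have hm' : (m : ZMod ℓ) ≠ 0 := fun h => hm ((ZMod.natCast_eq_zero_iff _ _).1 h)
  have : Fact ℓ.Prime := ⟨hℓ⟩
  have key : ((∑ k ∈ range ℓ, ‖∑ u ∈ range ℓ, E u * ch (-((m * u * k : ℕ) : ZMod ℓ))‖ ^ 2 : ℝ) : ℂ) =
      ((ℓ * ∑ u ∈ range ℓ, ‖E u‖ ^ 2 : ℝ) : ℂ) := by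
    rw [Complex.ofReal_sum, Complex.ofReal_mul, Complex.ofReal_natCast, Complex.ofReal_sum]
    simp only [Complex.ofReal_pow]
    have h1 : ∀ k ∈ range ℓ, ((‖∑ u ∈ range ℓ, E u * ch (-((m * u * k : ℕ) : ZMod ℓ))‖ : ℝ) : ℂ) ^ 2 =
        ∑ u ∈ range ℓ, ∑ v ∈ range ℓ, E u * (starRingEnd ℂ) (E v) *
          ch ((k : ZMod ℓ) * ((m : ZMod ℓ) * ((v : ZMod ℓ) - (u : ZMod ℓ)))) := by
      intro k _
      rw [← Complex.mul_conj', map_sum, Finset.sum_mul_sum]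
      refine Finset.sum_congr rfl fun u _ => Finset.sum_congr rfl fun v _ => ?_
      rw [map_mul, ← ch_neg, neg_neg]
      have e1 : ch ((k : ZMod ℓ) * ((m : ZMod ℓ) * ((v : ZMod ℓ) - (u : ZMod ℓ)))) =
          ch (-((m * u * k : ℕ) : ZMod ℓ)) * ch ((m * v * k : ℕ) : ZMod ℓ) := by
        rw [← ch_add]
        congr 1
        push_cast
        ring
      rw [e1]
      ring
    rw [Finset.sum_congr rfl h1, Finset.sum_comm, Finset.mul_sum]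
    refine Finset.sum_congr rfl fun u hu => ?_
    rw [Finset.sum_comm]
    have h2 : ∀ v ∈ range ℓ, ∑ k ∈ range ℓ, E u * (starRingEnd ℂ) (E v) *
        ch ((k : ZMod ℓ) * ((m : ZMod ℓ) * ((v : ZMod ℓ) - (u : ZMod ℓ)))) =
        if v = u then (ℓ : ℂ) * ((‖E u‖ : ℝ) : ℂ) ^ 2 else 0 := by
      intro v hv
      rw [← Finset.mul_sum, hsum]
      by_cases h : v = u
      · subst h
        rw [sub_self, mul_zero, if_pos rfl, if_pos rfl, Complex.mul_conj']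
        ring
      · rw [if_neg, if_neg h, mul_zero]
        intro h3
        rw [mul_eq_zero, or_iff_right hm', sub_eq_zero, ZMod.natCast_eq_natCast_iff',
          Nat.mod_eq_of_lt (Finset.mem_range.1 hv), Nat.mod_eq_of_lt (Finset.mem_range.1 hu)] at h3
        exact h h3
    rw [Finset.sum_congr rfl h2, Finset.sum_ite_eq' , if_pos hu]
  exact_mod_cast key

private theorem orth (D : Dat p N b F) (ℓ : ℕ) (hℓ : ℓ.Prime) (hN : ℓ ^ 2 ∣ N) (a : F) :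
    ∑ st : (ZMod N)ˣ × ZMod p, ‖D.e st a‖ ^ 2 =
      ∑ k ∈ range ℓ, ∑ st : (ZMod N)ˣ × ZMod p, ‖D.e st (D.cmp ℓ a k)‖ ^ 2 := by
  have : NeZero ℓ := ⟨hℓ.ne_zero⟩
  have hlN : ℓ ∣ N := dvd_trans (dvd_pow_self ℓ two_ne_zero) hN
  choose v hv using fun u : ℕ => unit_sq ℓ hℓ hN (1 : (ZMod N)ˣ) u
  let S : (ZMod N)ˣ → ℕ → (ZMod N)ˣ := fun s u => s * v u
  have hS : ∀ s u, (S s u : ZMod N) = (s : ZMod N) * (1 + ((u * (N / ℓ) : ℕ) : ZMod N)) := by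
    intro s u
    show ((s * v u : (ZMod N)ˣ) : ZMod N) = _
    rw [Units.val_mul, hv, Units.val_one, one_mul]
  have hℓR : (0 : ℝ) < ℓ := by exact_mod_cast hℓ.pos
  have hst : ∀ (s : (ZMod N)ˣ) (t : ZMod p), ∑ u ∈ range ℓ, ‖D.e (S s u, t) a‖ ^ 2 =
      ℓ * ∑ k ∈ range ℓ, ‖D.e (s, t) (D.cmp ℓ a k)‖ ^ 2 := by
    intro s t
    have hs : ¬ ℓ ∣ (s : ZMod N).val := by
      intro h
      have h2 := ZMod.val_coe_unit_coprime s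
      have h3 : ℓ ∣ Nat.gcd (s : ZMod N).val N := Nat.dvd_gcd h hlN
      rw [h2] at h3
      exact hℓ.one_lt.ne' (Nat.dvd_one.1 h3)
    have h1 := pars_sq ℓ hℓ (s : ZMod N).val hs (fun u => D.e (S s u, t) a)
    have h2 : ∀ k ∈ range ℓ, ‖∑ u ∈ range ℓ, D.e (S s u, t) a * ch (-(((s : ZMod N).val * u * k : ℕ) : ZMod ℓ))‖ ^ 2 =
        ℓ ^ 2 * ‖D.e (s, t) (D.cmp ℓ a k)‖ ^ 2 := by
      intro k hk
      rw [← e_cmp D ℓ hℓ hN a k (Finset.mem_range.1 hk) t S hS s, norm_mul, mul_pow, Complex.norm_natCast]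
    rw [Finset.sum_congr rfl h2, ← Finset.mul_sum] at h1
    have h3 : (ℓ : ℝ) * (∑ u ∈ range ℓ, ‖D.e (S s u, t) a‖ ^ 2) =
        ℓ * (ℓ * ∑ k ∈ range ℓ, ‖D.e (s, t) (D.cmp ℓ a k)‖ ^ 2) := by
      rw [← h1]
      ring
    exact mul_left_cancel₀ hℓR.ne' h3
  have hsum : ∀ (t : ZMod p), ∑ s : (ZMod N)ˣ, ‖D.e (s, t) a‖ ^ 2 =
      ∑ k ∈ range ℓ, ∑ s : (ZMod N)ˣ, ‖D.e (s, t) (D.cmp ℓ a k)‖ ^ 2 := by
    intro t
    have h1 : ∀ u ∈ range ℓ, ∑ s : (ZMod N)ˣ, ‖D.e (S s u, t) a‖ ^ 2 = ∑ s : (ZMod N)ˣ, ‖D.e (s, t) a‖ ^ 2 := by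
      intro u _
      exact Equiv.sum_comp (Equiv.mulRight (v u)) (fun s => ‖D.e (s, t) a‖ ^ 2)
    have h2 : ∑ s : (ZMod N)ˣ, ∑ u ∈ range ℓ, ‖D.e (S s u, t) a‖ ^ 2 = ℓ * ∑ s : (ZMod N)ˣ, ‖D.e (s, t) a‖ ^ 2 := by
      rw [Finset.sum_comm, Finset.sum_congr rfl h1, Finset.sum_const, Finset.card_range, nsmul_eq_mul]
    have h3 : ∑ s : (ZMod N)ˣ, ∑ u ∈ range ℓ, ‖D.e (S s u, t) a‖ ^ 2 =
        ℓ * ∑ k ∈ range ℓ, ∑ s : (ZMod N)ˣ, ‖D.e (s, t) (D.cmp ℓ a k)‖ ^ 2 := by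
      rw [Finset.sum_congr rfl fun s _ => hst s t, ← Finset.mul_sum, Finset.sum_comm]
    exact mul_left_cancel₀ hℓR.ne' (h2.symm.trans h3)
  rw [Fintype.sum_prod_type_right, Finset.sum_congr rfl fun t _ => hsum t, Finset.sum_comm]
  refine Finset.sum_congr rfl fun k _ => ?_
  rw [Fintype.sum_prod_type_right]

theorem dsq (D : Dat p N b F) (ℓ : ℕ) (hℓ : ℓ.Prime) (hN : ℓ ^ 2 ∣ N) (hℓb : ¬ ℓ ∣ p * b) (a : F) (ha : IsIntegral ℤ a) (ha0 : a ≠ 0)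
    (hE : ∑ st : (ZMod N)ˣ × ZMod p, ‖D.e st a‖ ^ 2 ≤ 21 / 20 * Fintype.card ((ZMod N)ˣ × ZMod p)) :
    ∃ k : ℕ, D.z ^ k * a ∈ IntermediateField.adjoin ℚ ({D.z ^ ℓ, D.x} : Set F) := by
  have hor := orth D ℓ hℓ hN a
  have hcs := cmp_sum D ℓ hℓ.pos a
  have hcard : (0 : ℝ) < Fintype.card ((ZMod N)ˣ × ZMod p) := by exact_mod_cast Fintype.card_pos
  have hge : ∀ k < ℓ, D.cmp ℓ a k ≠ 0 →
      (Fintype.card ((ZMod N)ˣ × ZMod p) : ℝ) ≤ ∑ st : (ZMod N)ˣ × ZMod p, ‖D.e st (D.cmp ℓ a k)‖ ^ 2 := by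
    intro k hk h0
    exact sum_sq_ge D _ (cmp_int D ℓ hℓ hN hℓb a ha k hk) h0
  obtain ⟨k, hk, hk0⟩ : ∃ k ∈ range ℓ, D.cmp ℓ a k ≠ 0 := by
    by_contra hcon
    push Not at hcon
    exact ha0 (hcs.trans (Finset.sum_eq_zero hcon))
  have huniq : ∀ k' ∈ range ℓ, k' ≠ k → D.cmp ℓ a k' = 0 := by
    intro k' hk' hne
    by_contra h0
    have h1 := hge k (Finset.mem_range.1 hk) hk0
    have h2 := hge k' (Finset.mem_range.1 hk') h0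
    have h3 : (∑ st : (ZMod N)ˣ × ZMod p, ‖D.e st (D.cmp ℓ a k)‖ ^ 2) +
        (∑ st : (ZMod N)ˣ × ZMod p, ‖D.e st (D.cmp ℓ a k')‖ ^ 2) ≤
        ∑ k ∈ range ℓ, ∑ st : (ZMod N)ˣ × ZMod p, ‖D.e st (D.cmp ℓ a k)‖ ^ 2 := by
      rw [← Finset.sum_pair hne.symm (f := fun k => ∑ st : (ZMod N)ˣ × ZMod p, ‖D.e st (D.cmp ℓ a k)‖ ^ 2)]
      refine Finset.sum_le_sum_of_subset_of_nonneg ?_ fun _ _ _ => by positivity
      intro i hi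
      rw [Finset.mem_insert, Finset.mem_singleton] at hi
      rcases hi with rfl | rfl
      · exact hk
      · exact hk'
    rw [← hor] at h3
    linarith
  have ha1 : a = D.cmp ℓ a k := by
    conv_lhs => rw [hcs]
    exact Finset.sum_eq_single_of_mem k hk huniq
  obtain ⟨w, hw, hwe⟩ := cmp_mem D ℓ hℓ.pos a k (Finset.mem_range.1 hk)
  have hkN : k ≤ N := by
    have h1 : ℓ ∣ N := dvd_trans (dvd_pow_self ℓ two_ne_zero) hN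
    exact (Finset.mem_range.1 hk).le.trans (Nat.le_of_dvd (Nat.pos_of_ne_zero (NeZero.ne N)) h1)
  refine ⟨N - k, ?_⟩
  have h1 : D.z ^ (N - k) * a = w := by
    rw [ha1, hwe, ← mul_assoc, ← pow_add, Nat.sub_add_cancel hkN, D.hz, one_mul]
  rw [h1]
  exact hw

end Pool.Agent.H61.WN
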