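import Pool.Agent.H61.WN.Ex
import Pool.Agent.H61.WN.Dsq
import Pool.Agent.H61.WN.Done
import Pool.Agent.H22.Lh.Hgt

/-!
# [H61 WN Des] THEOREM WN: descent to `N` with all primes dividing `p b` (numbers in `ℂ`)

Strong induction on `N`. If a prime `ℓ ∣ N` does not divide `p b`: the field `L = ℚ(ζ, x) ⊂ ℂ`, `Dat` from `exists_dat` (see `Pool/Agent/H84/WI/Fin.lean`: `numberField_pair`,
`adjoin_pair_top`, `hprim`, `hxL`, `hsum`, with `N` in place of `p`), `a = ⟨α, _⟩ ∈ L`, `∑_st ‖e a‖^2 = card * meanC (‖·‖^2) α ≤ 21/20 card`; `dsq` or `done`: `ζ^k α ∈ ℚ(ζ^ℓ, x)`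
(map the intermediate field of `L` to `ℂ`). `ζ^ℓ` is a primitive `N/ℓ`-th root of unity (`IsPrimitiveRoot.pow`), `p ∣ N/ℓ` (`ℓ ≠ p`), `α' = ζ^k α` is integral, `≠ 0`, with the same
mean (`Pool.H22.Lh.mean_root`). By induction `ξ' α' ∈ ℚ(ζ', x)`; `ξ = ξ' ζ^k`.
-/

set_option autoImplicit false

namespace Pool.Agent.H61.WN

open Finset NumberField

private theorem number_field_pair {ζ x : ℂ} (hζ : IsIntegral ℤ ζ) (hx : IsIntegral ℤ x) :
    NumberField (IntermediateField.adjoin ℚ ({ζ, x} : Set ℂ)) := by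
  refine Pool.H22.Lh.mean_numberField _ (Set.toFinite _) ?_
  intro y hy
  rcases hy with rfl | hy
  · exact hζ.tower_top
  · rw [Set.mem_singleton_iff.1 hy]
    exact hx.tower_top

private theorem pair_top_aux {ζ x : ℂ} (L : IntermediateField ℚ ℂ)
    (hL : L = IntermediateField.adjoin ℚ ({ζ, x} : Set ℂ)) (hζ : ζ ∈ L) (hx : x ∈ L) :
    @IntermediateField.adjoin ℚ _ L _ L.algebra' ({⟨ζ, hζ⟩, ⟨x, hx⟩} : Set L) = ⊤ := by
  apply IntermediateField.map_injective L.val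
  rw [IntermediateField.adjoin_map, Set.image_pair, ← AlgHom.fieldRange_eq_map,
    IntermediateField.fieldRange_val]
  exact hL.symm

private theorem pair_top {ζ x : ℂ} (L : IntermediateField ℚ ℂ)
    (hL : L = IntermediateField.adjoin ℚ ({ζ, x} : Set ℂ)) (hζ : ζ ∈ L) (hx : x ∈ L)
    (inst : Algebra ℚ L) :
    @IntermediateField.adjoin ℚ _ L _ inst ({⟨ζ, hζ⟩, ⟨x, hx⟩} : Set L) = ⊤ := by
  have h : inst = L.algebra' := Subsingleton.elim _ _
  subst h
  exact pair_top_aux L hL hζ hx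

private theorem mem_down {L : IntermediateField ℚ ℂ} (inst : Algebra ℚ L) (u x w : L)
    (h : w ∈ @IntermediateField.adjoin ℚ _ L _ inst ({u, x} : Set L)) :
    (w : ℂ) ∈ IntermediateField.adjoin ℚ ({(u : ℂ), (x : ℂ)} : Set ℂ) := by
  have h0 : inst = L.algebra' := Subsingleton.elim _ _
  subst h0
  have h1 : L.val w ∈ (@IntermediateField.adjoin ℚ _ L _ L.algebra' ({u, x} : Set L)).map L.val :=
    ⟨w, h, rfl⟩
  rw [IntermediateField.adjoin_map, Set.image_pair] at h1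
  exact h1

private theorem int_of_pow {y : ℂ} {p b : ℕ} (hp : 0 < p) (h : y ^ p = (b : ℂ)) : IsIntegral ℤ y := by
  refine IsIntegral.of_pow hp ?_
  rw [h]
  have h0 := isIntegral_algebraMap (R := ℤ) (A := ℂ) (x := (b : ℤ))
  simpa using h0

theorem des (p b : ℕ) [Fact p.Prime] (hp3 : 3 ≤ p) (hb : 2 ≤ b) (hb' : ∀ r : ℕ, r ^ p ≠ b) (N : ℕ) (hN : 0 < N) (hpN : p ∣ N)
    (ζ x α : ℂ) (hζ : IsPrimitiveRoot ζ N) (hx : x ^ p = (b : ℂ)) (hα : α ∈ IntermediateField.adjoin ℚ ({ζ, x} : Set ℂ))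
    (hi : IsIntegral ℤ α) (h0 : α ≠ 0) (hm : Pool.H22.Lh.meanC (fun z => ‖z‖ ^ 2) α ≤ 21 / 20) :
    ∃ (N' : ℕ) (ζ' ξ : ℂ) (k : ℕ), 0 < N' ∧ p ∣ N' ∧ (∀ l ∈ N'.primeFactors, l ∣ p * b) ∧ IsPrimitiveRoot ζ' N' ∧ 0 < k ∧ ξ ^ k = 1 ∧
      ξ * α ∈ IntermediateField.adjoin ℚ ({ζ', x} : Set ℂ) := by
  have hp : p.Prime := Fact.out
  have hxi : IsIntegral ℤ x := int_of_pow hp.pos hx
  induction N using Nat.strong_induction_on generalizing ζ α with
  | _ N ih =>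
    by_cases hall : ∀ l ∈ N.primeFactors, l ∣ p * b
    · exact ⟨N, ζ, 1, 1, hN, hpN, hall, hζ, one_pos, one_pow 1, by rwa [one_mul]⟩
    · push Not at hall
      obtain ⟨ℓ, hℓN, hℓb⟩ := hall
      have hℓ : ℓ.Prime := Nat.prime_of_mem_primeFactors hℓN
      have hdvd : ℓ ∣ N := Nat.dvd_of_mem_primeFactors hℓN
      haveI : NeZero N := ⟨hN.ne'⟩
      have hζi : IsIntegral ℤ ζ := int_of_pow (b := 1) hN (by rw [hζ.pow_eq_one]; simp)
      have hNF := number_field_pair hζi hxi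
      set L := IntermediateField.adjoin ℚ ({ζ, x} : Set ℂ) with hL
      have hmζ : ζ ∈ L := IntermediateField.subset_adjoin _ _ (by simp)
      have hmx : x ∈ L := IntermediateField.subset_adjoin _ _ (by simp)
      have hprim : IsPrimitiveRoot (⟨ζ, hmζ⟩ : L) N := by
        have h2 : IsPrimitiveRoot ((algebraMap L ℂ) ⟨ζ, hmζ⟩) N := hζ
        exact IsPrimitiveRoot.of_map_of_injective h2 (algebraMap L ℂ).injective
      have hxL : (⟨x, hmx⟩ : L) ^ p = ((b : ℕ) : L) := by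
        apply Subtype.ext
        simpa using hx
      obtain ⟨D, hDz, hDx⟩ := exists_dat (p := p) (N := N) (b := b) (F := L) hp3 hb hb' hpN
        ⟨ζ, hmζ⟩ ⟨x, hmx⟩ hprim hxL (pair_top L hL hmζ hmx _)
      set a : L := ⟨α, hα⟩ with ha
      have hai : IsIntegral ℤ a := by
        have hinj : Function.Injective (algebraMap L ℂ) := (algebraMap L ℂ).injective
        exact (isIntegral_algebraMap_iff hinj).1 hi
      have ha0 : a ≠ 0 := fun h => h0 (congrArg Subtype.val h)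
      have hfr : (Module.finrank ℚ L : ℝ) = Fintype.card ((ZMod N)ˣ × ZMod p) := by
        have h3 : Fintype.card (L →+* ℂ) = Module.finrank ℚ L := NumberField.Embeddings.card L ℂ
        have h4 : Fintype.card ((ZMod N)ˣ × ZMod p) = Fintype.card (L →+* ℂ) :=
          Fintype.card_of_bijective D.he
        rw [h4, h3]
      have hE : ∑ st : (ZMod N)ˣ × ZMod p, ‖D.e st a‖ ^ 2 ≤
          21 / 20 * Fintype.card ((ZMod N)ˣ × ZMod p) := by
        have h3 := Pool.H22.Lh.meanC_eq L a (fun z => ‖z‖ ^ 2)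
        have h4 : ∑ st : (ZMod N)ˣ × ZMod p, ‖D.e st a‖ ^ 2 = ∑ τ : L →+* ℂ, ‖τ a‖ ^ 2 :=
          Function.Bijective.sum_comp D.he (fun σ : L →+* ℂ => ‖σ a‖ ^ 2)
        rw [h4, h3, hfr, mul_comm]
        exact mul_le_mul_of_nonneg_right hm (Nat.cast_nonneg _)
      obtain ⟨k, hk⟩ : ∃ k : ℕ, D.z ^ k * a ∈
          IntermediateField.adjoin ℚ ({D.z ^ ℓ, D.x} : Set L) := by
        by_cases h2 : ℓ ^ 2 ∣ N
        · exact dsq D ℓ hℓ h2 hℓb a hai ha0 hE
        · exact done D ℓ hℓ hdvd h2 hℓb a hai ha0 hE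
      rw [hDz, hDx] at hk
      have hk' : ζ ^ k * α ∈ IntermediateField.adjoin ℚ ({ζ ^ ℓ, x} : Set ℂ) := by
        have h3 := mem_down _ _ _ _ hk
        simpa using h3
      obtain ⟨M, hM⟩ := hdvd
      have hM0 : 0 < M := by
        rcases Nat.eq_zero_or_pos M with h | h
        · rw [h, mul_zero] at hM; omega
        · exact h
      have hMN : M < N := by
        rw [hM]
        have := hℓ.two_le
        nlinarith
      have hpℓ : ¬ p ∣ ℓ := by
        intro h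
        have h3 : p = ℓ := (Nat.prime_dvd_prime_iff_eq hp hℓ).1 h
        exact hℓb (h3 ▸ Dvd.intro b rfl)
      have hpM : p ∣ M := by
        rw [hM] at hpN
        exact (hp.dvd_mul.1 hpN).resolve_left hpℓ
      have hζM : IsPrimitiveRoot (ζ ^ ℓ) M := hζ.pow hN hM
      have hζN : (ζ ^ k) ^ N = 1 := by
        rw [← pow_mul, mul_comm, pow_mul, hζ.pow_eq_one, one_pow]
      have hζ0 : ζ ≠ 0 := hζ.ne_zero hN.ne'
      have hm' : Pool.H22.Lh.meanC (fun z => ‖z‖ ^ 2) (ζ ^ k * α) ≤ 21 / 20 := by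
        rw [Pool.H22.Lh.mean_root α (ζ ^ k) hi.tower_top N hN hζN (fun t => t ^ 2)]
        exact hm
      obtain ⟨N', ζ', ξ, m, hN', hpN', hall', hζ', hm0, hξ, hmem⟩ := ih M hMN hM0 hpM (ζ ^ ℓ)
        (ζ ^ k * α) hζM hk' ((hζi.pow k).mul hi) (mul_ne_zero (pow_ne_zero k hζ0) h0) hm'
      refine ⟨N', ζ', ξ * ζ ^ k, m * N, hN', hpN', hall', hζ', Nat.mul_pos hm0 hN, ?_, ?_⟩
      · rw [mul_pow, pow_mul, hξ, one_pow, one_mul, mul_comm m N, pow_mul, hζN, one_pow]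
      · rw [mul_assoc]
        exact hmem

end Pool.Agent.H61.WN
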