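import Pool.Agent.H61.WN.Def

/-!
# [H61 WN Ex] THEOREM WN: existence of `Dat`

Copy of `Pool/Agent/H84/WI/Ex.lean` with `N` in place of `p` for the root of unity (`φ ζ = ch s`, `s : (ZMod N)ˣ`, because `φ ζ` is a primitive
`N`-th root of unity). Only the degree is new: `[F:ℚ] ≥ φ(N) p` (then the injection of the embeddings in `(ZMod N)ˣ × ZMod p` is bijective).
Let `L = ℚ(ζ)`, of degree `φ(N)` (`Polynomial.cyclotomic_eq_minpoly_rat`), Galois over `ℚ` with abelian group (`IsCyclotomicExtension`). `X^p - b` is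
irreducible over `L` (`X_pow_sub_C_irreducible_of_prime`: it is enough that `b` is no `p`-th power in `L`). Suppose `y^p = b`, `y ∈ L`. `ℚ(y)/ℚ` has
degree `p` (`X^p - b` is irreducible over `ℚ`, by `hb'` and the rational root theorem: see `no_root` there) and is Galois (all subfields of an abelian
extension are), so it contains a root of unity `≠ 1` of order `p` (quotient of two roots of `X^p - b`), of degree `p - 1` over `ℚ`; `p - 1` does not
divide `p` as `p ≥ 3`. Contradiction. So `[F:ℚ] = [L(x):L][L:ℚ] = p φ(N)` (`F = L(x)`, `adjoin = ⊤`), or use `minpoly` degrees only.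
-/

set_option autoImplicit false

namespace Pool.Agent.H61.WN

open Finset

variable {p N b : ℕ} [Fact p.Prime] [NeZero N] {F : Type} [Field F] [NumberField F]

private theorem ch_root (M : ℕ) [NeZero M] {w : ℂ} (hw : w ^ M = 1) : ∃ a : ZMod M, w = ch a := by
  have h1 : IsPrimitiveRoot (ch (1 : ZMod M)) M := by
    refine IsPrimitiveRoot.mk_of_lt _ (Nat.pos_of_ne_zero (NeZero.ne M)) ?_ fun l hl hlM h => ?_
    · rw [ch_pow, CharP.cast_eq_zero, zero_mul, ch_zero]
    · rw [ch_pow, mul_one] at h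
      have h2 := ch_eq_one h
      rw [ZMod.natCast_eq_zero_iff] at h2
      exact absurd (Nat.le_of_dvd hl h2) (not_le.2 hlM)
  obtain ⟨i, -, hi⟩ := h1.eq_pow_of_pow_eq_one hw
  refine ⟨(i : ZMod M), ?_⟩
  rw [← hi, ch_pow, mul_one]

private theorem no_root (hb' : ∀ r : ℕ, r ^ p ≠ b) (r : ℚ) : r ^ p ≠ (b : ℚ) := by
  intro h
  have hp : p.Prime := Fact.out
  have h1 : IsIntegral ℤ r := by
    refine ⟨Polynomial.X ^ p - Polynomial.C (b : ℤ), Polynomial.monic_X_pow_sub_C _ hp.ne_zero, ?_⟩
    rw [Polynomial.eval₂_sub, Polynomial.eval₂_X_pow, Polynomial.eval₂_C, h, eq_intCast, Int.cast_natCast,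
      sub_self]
  obtain ⟨y, hy⟩ := IsIntegrallyClosed.isIntegral_iff.1 h1
  have h2 : y ^ p = (b : ℤ) := by
    have h3 : ((y ^ p : ℤ) : ℚ) = ((b : ℤ) : ℚ) := by
      rw [Int.cast_pow, Int.cast_natCast, ← h, ← hy]
      rfl
    exact_mod_cast h3
  have h4 : y.natAbs ^ p = b := by
    rw [← Int.natAbs_pow, h2, Int.natAbs_natCast]
  exact hb' _ h4

/-- a `p`-th root of `b` in an abelian extension forces a root of unity in the field which it generates -/
private theorem deg_dvd {K L : Type} [Field K] [Field L] [Algebra K L] [FiniteDimensional K L]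
    (hL : IsAbelianGalois K L) {w y : L} {c : K} (hc : c ≠ 0) (hw : w ^ p = 1)
    (hirr : Irreducible (Polynomial.X ^ p - Polynomial.C c)) (hy : y ^ p = algebraMap K L c) :
    (minpoly K w).natDegree ∣ p := by
  have hp : p.Prime := Fact.out
  have hmin : Polynomial.X ^ p - Polynomial.C c = minpoly K y :=
    minpoly.eq_of_irreducible_of_monic (A := K) (x := y) hirr (by
        rw [map_sub, map_pow, Polynomial.aeval_X, Polynomial.aeval_C, hy, sub_self])
      (Polynomial.monic_X_pow_sub_C _ hp.ne_zero)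
  have hy0 : y ≠ 0 := by
    intro h
    rw [h, zero_pow hp.ne_zero] at hy
    exact hc ((algebraMap K L).injective (by rw [map_zero]; exact hy.symm))
  have : IsGalois K L := hL.toIsGalois
  have : Normal K L := IsGalois.to_normal
  obtain ⟨σ, hσ⟩ := minpoly.exists_algEquiv_of_root' (K := K) (L := L) (x := w * y) (y := y)
    (IsAlgebraic.of_finite K y) (by
      rw [← hmin, map_sub, map_pow, Polynomial.aeval_X, Polynomial.aeval_C, mul_pow, hw, hy,
        one_mul, sub_self])
  have : IsAbelianGalois K (IntermediateField.adjoin K {y}) := inferInstance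
  have : Normal K (IntermediateField.adjoin K ({y} : Set L)) := IsGalois.to_normal
  have h1 := (IntermediateField.normal_iff_forall_map_le' (K := IntermediateField.adjoin K ({y} : Set L))).1
    inferInstance σ
  have hym : y ∈ IntermediateField.adjoin K ({y} : Set L) := IntermediateField.mem_adjoin_simple_self K y
  have h2 : w * y ∈ IntermediateField.adjoin K ({y} : Set L) := h1 ⟨y, hym, hσ⟩
  have h3 : w ∈ IntermediateField.adjoin K ({y} : Set L) := by
    have h4 := mul_mem h2 (inv_mem hym)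
    rwa [mul_assoc, mul_inv_cancel₀ hy0, mul_one] at h4
  have h7 := minpoly.degree_dvd (K := K) (IsIntegral.of_finite K
    (⟨w, h3⟩ : IntermediateField.adjoin K ({y} : Set L)))
  rw [IntermediateField.adjoin.finrank (IsIntegral.of_finite K y), ← hmin,
    Polynomial.natDegree_X_pow_sub_C, IntermediateField.minpoly_eq] at h7
  exact h7

theorem exists_dat (hp3 : 3 ≤ p) (hb : 2 ≤ b) (hb' : ∀ r : ℕ, r ^ p ≠ b) (hpN : p ∣ N) (ζ x : F)
    (hζ : IsPrimitiveRoot ζ N) (hx : x ^ p = (b : F))
    (htop : IntermediateField.adjoin ℚ ({ζ, x} : Set F) = ⊤) :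
    ∃ D : Dat p N b F, D.z = ζ ∧ D.x = x := by
  classical
  have hp : p.Prime := Fact.out
  have hN0 : 0 < N := Nat.pos_of_ne_zero (NeZero.ne N)
  have hb0 : (0 : ℝ) ≤ b := Nat.cast_nonneg b
  have hb1 : (1 : ℝ) ≤ b := by exact_mod_cast (by omega : 1 ≤ b)
  obtain ⟨ρ, hρ1, hρp⟩ : ∃ ρ : ℝ, 1 ≤ ρ ∧ ρ ^ p = b := by
    refine ⟨(b : ℝ) ^ ((p : ℝ)⁻¹), Real.one_le_rpow hb1 (by positivity), ?_⟩
    exact Real.rpow_inv_natCast_pow hb0 hp.ne_zero
  have hρ0 : (ρ : ℂ) ≠ 0 := by
    rw [Ne, Complex.ofReal_eq_zero]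
    exact (zero_lt_one.trans_le hρ1).ne'
  have hρc : (ρ : ℂ) ^ p = (b : ℂ) := by
    rw [← Complex.ofReal_pow, hρp, Complex.ofReal_natCast]
  -- the labels of an embedding
  have hs : ∀ φ : F →+* ℂ, ∃ s : (ZMod N)ˣ, φ ζ = ch (s : ZMod N) := by
    intro φ
    obtain ⟨a, ha⟩ := ch_root N (w := φ ζ) (by rw [← map_pow, hζ.pow_eq_one, map_one])
    have h1 : IsPrimitiveRoot (φ ζ) N := hζ.map_of_injective φ.injective
    have h2 : Nat.Coprime a.val N := by
      have h3 : IsPrimitiveRoot (ch (1 : ZMod N)) N := by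
        refine IsPrimitiveRoot.mk_of_lt _ hN0 ?_ fun l hl hlM h => ?_
        · rw [ch_pow, CharP.cast_eq_zero, zero_mul, ch_zero]
        · rw [ch_pow, mul_one] at h
          have h2 := ch_eq_one h
          rw [ZMod.natCast_eq_zero_iff] at h2
          exact absurd (Nat.le_of_dvd hl h2) (not_le.2 hlM)
      have h4 : φ ζ = ch (1 : ZMod N) ^ a.val := by
        rw [ch_pow, mul_one, ZMod.natCast_zmod_val, ha]
      rw [h4] at h1
      exact (h3.pow_iff_coprime hN0 a.val).1 h1
    refine ⟨ZMod.unitOfCoprime a.val h2, ?_⟩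
    rw [ZMod.coe_unitOfCoprime, ZMod.natCast_zmod_val, ha]
  have ht : ∀ φ : F →+* ℂ, ∃ t : ZMod p, φ x = (ρ : ℂ) * ch t := by
    intro φ
    obtain ⟨a, ha⟩ := ch_root p (w := φ x / ρ) (by
      rw [div_pow, ← map_pow, hx, hρc, map_natCast, div_self]
      exact_mod_cast (by omega : b ≠ 0))
    exact ⟨a, by rw [← ha, mul_div_cancel₀ _ hρ0]⟩
  choose S hS using hs
  choose U hU using ht
  have hinj : Function.Injective fun φ : F →+* ℂ => (S φ, U φ) := by
    intro φ φ' h
    have h1 : S φ = S φ' := congrArg Prod.fst h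
    have h2 : U φ = U φ' := congrArg Prod.snd h
    have h3 : φ ζ = φ' ζ := by rw [hS, hS, h1]
    have h4 : φ x = φ' x := by rw [hU, hU, h2]
    have h5 : (⊤ : IntermediateField ℚ F) ≤ Subfield.toIntermediateField (φ.eqLocusField φ') (fun q => by
        rw [RingHom.mem_eqLocusField, eq_ratCast, map_ratCast, map_ratCast]) := by
      rw [← htop, IntermediateField.adjoin_le_iff]
      rintro y hy
      rcases hy with rfl | rfl
      · exact h3
      · exact h4
    refine RingHom.ext fun y => ?_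
    exact h5 (IntermediateField.mem_top (x := y))
  -- the degree
  have hd : Nat.totient N * p ≤ Module.finrank ℚ F := by
    have hcyc : IsCyclotomicExtension {N} ℚ (IntermediateField.adjoin ℚ ({ζ} : Set F)) :=
      hζ.intermediateField_adjoin_isCyclotomicExtension ℚ
    have hab : IsAbelianGalois ℚ (IntermediateField.adjoin ℚ ({ζ} : Set F)) :=
      IsCyclotomicExtension.isAbelianGalois {N} ℚ _
    obtain ⟨m, hm⟩ := hpN
    have hζm : ζ ∈ IntermediateField.adjoin ℚ ({ζ} : Set F) := IntermediateField.mem_adjoin_simple_self ℚ ζ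
    have hζ' : IsPrimitiveRoot (⟨ζ, hζm⟩ : IntermediateField.adjoin ℚ ({ζ} : Set F)) N :=
      IsPrimitiveRoot.of_map_of_injective (f := (IntermediateField.adjoin ℚ ({ζ} : Set F)).val) hζ
        (IntermediateField.adjoin ℚ ({ζ} : Set F)).val.injective
    have hw : IsPrimitiveRoot ((⟨ζ, hζm⟩ : IntermediateField.adjoin ℚ ({ζ} : Set F)) ^ m) p :=
      hζ'.pow hN0 (by rw [hm, mul_comm])
    have hirr := X_pow_sub_C_irreducible_of_prime hp
      (a := ((b : ℕ) : IntermediateField.adjoin ℚ ({ζ} : Set F))) (fun r hr => by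
        have h5 := deg_dvd (p := p) hab (c := (b : ℚ)) (by exact_mod_cast (by omega : b ≠ 0)) hw.pow_eq_one
          (X_pow_sub_C_irreducible_of_prime hp (a := (b : ℚ)) (fun r => no_root hb' r))
          (y := r) (by rw [hr, map_natCast])
        have h6 := minpoly.algHom_eq (IntermediateField.adjoin ℚ ({ζ} : Set F)).val
          (IntermediateField.adjoin ℚ ({ζ} : Set F)).val.injective
          ((⟨ζ, hζm⟩ : IntermediateField.adjoin ℚ ({ζ} : Set F)) ^ m)
        replace h5 : (minpoly ℚ (ζ ^ m)).natDegree ∣ p :=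
          (dvd_of_eq (congrArg Polynomial.natDegree h6)).trans h5
        rw [← Polynomial.cyclotomic_eq_minpoly_rat (hζ.pow hN0 (by
          rw [hm, mul_comm]) : IsPrimitiveRoot (ζ ^ m) p) hp.pos, Polynomial.natDegree_cyclotomic,
          Nat.totient_prime hp] at h5
        rcases (Nat.dvd_prime hp).1 h5 with h8 | h8 <;> omega)
    have hmin := minpoly.eq_of_irreducible_of_monic (A := IntermediateField.adjoin ℚ ({ζ} : Set F)) (x := x)
      hirr (by
        rw [map_sub, map_pow, Polynomial.aeval_X, Polynomial.aeval_C, hx, map_natCast, sub_self])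
      (Polynomial.monic_X_pow_sub_C _ hp.ne_zero)
    have h2 := minpoly.degree_dvd (K := IntermediateField.adjoin ℚ ({ζ} : Set F))
      (IsIntegral.of_finite (IntermediateField.adjoin ℚ ({ζ} : Set F)) x)
    rw [← hmin, Polynomial.natDegree_X_pow_sub_C] at h2
    have h3 : Module.finrank ℚ (IntermediateField.adjoin ℚ ({ζ} : Set F)) = Nat.totient N := by
      rw [IntermediateField.adjoin.finrank (IsIntegral.of_finite ℚ ζ),
        ← Polynomial.cyclotomic_eq_minpoly_rat hζ hN0, Polynomial.natDegree_cyclotomic]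
    rw [← Module.finrank_mul_finrank ℚ (IntermediateField.adjoin ℚ ({ζ} : Set F)) F, h3]
    exact Nat.mul_le_mul le_rfl (Nat.le_of_dvd Module.finrank_pos h2)
  have hbij : Function.Bijective fun φ : F →+* ℂ => (S φ, U φ) := by
    rw [Fintype.bijective_iff_injective_and_card]
    refine ⟨hinj, ?_⟩
    refine le_antisymm (Fintype.card_le_of_injective _ hinj) ?_
    rw [NumberField.Embeddings.card F ℂ, Fintype.card_prod, ZMod.card_units_eq_totient, ZMod.card]
    exact hd
  obtain ⟨E, hE⟩ : ∃ E : (F →+* ℂ) ≃ (ZMod N)ˣ × ZMod p, ∀ φ, E φ = (S φ, U φ) :=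
    ⟨Equiv.ofBijective _ hbij, fun _ => rfl⟩
  have hE1 : ∀ st, S (E.symm st) = st.1 := fun st => by
    have h1 := hE (E.symm st)
    rw [E.apply_symm_apply] at h1
    exact (congrArg Prod.fst h1).symm
  have hE2 : ∀ st, U (E.symm st) = st.2 := fun st => by
    have h1 := hE (E.symm st)
    rw [E.apply_symm_apply] at h1
    exact (congrArg Prod.snd h1).symm
  refine ⟨{ z := ζ, x := x, ρ := ρ, hpN := hpN, hz := hζ.pow_eq_one, hx := hx, hρ := hρ1, hρp := hρp,
            e := fun st => E.symm st, he := E.symm.bijective,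
            ez := fun s t => by rw [hS, hE1], ex := fun s t => by rw [hU, hE2] }, rfl, rfl⟩

end Pool.Agent.H61.WN
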