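import Mathlib

/-!
# [H61 WN Num] THEOREM WN: the arithmetic of the last step

`T = B^p b^(2j)`, `B` a positive rational number, `T` a natural number with `log T < 2 p c`: then `T^k = b^l` for some `k > 0`, `l`.
PROOF. `c := log 2 / (4 (Nat.log 2 b + 1))` or similar. Let `ℓ, ℓ'` be primes, `v` the valuations (`padicValRat`, `padicValNat`, `Nat.factorization`):
`v_ℓ(T) v_ℓ'(b) - v_ℓ'(T) v_ℓ(b) = p (v_ℓ(B) v_ℓ'(b) - v_ℓ'(B) v_ℓ(b))` is divisible by `p`, and `0 ≤ v_ℓ(T) ≤ log T / log 2 < 2 p c / log 2`, `v_ℓ(b) ≤ log_2 b`: its absolute value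
is `< p`, so it is `0`. Fix a prime `ℓ'` of `b`: `v_ℓ(T) v_ℓ'(b) = v_ℓ'(T) v_ℓ(b)` for all `ℓ`: `T^(v_ℓ'(b)) = b^(v_ℓ'(T))` (`Nat.eq_of_factorization_eq`).
-/

set_option autoImplicit false

namespace Pool.Agent.H61.WN

private theorem fact_log (T l : ℕ) (hT : T ≠ 0) : (T.factorization l : ℝ) * Real.log 2 ≤ Real.log T := by
  by_cases hl : l.Prime
  · have h1 : 2 ^ (T.factorization l) ≤ T :=
      (Nat.pow_le_pow_left hl.two_le _).trans (Nat.ordProj_le l hT)
    have h2 : ((2 : ℝ) ^ (T.factorization l)) ≤ (T : ℝ) := by exact_mod_cast h1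
    have h3 := Real.log_le_log (by positivity) h2
    rwa [Real.log_pow] at h3
  · rw [Nat.factorization_eq_zero_of_not_prime T hl]
    have : (1 : ℝ) ≤ (T : ℝ) := by exact_mod_cast Nat.one_le_iff_ne_zero.2 hT
    simpa using Real.log_nonneg this

private theorem fact_le (b l : ℕ) (hb : b ≠ 0) : b.factorization l ≤ Nat.log 2 b := by
  by_cases hl : l.Prime
  · exact Nat.le_log_of_pow_le (by norm_num) ((Nat.pow_le_pow_left hl.two_le _).trans (Nat.ordProj_le l hb))
  · rw [Nat.factorization_eq_zero_of_not_prime b hl]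
    exact Nat.zero_le _

theorem num (b : ℕ) (hb : 2 ≤ b) : ∃ c : ℝ, 0 < c ∧ ∀ (p j T : ℕ) (B : ℚ), p.Prime → 0 < B → (T : ℚ) = B ^ p * (b : ℚ) ^ (2 * j) →
    Real.log T < 2 * p * c → ∃ k l : ℕ, 0 < k ∧ T ^ k = b ^ l := by
  have hl2 : 0 < Real.log 2 := Real.log_pos (by norm_num)
  refine ⟨Real.log 2 / (4 * ((Nat.log 2 b : ℝ) + 1)), by positivity, ?_⟩
  intro p j T B hp hB hT hlog
  have hb0 : b ≠ 0 := by omega
  have hbq : (0 : ℚ) < (b : ℚ) := by exact_mod_cast Nat.pos_of_ne_zero hb0
  have hTq : (0 : ℚ) < (T : ℚ) := by rw [hT]; positivity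
  have hT0 : T ≠ 0 := by
    rintro rfl
    simp at hTq
  -- write B = n / d
  obtain ⟨n, hn⟩ : ∃ n : ℕ, B.num = (n : ℤ) := ⟨B.num.toNat, (Int.toNat_of_nonneg (Rat.num_pos.2 hB).le).symm⟩
  have hn0 : n ≠ 0 := by
    rintro rfl
    have := Rat.num_pos.2 hB
    rw [hn] at this
    simp at this
  have hd0 : B.den ≠ 0 := B.den_nz
  have hBnd : B = (n : ℚ) / (B.den : ℚ) := by
    conv_lhs => rw [← Rat.num_div_den B, hn]
    simp
  have hkey : T * B.den ^ p = n ^ p * b ^ (2 * j) := by
    have hdq : (B.den : ℚ) ≠ 0 := by exact_mod_cast hd0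
    have : (T : ℚ) * (B.den : ℚ) ^ p = (n : ℚ) ^ p * (b : ℚ) ^ (2 * j) := by
      rw [hT]
      conv_lhs => rw [show B ^ p = ((n : ℚ) / (B.den : ℚ)) ^ p by rw [← hBnd]]
      rw [div_pow]
      field_simp
    exact_mod_cast this
  have hfac : ∀ l : ℕ, (T.factorization l : ℤ) + p * (B.den.factorization l : ℤ) =
      p * (n.factorization l : ℤ) + 2 * j * (b.factorization l : ℤ) := by
    intro l
    have h := congrArg (fun m : ℕ => m.factorization l) hkey
    rw [Nat.factorization_mul hT0 (pow_ne_zero _ hd0), Nat.factorization_mul (pow_ne_zero _ hn0) (pow_ne_zero _ hb0),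
      Nat.factorization_pow, Nat.factorization_pow, Nat.factorization_pow] at h
    simp only [Finsupp.add_apply, Finsupp.smul_apply, smul_eq_mul] at h
    exact_mod_cast h
  have hp0 : (0 : ℝ) < p := by exact_mod_cast hp.pos
  have hbd : ∀ l m : ℕ, (T.factorization l : ℝ) * (b.factorization m : ℝ) < p := by
    intro l m
    have h1 := fact_log T l hT0
    have h2 : (b.factorization m : ℝ) ≤ (Nat.log 2 b : ℝ) := by exact_mod_cast fact_le b m hb0
    set L : ℝ := (Nat.log 2 b : ℝ) with hL
    have hL0 : 0 ≤ L := by positivity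
    have h3 : (T.factorization l : ℝ) * Real.log 2 < p * Real.log 2 / (2 * (L + 1)) := by
      refine lt_of_le_of_lt h1 (lt_of_lt_of_eq hlog ?_)
      field_simp
      ring
    have h4 : (T.factorization l : ℝ) < p / (2 * (L + 1)) := by
      have h5 : (T.factorization l : ℝ) * Real.log 2 < (p / (2 * (L + 1))) * Real.log 2 := by
        refine lt_of_lt_of_eq h3 ?_
        ring
      exact lt_of_mul_lt_mul_right h5 hl2.le
    have h6 : (T.factorization l : ℝ) * (b.factorization m : ℝ) ≤ (T.factorization l : ℝ) * (L + 1) :=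
      mul_le_mul_of_nonneg_left (by linarith) (by positivity)
    have h7 : (T.factorization l : ℝ) * (L + 1) < p / (2 * (L + 1)) * (L + 1) :=
      mul_lt_mul_of_pos_right h4 (by linarith)
    have h8 : p / (2 * (L + 1)) * (L + 1) = (p : ℝ) / 2 := by
      field_simp
    linarith
  have hcross : ∀ l m : ℕ, T.factorization l * b.factorization m = T.factorization m * b.factorization l := by
    intro l m
    have e1 := hfac l
    have e2 := hfac m
    have hdiv : (p : ℤ) ∣ (T.factorization l : ℤ) * (b.factorization m : ℤ) - (T.factorization m : ℤ) * (b.factorization l : ℤ) := by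
      refine ⟨((n.factorization l : ℤ) - (B.den.factorization l : ℤ)) * (b.factorization m : ℤ) -
        ((n.factorization m : ℤ) - (B.den.factorization m : ℤ)) * (b.factorization l : ℤ), ?_⟩
      have e1' : (T.factorization l : ℤ) = p * (n.factorization l : ℤ) + 2 * j * (b.factorization l : ℤ) - p * (B.den.factorization l : ℤ) := by
        linarith
      have e2' : (T.factorization m : ℤ) = p * (n.factorization m : ℤ) + 2 * j * (b.factorization m : ℤ) - p * (B.den.factorization m : ℤ) := by
        linarith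
      rw [e1', e2']
      ring
    have b1 : T.factorization l * b.factorization m < p := by exact_mod_cast hbd l m
    have b2 : T.factorization m * b.factorization l < p := by exact_mod_cast hbd m l
    have hz : (T.factorization l : ℤ) * (b.factorization m : ℤ) - (T.factorization m : ℤ) * (b.factorization l : ℤ) = 0 := by
      refine Int.eq_zero_of_abs_lt_dvd hdiv ?_
      have c1 : ((T.factorization l * b.factorization m : ℕ) : ℤ) < p := by exact_mod_cast b1
      have c2 : ((T.factorization m * b.factorization l : ℕ) : ℤ) < p := by exact_mod_cast b2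
      have c3 : (0 : ℤ) ≤ ((T.factorization l * b.factorization m : ℕ) : ℤ) := by positivity
      have c4 : (0 : ℤ) ≤ ((T.factorization m * b.factorization l : ℕ) : ℤ) := by positivity
      push_cast at c1 c2 c3 c4
      rw [abs_lt]
      constructor <;> linarith
    have : (T.factorization l : ℤ) * (b.factorization m : ℤ) = (T.factorization m : ℤ) * (b.factorization l : ℤ) := by linarith
    exact_mod_cast this
  have hmp : (b.minFac).Prime := Nat.minFac_prime (by omega)
  have hpos : 0 < b.factorization b.minFac := hmp.factorization_pos_of_dvd hb0 (Nat.minFac_dvd b)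
  refine ⟨b.factorization b.minFac, T.factorization b.minFac, hpos, ?_⟩
  refine Nat.eq_of_factorization_eq (pow_ne_zero _ hT0) (pow_ne_zero _ hb0) ?_
  intro l
  rw [Nat.factorization_pow, Nat.factorization_pow]
  simp only [Finsupp.smul_apply, smul_eq_mul]
  have := hcross l b.minFac
  rw [mul_comm, this]

end Pool.Agent.H61.WN
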