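import Pool.Agent.H61.WN.Abl
import Pool.Agent.H61.WN.Num

/-!
# [H61 WN Lst] THEOREM WN: the last step

`a = A x^j`, `A^2 = B u` (`abl`). `(a^2)^p = B^p u^p b^(2j)`; `q := B^p b^(2j)` is a positive rational number, `(a^(2p))^k = q^k` is integral, so `q` is (`IsIntegral.of_pow`),
`q = T` a natural number, `T ≥ 1`. `‖e a‖^(2p) = T` for all embeddings, so `∑ log^+ ‖e a‖ = card (log T)/(2p)` and `log T < 2 p c`. `num`: `T^k' = b^l`: `a^(2 p k k') = b^(l k)`.
-/

set_option autoImplicit false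

namespace Pool.Agent.H61.WN

open Finset

theorem lst (b : ℕ) (hb : 2 ≤ b) : ∃ c : ℝ, 0 < c ∧ ∀ (p N : ℕ) [Fact p.Prime] [NeZero N] (F : Type) [Field F] [NumberField F]
    (D : Dat p N b F) (A : F) (j : ZMod p), D.isA A → IsIntegral ℤ (A * D.x ^ j.val) → A ≠ 0 →
    ∑ st : (ZMod N)ˣ × ZMod p, Real.posLog ‖D.e st (A * D.x ^ j.val)‖ < c * Fintype.card ((ZMod N)ˣ × ZMod p) →
    ∃ k l : ℕ, 0 < k ∧ (A * D.x ^ j.val) ^ k = (b : F) ^ l := by
  obtain ⟨c1, hc1, h1⟩ := abl
  obtain ⟨c2, hc2, h2⟩ := num b hb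
  refine ⟨min c1 c2, lt_min hc1 hc2, fun p N _ _ F _ _ D A j hA haint hA0 hs => ?_⟩
  have hp : p.Prime := Fact.out
  have hcard : (0 : ℝ) < Fintype.card ((ZMod N)ˣ × ZMod p) := by
    exact_mod_cast Fintype.card_pos
  obtain ⟨B, u, k, hB, hk, huk, hA2⟩ := h1 p N b F D A j hA haint hA0 (D.x_ne_zero (by omega))
    (lt_of_lt_of_le hs (mul_le_mul_of_nonneg_right (min_le_left _ _) hcard.le))
  set a : F := A * D.x ^ j.val with ha
  set q : ℚ := B ^ p * (b : ℚ) ^ (2 * j.val) with hq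
  have hqpos : 0 < q := by
    have : (0 : ℚ) < (b : ℚ) := by exact_mod_cast (by omega : 0 < b)
    positivity
  -- `a^(2pk) = q^k`
  have e1 : a ^ (2 * p * k) = ((q : ℚ) : F) ^ k := by
    have e2 : a ^ 2 = ((B : ℚ) : F) * u * D.x ^ (2 * j.val) := by
      rw [ha, mul_pow, hA2, ← pow_mul, mul_comm j.val 2]
    have e3 : (D.x ^ (2 * j.val)) ^ p = (b : F) ^ (2 * j.val) := by
      rw [← pow_mul, mul_comm, pow_mul, D.hx]
    rw [pow_mul, pow_mul, e2, mul_pow, mul_pow, e3, mul_pow, mul_pow, ← pow_mul u, mul_comm p k, pow_mul u, huk,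
      one_pow, mul_one, ← mul_pow, hq]
    push_cast
    rfl
  -- `q` is a natural number
  have hqi : IsIntegral ℤ ((q : ℚ) : F) := by
    refine IsIntegral.of_pow hk ?_
    rw [← e1]
    exact haint.pow _
  have hqi' : IsIntegral ℤ q := by
    have h3 := (isIntegral_algebraMap_iff (R := ℤ) (A := ℚ) (B := F) (x := q) (algebraMap ℚ F).injective).1
    exact h3 (by simpa using hqi)
  obtain ⟨m, hm⟩ := (IsIntegrallyClosed.isIntegral_iff (R := ℤ) (K := ℚ)).1 hqi'
  have hm' : (m : ℚ) = q := by simpa using hm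
  have hmpos : 0 < m := by
    have : (0 : ℚ) < (m : ℚ) := by rw [hm']; exact hqpos
    exact_mod_cast this
  obtain ⟨T, hT⟩ : ∃ T : ℕ, (T : ℤ) = m := ⟨m.toNat, Int.toNat_of_nonneg hmpos.le⟩
  have hTq : (T : ℚ) = q := by rw [← hm', ← hT]; simp
  have hTpos : 0 < T := by
    have : (0 : ℤ) < (T : ℤ) := by rw [hT]; exact hmpos
    exact_mod_cast this
  have hqF : ((q : ℚ) : F) = (T : F) := by rw [← hTq]; push_cast; rfl
  -- the absolute values of all conjugates
  have e4 : ∀ st : (ZMod N)ˣ × ZMod p, Real.log T / (2 * p) ≤ Real.posLog ‖D.e st a‖ := by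
    intro st
    have e5 : ‖D.e st a‖ ^ (2 * p * k) = (T : ℝ) ^ k := by
      rw [← norm_pow, ← map_pow, e1, hqF, map_pow, norm_pow, map_natCast, Complex.norm_natCast]
    have e6 : ‖D.e st a‖ ^ (2 * p) = (T : ℝ) := by
      rw [pow_mul] at e5
      exact (pow_left_inj₀ (by positivity) (by positivity) hk.ne').1 e5
    have e7 : Real.log T = (2 * p : ℕ) * Real.log ‖D.e st a‖ := by
      rw [← e6, Real.log_pow]
    have e8 : Real.log T / (2 * p) = Real.log ‖D.e st a‖ := by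
      rw [e7]
      have : (p : ℝ) ≠ 0 := by exact_mod_cast hp.ne_zero
      push_cast
      field_simp
    rw [e8]
    exact le_max_right _ _
  have e9 : Real.log T / (2 * p) * Fintype.card ((ZMod N)ˣ × ZMod p) ≤
      ∑ st : (ZMod N)ˣ × ZMod p, Real.posLog ‖D.e st a‖ := by
    have := Finset.sum_le_sum (s := Finset.univ) (fun st (_ : st ∈ Finset.univ) => e4 st)
    rw [Finset.sum_const, Finset.card_univ, nsmul_eq_mul] at this
    linarith
  have e10 : Real.log T < 2 * p * c2 := by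
    have h3 : Real.log T / (2 * p) * Fintype.card ((ZMod N)ˣ × ZMod p) < c2 * Fintype.card ((ZMod N)ˣ × ZMod p) :=
      lt_of_le_of_lt e9 (lt_of_lt_of_le hs (mul_le_mul_of_nonneg_right (min_le_right _ _) hcard.le))
    have h4 := lt_of_mul_lt_mul_right h3 hcard.le
    have h5 : (0 : ℝ) < 2 * p := by
      have : (0 : ℝ) < p := by exact_mod_cast hp.pos
      linarith
    rw [div_lt_iff₀ h5] at h4
    linarith
  obtain ⟨k', l, hk', hTl⟩ := h2 p j.val T B hp hB (by rw [hTq]) e10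
  refine ⟨2 * p * k * k', l * k, ?_, ?_⟩
  · have := hp.pos
    positivity
  · rw [pow_mul, e1, hqF, ← pow_mul, mul_comm k k', pow_mul, pow_mul (b : F) l k]
    have : ((T ^ k' : ℕ) : F) = ((b ^ l : ℕ) : F) := by rw [hTl]
    push_cast at this
    rw [this]

end Pool.Agent.H61.WN
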