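import Pool.Agent.H61.WN.Ra

/-!
# [H61 WN One] THEOREM WN: exactly one row

`y_j := row a j x^j`, `a = ∑ y_j` (`inversion`), `∑_st ‖e a‖^2 = ∑_j ∑_st ‖e y_j‖^2` (`energy_rows`, `row_isA`). If `y_j ≠ 0`: `π_p y_j` is a nonzero integer, so
`∑ log ‖e(π_p y_j)‖ ≥ 0` (`sum_log_nonneg`), with `sum_log_pip`: `(p-1) ∑ log ‖e y_j‖ ≥ - card log p`, so by `log t ≤ t - 1` applied to `‖e y_j‖^2 / G`,
`G = exp(-2 log p/(p-1))`: `∑ ‖e y_j‖^2 ≥ card G ≥ 9/10 card` (copy of `row_big` in `Pool/Agent/H84/WI/Big.lean`; `hp9`). Two nonzero `y_j` would give `≥ 18/10 card`; none gives `a = 0`.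
-/

set_option autoImplicit false

namespace Pool.Agent.H61.WN

open Finset

variable {p N b : ℕ} [Fact p.Prime] [NeZero N] {F : Type} [Field F] [NumberField F]

private theorem row_big (D : Dat p N b F) (hp9 : (9 / 10 : ℝ) ≤ Real.exp (-(2 * Real.log p / (p - 1))))
    (y : F) (hy0 : y ≠ 0) (hy : IsIntegral ℤ (D.pip * y)) :
    9 / 10 * (Fintype.card ((ZMod N)ˣ × ZMod p) : ℝ) ≤
      ∑ st : (ZMod N)ˣ × ZMod p, ‖D.e st y‖ ^ 2 := by
  have hp2 : (2 : ℝ) ≤ p := by exact_mod_cast (Fact.out : p.Prime).two_le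
  have hp1 : (0 : ℝ) < (p : ℝ) - 1 := by linarith
  obtain ⟨κ, hκ⟩ : ∃ κ : ℝ, κ = (Fintype.card ((ZMod N)ˣ × ZMod p) : ℝ) := ⟨_, rfl⟩
  have hκ0 : 0 ≤ κ := by
    rw [hκ]
    exact Nat.cast_nonneg _
  obtain ⟨G, hG⟩ : ∃ G, G = Real.exp (-(2 * Real.log p / (p - 1))) := ⟨_, rfl⟩
  have hG0 : 0 < G := by
    rw [hG]
    exact Real.exp_pos _
  have hlG : Real.log G = -(2 * Real.log p / (p - 1)) := by
    rw [hG, Real.log_exp]
  have h5 : ∀ st : (ZMod N)ˣ × ZMod p, 0 < ‖D.e st y‖ := fun st =>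
    norm_pos_iff.2 fun h => hy0 ((map_eq_zero _).1 h)
  have h5' : ∀ st : (ZMod N)ˣ × ZMod p, 0 < ‖D.e st D.pip‖ := fun st =>
    norm_pos_iff.2 fun h => pip_ne_zero D ((map_eq_zero _).1 h)
  have h1 := sum_log_nonneg D (D.pip * y) hy (mul_ne_zero (pip_ne_zero D) hy0)
  have h2 : ∑ st : (ZMod N)ˣ × ZMod p, Real.log ‖D.e st (D.pip * y)‖ =
      ∑ st : (ZMod N)ˣ × ZMod p, Real.log ‖D.e st D.pip‖ +
        ∑ st : (ZMod N)ˣ × ZMod p, Real.log ‖D.e st y‖ := by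
    rw [← Finset.sum_add_distrib]
    refine Finset.sum_congr rfl fun st _ => ?_
    rw [map_mul, norm_mul, Real.log_mul (h5' st).ne' (h5 st).ne']
  rw [h2] at h1
  have h3 := sum_log_pip D
  rw [← hκ] at h3 ⊢
  have h6 : ∀ st : (ZMod N)ˣ × ZMod p,
      1 + 2 * Real.log ‖D.e st y‖ - Real.log G ≤ ‖D.e st y‖ ^ 2 * G⁻¹ := by
    intro st
    have h7 : 0 < ‖D.e st y‖ ^ 2 * G⁻¹ := mul_pos (pow_pos (h5 st) 2) (inv_pos.2 hG0)
    have h8 := Real.log_le_sub_one_of_pos h7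
    rw [Real.log_mul (pow_pos (h5 st) 2).ne' (inv_pos.2 hG0).ne', Real.log_pow, Real.log_inv] at h8
    push_cast at h8
    linarith
  have h9 := Finset.sum_le_sum fun (st : (ZMod N)ˣ × ZMod p) (_ : st ∈ univ) => h6 st
  rw [← Finset.sum_mul, Finset.sum_sub_distrib, Finset.sum_add_distrib, ← Finset.mul_sum,
    Finset.sum_const, Finset.sum_const, Finset.card_univ, nsmul_eq_mul, nsmul_eq_mul, hlG,
    ← hκ] at h9
  have h10 : κ * (2 * Real.log p / (p - 1)) =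
      2 * (κ * Real.log p) / (p - 1) := by ring
  have h11 : -(κ * Real.log p) / (p - 1) ≤ ∑ st : (ZMod N)ˣ × ZMod p, Real.log ‖D.e st y‖ := by
    rw [div_le_iff₀ hp1]
    nlinarith
  have h12 : κ ≤ (∑ st : (ZMod N)ˣ × ZMod p, ‖D.e st y‖ ^ 2) * G⁻¹ := by
    have h13 : -(κ * Real.log p) / (p - 1) = -(κ * (2 * Real.log p / (p - 1))) / 2 := by ring
    rw [h13] at h11
    linarith
  rw [← div_eq_mul_inv, le_div_iff₀ hG0] at h12
  rw [← hG] at hp9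
  nlinarith

theorem one_row (D : Dat p N b F) (hp9 : (9 / 10 : ℝ) ≤ Real.exp (-(2 * Real.log p / (p - 1)))) (a : F) (ha0 : a ≠ 0)
    (hE : ∑ st : (ZMod N)ˣ × ZMod p, ‖D.e st a‖ ^ 2 ≤ 21 / 20 * Fintype.card ((ZMod N)ˣ × ZMod p))
    (hr : ∀ j : ZMod p, IsIntegral ℤ (D.pip * (D.row a j * D.x ^ j.val))) :
    ∃ (A : F) (j : ZMod p), D.isA A ∧ a = A * D.x ^ j.val := by
  classical
  have hinv := inversion D a
  have hen := energy_rows D (fun j => D.row a j) fun j => row_isA D a j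
  rw [← hinv] at hen
  obtain ⟨κ, hκ⟩ : ∃ κ : ℝ, κ = (Fintype.card ((ZMod N)ˣ × ZMod p) : ℝ) := ⟨_, rfl⟩
  have hκ0 : 0 < κ := by
    rw [hκ]
    exact_mod_cast Fintype.card_pos
  have hbig : ∀ j, D.row a j * D.x ^ j.val ≠ 0 → 9 / 10 * κ ≤
      ∑ st : (ZMod N)ˣ × ZMod p, ‖D.e st (D.row a j * D.x ^ j.val)‖ ^ 2 := by
    intro j hj
    rw [hκ]
    exact row_big D hp9 _ hj (hr j)
  rw [← hκ] at hE
  obtain ⟨j₀, hj₀⟩ : ∃ j, D.row a j * D.x ^ j.val ≠ 0 := by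
    by_contra hno
    push Not at hno
    apply ha0
    rw [hinv]
    exact Finset.sum_eq_zero (fun j _ => hno j)
  have honly : ∀ j, j ≠ j₀ → D.row a j * D.x ^ j.val = 0 := by
    intro j hj
    by_contra hne
    have h1 := hbig j hne
    have h2 := hbig j₀ hj₀
    have h3 : ∑ j ∈ ({j, j₀} : Finset (ZMod p)),
        ∑ st : (ZMod N)ˣ × ZMod p, ‖D.e st (D.row a j * D.x ^ j.val)‖ ^ 2 ≤
        ∑ j : ZMod p, ∑ st : (ZMod N)ˣ × ZMod p, ‖D.e st (D.row a j * D.x ^ j.val)‖ ^ 2 :=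
      Finset.sum_le_sum_of_subset_of_nonneg (Finset.subset_univ _)
        (fun j _ _ => Finset.sum_nonneg (fun st _ => sq_nonneg _))
    rw [Finset.sum_pair hj, ← hen] at h3
    linarith
  refine ⟨D.row a j₀, j₀, row_isA D a j₀, ?_⟩
  conv_lhs => rw [hinv]
  rw [Finset.sum_eq_single j₀ (fun j _ hj => honly j hj)
    (fun h => absurd (Finset.mem_univ _) h)]

end Pool.Agent.H61.WN
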