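import Pool.Agent.H61.WN.Bog
import Pool.Agent.H4.RR.AbsHeight

/-!
# [H61 WN Sml] THEOREM WN: small `p`

`α ∈ ℚ(ζ, x)`, `x^p = b`, `p < p₀`: `α` has degree `≤ p₀` over `ℚ(ζ)`. Take `Ω = AlgebraicClosure ℚ` or the field of the algebraic numbers in `ℂ`
or the number field `F = ℚ(ζ, x, α) ⊂ ℂ` (`K = ℚ`), `ξ` a primitive `N'`-th root of unity with `ζ` in the group it generates (`N' = orderOf ζ`, `ξ = ζ`); `zero (K := ℚ) b p₀`,
`Sys` with `r = 0`: `deg` is `finrank (FF) = 1 * finrank (AA)`, `Set.range` of a function on `Fin 0` is empty. `dgr ≤ [ℚ(ζ)(x):ℚ(ζ)] ≤ p` (`minpoly.natDegree_le`, `X^p - b`).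
`InG` for `r = 0`: `α^k = 1`. Heights: `absLogHeight₁` of `α ∈ F` and of its image in `ℂ` agree (`height_map` in `H11/BK` or `H11/BE`).
-/

set_option autoImplicit false

namespace Pool.Agent.H61.WN

open NumberField

private theorem gen_aux (F : IntermediateField ℚ ℂ) (z w : F) (i : Algebra ℚ F)
    (hF : F = IntermediateField.adjoin ℚ ({(z : ℂ), (w : ℂ)} : Set ℂ)) :
    @IntermediateField.adjoin ℚ _ F _ i {z, w} = ⊤ := by
  have h : i = F.algebra' := Subsingleton.elim _ _
  subst h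
  apply IntermediateField.lift_injective F
  rw [IntermediateField.lift_adjoin, IntermediateField.lift_top, Set.image_pair]
  exact hF.symm

theorem small (p₀ : ℕ) : ∃ c : ℝ, 0 < c ∧ ∀ (p N b : ℕ) (ζ x α : ℂ), 0 < p → p ≤ p₀ → 0 < N → ζ ^ N = 1 → x ^ p = (b : ℂ) →
    α ∈ IntermediateField.adjoin ℚ ({ζ, x} : Set ℂ) → α ≠ 0 → absLogHeight₁ α < c → ∃ k : ℕ, 0 < k ∧ α ^ k = 1 := by
  obtain ⟨c, hc, h⟩ := bog p₀
  refine ⟨c, hc, ?_⟩
  intro p N b ζ x α hp hpp hN hζ hx hα hα0 hh
  have hζi : IsIntegral ℚ ζ := by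
    refine IsIntegral.of_pow hN ?_
    rw [hζ]
    exact isIntegral_one
  have hxi : IsIntegral ℚ x := by
    refine IsIntegral.of_pow hp ?_
    rw [hx]
    exact isIntegral_natCast b
  obtain ⟨F, hF⟩ : ∃ F : IntermediateField ℚ ℂ, F = IntermediateField.adjoin ℚ ({ζ, x} : Set ℂ) :=
    ⟨_, rfl⟩
  have hFD : FiniteDimensional ℚ F := by
    rw [hF]
    refine IntermediateField.finiteDimensional_adjoin ?_
    rintro y (rfl | hy)
    · exact hζi
    · rw [Set.mem_singleton_iff.1 hy]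
      exact hxi
  have hNF : NumberField F := {}
  have hζF : ζ ∈ F := by
    rw [hF]
    exact IntermediateField.subset_adjoin ℚ _ (by simp)
  have hxF : x ∈ F := by
    rw [hF]
    exact IntermediateField.subset_adjoin ℚ _ (by simp)
  have hαF : α ∈ F := by
    rw [hF]
    exact hα
  obtain ⟨z, hz⟩ : ∃ z : F, (z : ℂ) = ζ := ⟨⟨ζ, hζF⟩, rfl⟩
  obtain ⟨w, hw⟩ : ∃ w : F, (w : ℂ) = x := ⟨⟨x, hxF⟩, rfl⟩
  obtain ⟨y, hy⟩ : ∃ y : F, (y : ℂ) = α := ⟨⟨α, hαF⟩, rfl⟩
  have hzN : z ^ N = 1 := by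
    apply Subtype.ext
    rw [SubmonoidClass.coe_pow, hz, hζ]
    rfl
  have hord : 0 < orderOf z := orderOf_pos_iff.2 (isOfFinOrder_iff_pow_eq_one.2 ⟨N, hN, hzN⟩)
  have hwp : w ^ p = (b : F) := by
    apply Subtype.ext
    rw [SubmonoidClass.coe_pow, hw, hx]
    rfl
  have hgen : IntermediateField.adjoin ℚ ({z, w} : Set F) = ⊤ :=
    gen_aux F z w _ (by rw [hz, hw]; exact hF)
  obtain ⟨A, hA⟩ : ∃ A : IntermediateField ℚ F, A = IntermediateField.adjoin ℚ ({z} : Set F) := ⟨_, rfl⟩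
  have hwA : IsIntegral A w := (Algebra.IsIntegral.isIntegral (R := ℚ) w).tower_top
  have htop : IntermediateField.adjoin A ({w} : Set F) = ⊤ := by
    have h1 : (IntermediateField.adjoin A ({w} : Set F)).restrictScalars ℚ = ⊤ := by
      rw [eq_top_iff, ← hgen, IntermediateField.adjoin_le_iff]
      rintro v (rfl | hv)
      · refine IntermediateField.algebraMap_mem (IntermediateField.adjoin A ({w} : Set F))
          (⟨v, ?_⟩ : A)
        rw [hA]
        exact IntermediateField.mem_adjoin_simple_self ℚ v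
      · rw [Set.mem_singleton_iff.1 hv]
        exact IntermediateField.mem_adjoin_simple_self A w
    rw [eq_top_iff]
    intro v _
    have h2 : v ∈ (IntermediateField.adjoin A ({w} : Set F)).restrictScalars ℚ := by
      rw [h1]
      trivial
    exact h2
  have hdeg : (minpoly A y).natDegree ≤ p₀ := by
    have h1 : Module.finrank A F ≤ p := by
      have h2 : Module.finrank A (IntermediateField.adjoin A ({w} : Set F)) =
          (minpoly A w).natDegree := IntermediateField.adjoin.finrank hwA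
      rw [htop, IntermediateField.finrank_top'] at h2
      rw [h2]
      have h3 : minpoly A w ∣ Polynomial.X ^ p - Polynomial.C (b : A) := by
        refine minpoly.dvd _ _ ?_
        simp [hwp]
      have h4 := Polynomial.natDegree_le_of_dvd h3 (Polynomial.X_pow_sub_C_ne_zero hp _)
      rwa [Polynomial.natDegree_X_pow_sub_C] at h4
    have h5 : (minpoly A y).natDegree ≤ Module.finrank A F := minpoly.natDegree_le y
    omega
  have hht : absLogHeight₁ y = absLogHeight₁ α := by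
    have h1 := Pool.Agent.H4.RR.absLogHeight_eq F ℂ (F.val : F →+* ℂ) y
    have h2 := Pool.Agent.H4.RR.absLogHeight_eq F F (RingHom.id F) y
    have h3 : (F.val : F →+* ℂ) y = α := hy
    rw [h3] at h1
    rw [RingHom.id_apply] at h2
    rw [h1, h2]
  obtain ⟨k, hk, hyk⟩ := h (orderOf z) F z y hord (IsPrimitiveRoot.orderOf z) (by
      rintro rfl
      exact hα0 (hy.symm.trans rfl)) (by rw [← hA]; exact hdeg) (by rw [hht]; exact hh)
  refine ⟨k, hk, ?_⟩
  have h1 := congrArg (Subtype.val : F → ℂ) hyk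
  rw [← hy]
  exact h1

end Pool.Agent.H61.WN
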