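import Pool.Agent.H61.WN.App
import Pool.Agent.H61.WN.One
import Pool.Agent.H61.WN.Lst
import Pool.Agent.H61.WN.Sml
import Pool.Agent.H61.WN.Des
import Pool.Agent.H84.WI.Mom
import Pool.Agent.H84.WI.Big

/-!
# [H61 WN Fin] THEOREM WN (MP_187c26_nt): algebraic integers with bounded moments in `ℚ(ζ_N, b^(1/p))`, all `N`, all `p`
-/

set_option autoImplicit false

namespace Pool.Agent.H61.WN

open Finset NumberField

/-- the mean of `‖·‖^Q` over the conjugates -/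
noncomputable def cmean (Q : ℕ) (α : ℂ) : ℝ := Pool.H22.Lh.meanC (fun z => ‖z‖ ^ Q) α

theorem numberField_pair {ζ x : ℂ} (hζ : IsIntegral ℤ ζ) (hx : IsIntegral ℤ x) :
    NumberField (IntermediateField.adjoin ℚ ({ζ, x} : Set ℂ)) := by
  refine Pool.H22.Lh.mean_numberField _ (Set.toFinite _) ?_
  intro y hy
  rcases hy with rfl | hy
  · exact hζ.tower_top
  · rw [Set.mem_singleton_iff.1 hy]
    exact hx.tower_top

theorem pair_top_aux {ζ x : ℂ} (L : IntermediateField ℚ ℂ)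
    (hL : L = IntermediateField.adjoin ℚ ({ζ, x} : Set ℂ)) (hζ : ζ ∈ L) (hx : x ∈ L) :
    @IntermediateField.adjoin ℚ _ L _ L.algebra' ({⟨ζ, hζ⟩, ⟨x, hx⟩} : Set L) = ⊤ := by
  apply IntermediateField.map_injective L.val
  rw [IntermediateField.adjoin_map, Set.image_pair, ← AlgHom.fieldRange_eq_map,
    IntermediateField.fieldRange_val]
  exact hL.symm

theorem pair_top {ζ x : ℂ} (L : IntermediateField ℚ ℂ)
    (hL : L = IntermediateField.adjoin ℚ ({ζ, x} : Set ℂ)) (hζ : ζ ∈ L) (hx : x ∈ L)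
    (inst : Algebra ℚ L) :
    @IntermediateField.adjoin ℚ _ L _ inst ({⟨ζ, hζ⟩, ⟨x, hx⟩} : Set L) = ⊤ := by
  have h : inst = L.algebra' := Subsingleton.elim _ _
  subst h
  exact pair_top_aux L hL hζ hx

/-- sums over the labels are means over the conjugates -/
theorem sum_labels {p N b : ℕ} [Fact p.Prime] [NeZero N] (L : IntermediateField ℚ ℂ) [NumberField L] (D : Dat p N b L) (a : L)
    (G : ℂ → ℝ) : ∑ st : (ZMod N)ˣ × ZMod p, G (D.e st a) =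
      (Fintype.card ((ZMod N)ˣ × ZMod p) : ℝ) * Pool.H22.Lh.meanC G a := by
  have hfr : (Module.finrank ℚ L : ℝ) = Fintype.card ((ZMod N)ˣ × ZMod p) := by
    have h3 : Fintype.card (L →+* ℂ) = Module.finrank ℚ L := NumberField.Embeddings.card L ℂ
    have h4 : Fintype.card ((ZMod N)ˣ × ZMod p) = Fintype.card (L →+* ℂ) :=
      Fintype.card_of_bijective D.he
    rw [h4, h3]
  rw [← hfr]
  have h3 := Pool.H22.Lh.meanC_eq L a G
  rw [← h3]
  exact Function.Bijective.sum_comp D.he (fun σ : L →+* ℂ => G (σ a))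

theorem final (b : ℕ) (hb : 2 ≤ b) : ∃ Q : ℕ, ∀ C : ℝ, ∃ c : ℝ, 0 < c ∧
    ∀ (p N : ℕ) (ζ x α : ℂ), p.Prime → 0 < N → ζ ^ N = 1 → x ^ p = (b : ℂ) →
      α ∈ IntermediateField.adjoin ℚ ({ζ, x} : Set ℂ) → IsIntegral ℤ α → α ≠ 0 → cmean Q α ≤ C →
      (∃ k l : ℕ, 0 < k ∧ α ^ k = (b : ℂ) ^ l) ∨ c ≤ absLogHeight₁ α := by
  obtain ⟨q, p₀, hq, hp₀b, happ⟩ := app b hb
  obtain ⟨p₁, hp₁⟩ := Pool.Agent.H84.WI.pow_near_one 1
  obtain ⟨c₁, hc₁, hlst⟩ := lst b hb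
  obtain ⟨c₂, hc₂, hsml⟩ := small (max (max p₀ p₁) 3)
  refine ⟨4 * q, fun C => ?_⟩
  obtain ⟨c₃, hc₃, hmom⟩ := Pool.Agent.H84.WI.mom q C
  refine ⟨min (min (c₁ / 2) c₂) c₃, lt_min (lt_min (by positivity) hc₂) hc₃, ?_⟩
  intro p N ζ x α hp hN hζ hx hα hαi hα0 hC
  rw [or_iff_not_imp_right]
  intro hh
  push Not at hh
  have hh1 : absLogHeight₁ α < c₁ / 2 := lt_of_lt_of_le hh ((min_le_left _ _).trans (min_le_left _ _))
  have hh2 : absLogHeight₁ α < c₂ := lt_of_lt_of_le hh ((min_le_left _ _).trans (min_le_right _ _))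
  have hh3 : absLogHeight₁ α < c₃ := lt_of_lt_of_le hh (min_le_right _ _)
  rcases Nat.lt_or_ge (max (max p₀ p₁) 3) p with hlt | hge
  swap
  · obtain ⟨k, hk, hk1⟩ := hsml p N b ζ x α hp.pos hge hN hζ hx hα hα0 hh2
    exact ⟨k, 0, hk, by rw [hk1, pow_zero]⟩
  have hp0 : p₀ ≤ p := ((le_max_left _ _).trans (le_max_left _ _)).trans hlt.le
  have hp1 : p₁ ≤ p := ((le_max_right _ _).trans (le_max_left _ _)).trans hlt.le
  have hp3 : 3 ≤ p := (le_max_right _ _).trans hlt.le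
  have : Fact p.Prime := ⟨hp⟩
  have hbp : b < p := hp₀b.trans_le hp0
  have hpb : ¬ p ∣ b := fun h => by
    have := Nat.le_of_dvd (by omega) h
    omega
  have hnp : ∀ r : ℕ, r ^ p ≠ b := by
    intro r hr
    have h1 : 2 ≤ r := by
      by_contra h2
      have h3 : r = 0 ∨ r = 1 := by omega
      rcases h3 with rfl | rfl
      · rw [zero_pow hp.ne_zero] at hr
        omega
      · rw [one_pow] at hr
        omega
    have h2 : p < 2 ^ p := Nat.lt_two_pow_self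
    have h3 : 2 ^ p ≤ r ^ p := Nat.pow_le_pow_left h1 p
    omega
  have hxi : IsIntegral ℤ x := by
    refine IsIntegral.of_pow hp.pos ?_
    rw [hx]
    simpa using isIntegral_algebraMap (R := ℤ) (A := ℂ) (x := (b : ℤ))
  -- all roots of unity of order `N p`
  have hNp : 0 < N * p := Nat.mul_pos hN hp.pos
  have hNp' : NeZero (N * p) := ⟨hNp.ne'⟩
  obtain ⟨ζ₂, hζ₂⟩ : ∃ ζ₂ : ℂ, IsPrimitiveRoot ζ₂ (N * p) := ⟨_, Complex.isPrimitiveRoot_exp _ hNp.ne'⟩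
  obtain ⟨i, -, hi⟩ := hζ₂.eq_pow_of_pow_eq_one (ξ := ζ) (by rw [pow_mul, hζ, one_pow])
  have hα₂ : α ∈ IntermediateField.adjoin ℚ ({ζ₂, x} : Set ℂ) := by
    have hle : IntermediateField.adjoin ℚ ({ζ, x} : Set ℂ) ≤ IntermediateField.adjoin ℚ ({ζ₂, x} : Set ℂ) := by
      rw [IntermediateField.adjoin_le_iff]
      rintro y (hy | hy)
      · rw [hy, ← hi]
        exact pow_mem (IntermediateField.subset_adjoin _ _ (by simp)) i
      · rw [Set.mem_singleton_iff.1 hy]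
        exact IntermediateField.subset_adjoin _ _ (by simp)
    exact hle hα
  have hheight : absLogHeight₁ α = Pool.H22.Lh.meanC Pool.H22.Lh.lp α := Pool.H22.Lh.height_eq α hαi
  have hζ₂i : IsIntegral ℤ ζ₂ := IsIntegral.of_pow hNp (by rw [hζ₂.pow_eq_one]; exact isIntegral_one)
  -- the moments, over an arbitrary field with labels
  have key : ∀ (M : ℕ) [NeZero M] (L : IntermediateField ℚ ℂ) [NumberField L] (D : Dat p M b L) (a : L) (ξ : ℂ) (r : ℕ),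
      0 < r → ξ ^ r = 1 → (a : ℂ) = ξ * α →
      ∑ st : (ZMod M)ˣ × ZMod p, ‖D.e st a‖ ^ (2 * q) ≤ 21 / 20 * Fintype.card ((ZMod M)ˣ × ZMod p) ∧
      ∑ st : (ZMod M)ˣ × ZMod p, Real.posLog ‖D.e st a‖ =
        absLogHeight₁ α * Fintype.card ((ZMod M)ˣ × ZMod p) := by
    intro M _ L _ D a ξ r hr hξ hξa
    have h1 : ∀ G : ℝ → ℝ, ∑ st : (ZMod M)ˣ × ZMod p, G ‖D.e st a‖ =
        (Fintype.card ((ZMod M)ˣ × ZMod p) : ℝ) * Pool.H22.Lh.meanC (fun z => G ‖z‖) α := by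
      intro G
      have h2 := sum_labels L D a (fun z => G ‖z‖)
      rw [hξa, Pool.H22.Lh.mean_root α ξ hαi.tower_top r hr hξ G] at h2
      exact h2
    have h3 : ∑ st : (ZMod M)ˣ × ZMod p, Real.posLog ‖D.e st a‖ =
        absLogHeight₁ α * Fintype.card ((ZMod M)ˣ × ZMod p) := by
      rw [h1 Real.posLog, hheight, mul_comm]
      rfl
    refine ⟨?_, h3⟩
    refine hmom ((ZMod M)ˣ × ZMod p) (fun st => ‖D.e st a‖) (fun _ => norm_nonneg _) ?_ ?_
    · rw [h3]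
      exact mul_le_mul_of_nonneg_right hh3.le (Nat.cast_nonneg _)
    · rw [h1 (fun y => y ^ (4 * q)), mul_comm]
      exact mul_le_mul_of_nonneg_right hC (Nat.cast_nonneg _)
  -- the descent
  obtain ⟨N', ζ', ξ, r, hN', hpN', hpr, hζ', hr, hξ, hmem⟩ : ∃ (N' : ℕ) (ζ' ξ : ℂ) (k : ℕ), 0 < N' ∧ p ∣ N' ∧
      (∀ l ∈ N'.primeFactors, l ∣ p * b) ∧ IsPrimitiveRoot ζ' N' ∧ 0 < k ∧ ξ ^ k = 1 ∧
      ξ * α ∈ IntermediateField.adjoin ℚ ({ζ', x} : Set ℂ) := by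
    refine des p b hp3 hb hnp (N * p) hNp (dvd_mul_left _ _) ζ₂ x α hζ₂ hx hα₂ hαi hα0 ?_
    have hNF := numberField_pair hζ₂i hxi
    obtain ⟨L, hL⟩ : ∃ L, L = IntermediateField.adjoin ℚ ({ζ₂, x} : Set ℂ) := ⟨_, rfl⟩
    rw [← hL] at hNF hα₂
    have hmζ : ζ₂ ∈ L := by rw [hL]; exact IntermediateField.subset_adjoin _ _ (by simp)
    have hmx : x ∈ L := by rw [hL]; exact IntermediateField.subset_adjoin _ _ (by simp)
    have hprim : IsPrimitiveRoot (⟨ζ₂, hmζ⟩ : L) (N * p) := by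
      have h2 : IsPrimitiveRoot ((algebraMap L ℂ) ⟨ζ₂, hmζ⟩) (N * p) := hζ₂
      exact IsPrimitiveRoot.of_map_of_injective h2 (algebraMap L ℂ).injective
    have hxL : (⟨x, hmx⟩ : L) ^ p = ((b : ℕ) : L) := by
      apply Subtype.ext
      simpa using hx
    obtain ⟨D, -, -⟩ := exists_dat (p := p) (N := N * p) (b := b) (F := L) hp3 hb hnp (dvd_mul_left _ _) ⟨ζ₂, hmζ⟩ ⟨x, hmx⟩
      hprim hxL (pair_top L hL hmζ hmx _)
    obtain ⟨h1, -⟩ := key (N * p) L D ⟨α, hα₂⟩ 1 1 one_pos (one_pow 1) (by rw [one_mul])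
    -- power means
    have hcard : (0 : ℝ) < Fintype.card ((ZMod (N * p))ˣ × ZMod p) := by exact_mod_cast Fintype.card_pos
    have h2 := sum_labels L D ⟨α, hα₂⟩ (fun z => ‖z‖ ^ 2)
    have h3 : ∑ st : (ZMod (N * p))ˣ × ZMod p, ‖D.e st (⟨α, hα₂⟩ : L)‖ ^ 2 ≤
        21 / 20 * Fintype.card ((ZMod (N * p))ˣ × ZMod p) := by
      have h4 := Real.pow_arith_mean_le_arith_mean_pow Finset.univ
        (fun _ : (ZMod (N * p))ˣ × ZMod p => ((Fintype.card ((ZMod (N * p))ˣ × ZMod p) : ℝ))⁻¹)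
        (fun st => ‖D.e st (⟨α, hα₂⟩ : L)‖ ^ 2) (fun _ _ => by positivity) (by
          rw [Finset.sum_const, Finset.card_univ, nsmul_eq_mul, mul_inv_cancel₀ hcard.ne'])
        (fun i _ => sq_nonneg _) q
      rw [← Finset.mul_sum, ← Finset.mul_sum] at h4
      have h5 : ∑ st : (ZMod (N * p))ˣ × ZMod p, (‖D.e st (⟨α, hα₂⟩ : L)‖ ^ 2) ^ q =
          ∑ st : (ZMod (N * p))ˣ × ZMod p, ‖D.e st (⟨α, hα₂⟩ : L)‖ ^ (2 * q) :=
        Finset.sum_congr rfl fun st _ => by rw [pow_mul]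
      rw [h5] at h4
      have h6 : ((Fintype.card ((ZMod (N * p))ˣ × ZMod p) : ℝ))⁻¹ *
          ∑ st : (ZMod (N * p))ˣ × ZMod p, ‖D.e st (⟨α, hα₂⟩ : L)‖ ^ (2 * q) ≤ 21 / 20 := by
        rw [inv_mul_le_iff₀ hcard]
        linarith
      have h7 : ((Fintype.card ((ZMod (N * p))ˣ × ZMod p) : ℝ))⁻¹ *
          ∑ st : (ZMod (N * p))ˣ × ZMod p, ‖D.e st (⟨α, hα₂⟩ : L)‖ ^ 2 ≤ 21 / 20 := by
        by_contra hne
        push Not at hne
        have h8 : (21 / 20 : ℝ) < (((Fintype.card ((ZMod (N * p))ˣ × ZMod p) : ℝ))⁻¹ *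
            ∑ st : (ZMod (N * p))ˣ × ZMod p, ‖D.e st (⟨α, hα₂⟩ : L)‖ ^ 2) ^ q :=
          lt_of_lt_of_le hne (le_self_pow₀ (by linarith) (by omega))
        linarith
      rw [inv_mul_le_iff₀ hcard] at h7
      linarith
    rw [h2] at h3
    have h4 : (Fintype.card ((ZMod (N * p))ˣ × ZMod p) : ℝ) * Pool.H22.Lh.meanC (fun z => ‖z‖ ^ 2) α ≤
        Fintype.card ((ZMod (N * p))ˣ × ZMod p) * (21 / 20) := by
      rw [mul_comm _ (21 / 20 : ℝ)]
      exact h3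
    exact le_of_mul_le_mul_left h4 hcard
  -- the field of `ξ α`
  have hN'0 : NeZero N' := ⟨hN'.ne'⟩
  have hζ'i : IsIntegral ℤ ζ' := IsIntegral.of_pow hN' (by rw [hζ'.pow_eq_one]; exact isIntegral_one)
  have hNF := numberField_pair hζ'i hxi
  obtain ⟨L, hL⟩ : ∃ L, L = IntermediateField.adjoin ℚ ({ζ', x} : Set ℂ) := ⟨_, rfl⟩
  rw [← hL] at hNF hmem
  have hmζ : ζ' ∈ L := by rw [hL]; exact IntermediateField.subset_adjoin _ _ (by simp)
  have hmx : x ∈ L := by rw [hL]; exact IntermediateField.subset_adjoin _ _ (by simp)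
  have hprim : IsPrimitiveRoot (⟨ζ', hmζ⟩ : L) N' := by
    have h2 : IsPrimitiveRoot ((algebraMap L ℂ) ⟨ζ', hmζ⟩) N' := hζ'
    exact IsPrimitiveRoot.of_map_of_injective h2 (algebraMap L ℂ).injective
  have hxL : (⟨x, hmx⟩ : L) ^ p = ((b : ℕ) : L) := by
    apply Subtype.ext
    simpa using hx
  obtain ⟨D, -, hDx⟩ := exists_dat (p := p) (N := N') (b := b) (F := L) hp3 hb hnp hpN' ⟨ζ', hmζ⟩ ⟨x, hmx⟩
    hprim hxL (pair_top L hL hmζ hmx _)
  obtain ⟨a, ha⟩ : ∃ a : L, a = ⟨ξ * α, hmem⟩ := ⟨_, rfl⟩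
  have haα : (a : ℂ) = ξ * α := by rw [ha]
  have hξ0 : ξ ≠ 0 := by
    rintro rfl
    rw [zero_pow hr.ne'] at hξ
    exact zero_ne_one hξ
  have hξi : IsIntegral ℤ ξ := IsIntegral.of_pow hr (by rw [hξ]; exact isIntegral_one)
  have hai : IsIntegral ℤ a := by
    have h1 : IsIntegral ℤ (algebraMap L ℂ a) := by
      have : algebraMap L ℂ a = ξ * α := haα
      rw [this]
      exact hξi.mul hαi
    exact (isIntegral_algebraMap_iff (algebraMap L ℂ).injective).1 h1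
  have ha0 : a ≠ 0 := by
    rintro rfl
    have h1 : ξ * α = 0 := by rw [← haα]; rfl
    exact mul_ne_zero hξ0 hα0 h1
  obtain ⟨hm1, hm2⟩ := key N' L D a ξ r hr hξ haα
  obtain ⟨hE, hrows⟩ := happ p N' hp0 hpr L D a hai hm1
  choose n hn using fun l j => arr_int D 1 a hai l j
  have hri : ∀ j : ZMod p, IsIntegral ℤ (D.pip * (D.row a j * D.x ^ j.val)) := fun j =>
    row_int D (by omega) hpb hpr a hai n hn j fun l₀ => hrows n hn l₀ j
  obtain ⟨A, j, hA, haA⟩ := one_row D (by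
    have := hp₁ p hp1
    simpa using this) a ha0 hE hri
  have hA0 : A ≠ 0 := by
    rintro rfl
    rw [zero_mul] at haA
    exact ha0 haA
  have hcard : (0 : ℝ) < Fintype.card ((ZMod N')ˣ × ZMod p) := by exact_mod_cast Fintype.card_pos
  obtain ⟨k, l, hk, hkl⟩ := hlst p N' L D A j hA (by rw [← haA]; exact hai) hA0 (by
    rw [← haA, hm2]
    refine mul_lt_mul_of_pos_right ?_ hcard
    linarith)
  rw [← haA] at hkl
  refine ⟨k * r, l * r, Nat.mul_pos hk hr, ?_⟩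
  have h1 := congrArg (fun y : L => (y : ℂ)) hkl
  have h2 : (ξ * α) ^ k = (b : ℂ) ^ l := by
    rw [← haα]
    simpa using h1
  calc α ^ (k * r) = ((ξ * α) ^ k) ^ r := by
        rw [mul_pow, mul_pow, ← pow_mul ξ, mul_comm k r, pow_mul ξ, hξ, one_pow, one_mul, mul_comm r k, pow_mul]
    _ = (b : ℂ) ^ (l * r) := by rw [h2, ← pow_mul]

end Pool.Agent.H61.WN
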