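import Pool.Agent.H61.WN.Def

/-!
# [H61 WN Fou] THEOREM WN: Parseval and Fourier inversion

Analogue of `Pool/Agent/H84/WI/Par.lean` (all private lemmas there), with `chi` replaced by `ch`, the index `i : ZMod p` of the roots of unity by
`l : ZMod N` and `(ZMod p)ˣ` by `(ZMod N)ˣ` (extend by `0` at the non-units; `ρ^j arr y l j = (1/N) ∑_(s,t) e(s,t)(y) ch(-(s l)) ch(-(t j))`,
the sum over `l : ZMod N` gives the factor `N` (`sum_ch_mul` holds for all `N`), the sum over `j : ZMod p` the factor `p`).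
`e_row`: `row y j = (1/p) ∑_l arr y l j z^l`, `∑_l ch(l (s - s')) = N` if `s = s'`, `0` otherwise.
`row_mul`: from `e_row` and the injectivity of `e (1,0)`. `arr_row`: `arr (A x^j) l j` for `A ∈ ℚ(z)`; `arr_zero`: the other columns vanish
(`∑_t ch(t (j' - j)) = 0`).
-/

set_option autoImplicit false

namespace Pool.Agent.H61.WN

open Finset

variable {p N b : ℕ} [Fact p.Prime] [NeZero N] {F : Type} [Field F] [NumberField F]

section one

variable {n : ℕ} [NeZero n]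

/-- Parseval in one variable -/
private theorem par_one (a : ZMod n → ℂ) :
    ∑ t : ZMod n, ‖∑ j : ZMod n, a j * ch (t * j)‖ ^ 2 = n * ∑ j : ZMod n, ‖a j‖ ^ 2 := by
  have key : ((∑ t : ZMod n, ‖∑ j : ZMod n, a j * ch (t * j)‖ ^ 2 : ℝ) : ℂ) =
      ((n * ∑ j : ZMod n, ‖a j‖ ^ 2 : ℝ) : ℂ) := by
    push_cast
    have h1 : ∀ t : ZMod n, ((‖∑ j : ZMod n, a j * ch (t * j)‖ : ℂ)) ^ 2 =
        ∑ j : ZMod n, ∑ k : ZMod n, a j * (starRingEnd ℂ) (a k) * ch (t * (j - k)) := by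
      intro t
      rw [← Complex.mul_conj', map_sum, Finset.sum_mul_sum]
      refine Finset.sum_congr rfl fun j _ => Finset.sum_congr rfl fun k _ => ?_
      rw [map_mul, ← ch_neg, mul_sub, sub_eq_add_neg, ch_add]
      ring
    simp_rw [h1]
    rw [Finset.sum_comm, Finset.mul_sum]
    refine Finset.sum_congr rfl fun j _ => ?_
    rw [Finset.sum_comm]
    have h2 : ∀ k : ZMod n, ∑ t : ZMod n, a j * (starRingEnd ℂ) (a k) * ch (t * (j - k)) =
        if k = j then (n : ℂ) * (a j * (starRingEnd ℂ) (a k)) else 0 := by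
      intro k
      rw [← Finset.mul_sum, sum_ch_mul]
      by_cases h : k = j
      · rw [if_pos (sub_eq_zero.2 h.symm), if_pos h, mul_comm]
      · rw [if_neg (sub_ne_zero.2 (Ne.symm h)), if_neg h, mul_zero]
    simp_rw [h2]
    rw [Finset.sum_ite_eq' Finset.univ j, if_pos (Finset.mem_univ j), Complex.mul_conj']
  exact_mod_cast key

private theorem par_two (a : ZMod n → ℂ) :
    ∑ t : ZMod n, ‖∑ j : ZMod n, a j * ch (-(j * t))‖ ^ 2 = n * ∑ j : ZMod n, ‖a j‖ ^ 2 := by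
  rw [← par_one a, ← Equiv.sum_comp (Equiv.neg (ZMod n))
    (fun t => ‖∑ j : ZMod n, a j * ch (t * j)‖ ^ 2)]
  refine Finset.sum_congr rfl fun t _ => ?_
  congr 2
  refine Finset.sum_congr rfl fun j _ => ?_
  congr 2
  rw [Equiv.neg_apply]
  ring

/-- inversion in one variable -/
private theorem par_inv (f : ZMod n → ℂ) (r : ZMod n) :
    ∑ i : ZMod n, (∑ s : ZMod n, f s * ch (-(s * i))) * ch (r * i) = n * f r := by
  simp_rw [Finset.sum_mul]
  rw [Finset.sum_comm]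
  have h2 : ∀ s : ZMod n, ∑ i : ZMod n, f s * ch (-(s * i)) * ch (r * i) =
      if s = r then (n : ℂ) * f s else 0 := by
    intro s
    have h3 : ∀ i : ZMod n, f s * ch (-(s * i)) * ch (r * i) = f s * ch (i * (r - s)) := by
      intro i
      rw [mul_assoc, ← ch_add]
      congr 2
      ring
    simp_rw [h3]
    rw [← Finset.mul_sum, sum_ch_mul]
    by_cases h : s = r
    · rw [if_pos (sub_eq_zero.2 h.symm), if_pos h, mul_comm]
    · rw [if_neg (sub_ne_zero.2 (Ne.symm h)), if_neg h, mul_zero]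
  simp_rw [h2]
  rw [Finset.sum_ite_eq' Finset.univ r, if_pos (Finset.mem_univ r)]

end one

/-- the embeddings, extended by `0` -/
private noncomputable def par_x (D : Dat p N b F) (y : F) (s : ZMod N) (t : ZMod p) : ℂ :=
  if h : IsUnit s then D.e (h.unit, t) y else 0

private theorem par_x_unit (D : Dat p N b F) (y : F) (u : (ZMod N)ˣ) (t : ZMod p) :
    par_x D y (u : ZMod N) t = D.e (u, t) y := by
  rw [par_x, dif_pos u.isUnit, IsUnit.unit_of_val_units]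

omit [Fact p.Prime] in
private theorem par_sum {M : Type} [AddCommMonoid M] (g : ZMod N → M)
    (h : ∀ s, ¬ IsUnit s → g s = 0) : ∑ u : (ZMod N)ˣ, g (u : ZMod N) = ∑ s : ZMod N, g s := by
  refine Fintype.sum_of_injective (fun u : (ZMod N)ˣ => (u : ZMod N)) Units.val_injective _ g ?_
    (fun _ => rfl)
  intro s hs
  exact h s fun h1 => hs ⟨h1.unit, h1.unit_spec⟩

private theorem par_rho (D : Dat p N b F) : (D.ρ : ℂ) ≠ 0 := by
  have h1 : (0 : ℝ) < D.ρ := lt_of_lt_of_le zero_lt_one D.hρ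
  exact_mod_cast h1.ne'

private theorem par_arr' (D : Dat p N b F) (y : F) (l : ZMod N) (j : ZMod p) :
    ((D.arr y l j : ℚ) : ℂ) = (∑ s : (ZMod N)ˣ, (∑ t : ZMod p, D.e (s, t) y * ch (-(t * j))) *
      ch (-((s : ZMod N) * l))) * ((D.ρ : ℂ) ^ j.val)⁻¹ / N := by
  have h1 : ((D.arr y l j : ℚ) : ℂ) =
      (∑ st : (ZMod N)ˣ × ZMod p, D.e st (y * D.mon l j)) / N := by
    rw [Dat.arr, ← Dat.trace_eq]
    push_cast
    rfl
  rw [h1, Fintype.sum_prod_type, Finset.sum_mul]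
  congr 1
  refine Finset.sum_congr rfl fun s _ => ?_
  rw [Finset.sum_mul, Finset.sum_mul]
  refine Finset.sum_congr rfl fun t _ => ?_
  rw [map_mul, D.e_mon]
  ring

private theorem par_arr (D : Dat p N b F) (y : F) (l : ZMod N) (j : ZMod p) :
    ((D.arr y l j : ℚ) : ℂ) * (D.ρ : ℂ) ^ j.val =
      (∑ s : ZMod N, (∑ t : ZMod p, par_x D y s t * ch (-(t * j))) * ch (-(s * l))) / N := by
  rw [← par_sum (fun s : ZMod N =>
    (∑ t : ZMod p, par_x D y s t * ch (-(t * j))) * ch (-(s * l))), par_arr']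
  · have h2 : ((D.ρ : ℂ) ^ j.val)⁻¹ * (D.ρ : ℂ) ^ j.val = 1 :=
      inv_mul_cancel₀ (pow_ne_zero _ (par_rho D))
    rw [div_mul_eq_mul_div, mul_assoc, h2, mul_one]
    congr 1
    refine Finset.sum_congr rfl fun s _ => ?_
    simp_rw [par_x_unit]
  · intro s hs
    have h2 : ∀ t : ZMod p, par_x D y s t = 0 := fun t => by rw [par_x, dif_neg hs]
    simp [h2]

private theorem par_row (D : Dat p N b F) (y : F) (j : ZMod p) (s : (ZMod N)ˣ) (t : ZMod p) :
    D.e (s, t) (D.row y j) =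
      (∑ l : ZMod N, ((D.arr y l j : ℚ) : ℂ) * ch ((s : ZMod N) * l)) / p := by
  rw [Dat.row, map_div₀, map_sum, map_natCast]
  congr 1
  refine Finset.sum_congr rfl fun l _ => ?_
  rw [map_mul, D.e_zl, map_ratCast, mul_comm l]

theorem e_row (D : Dat p N b F) (y : F) (j : ZMod p) (s : (ZMod N)ˣ) (t : ZMod p) :
    D.e (s, t) (D.row y j) =
      (∑ t' : ZMod p, D.e (s, t') y * ch (-(t' * j))) * ((D.ρ : ℂ) ^ j.val)⁻¹ / p := by
  have hN0 : (N : ℂ) ≠ 0 := by exact_mod_cast NeZero.ne N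
  have hr : (D.ρ : ℂ) ^ j.val ≠ 0 := pow_ne_zero _ (par_rho D)
  rw [par_row]
  congr 1
  rw [eq_mul_inv_iff_mul_eq₀ hr, Finset.sum_mul]
  have h1 : ∀ l : ZMod N, ((D.arr y l j : ℚ) : ℂ) * ch ((s : ZMod N) * l) * (D.ρ : ℂ) ^ j.val =
      ((∑ s : ZMod N, (∑ t : ZMod p, par_x D y s t * ch (-(t * j))) * ch (-(s * l))) *
        ch ((s : ZMod N) * l)) / N := by
    intro l
    rw [mul_right_comm, par_arr]
    ring
  simp_rw [h1]
  rw [← Finset.sum_div, par_inv (fun s => ∑ t : ZMod p, par_x D y s t * ch (-(t * j))) (s : ZMod N),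
    mul_div_cancel_left₀ _ hN0]
  simp_rw [par_x_unit]

theorem row_isA (D : Dat p N b F) (y : F) (j : ZMod p) : D.isA (D.row y j) := by
  intro s t
  rw [e_row, e_row]

theorem inversion (D : Dat p N b F) (y : F) : y = ∑ j : ZMod p, D.row y j * D.x ^ j.val := by
  have hp0 : (p : ℂ) ≠ 0 := by exact_mod_cast (Fact.out : p.Prime).ne_zero
  refine (D.e (1, 0)).injective ?_
  rw [map_sum]
  have h1 : ∀ j : ZMod p, D.e (1, 0) (D.row y j * D.x ^ j.val) =
      ((∑ t' : ZMod p, D.e (1, t') y * ch (-(t' * j))) * ch ((0 : ZMod p) * j)) / p := by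
    intro j
    have hr : (D.ρ : ℂ) ^ j.val ≠ 0 := pow_ne_zero _ (par_rho D)
    have h2 : ((D.ρ : ℂ) ^ j.val)⁻¹ * (D.ρ : ℂ) ^ j.val = 1 := inv_mul_cancel₀ hr
    rw [map_mul, e_row, map_pow, D.ex, mul_pow, ch_pow, ZMod.natCast_zmod_val, mul_comm j 0]
    linear_combination ((∑ t' : ZMod p, D.e (1, t') y * ch (-(t' * j))) * ch ((0 : ZMod p) * j) / p) * h2
  simp_rw [h1]
  rw [← Finset.sum_div, par_inv (fun t' : ZMod p => D.e (1, t') y) 0, mul_div_cancel_left₀ _ hp0]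

theorem row_mul (D : Dat p N b F) (w y : F) (hw : D.isA w) (j : ZMod p) : D.row (w * y) j = w * D.row y j := by
  refine (D.e (1, 0)).injective ?_
  rw [map_mul, e_row, e_row]
  have h1 : ∀ t' : ZMod p, D.e (1, t') (w * y) * ch (-(t' * j)) =
      D.e (1, 0) w * (D.e (1, t') y * ch (-(t' * j))) := by
    intro t'
    rw [map_mul, hw 1 t', mul_assoc]
  simp_rw [h1]
  rw [← Finset.mul_sum, mul_assoc, mul_div_assoc]

theorem parseval (D : Dat p N b F) (y : F) :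
    (N : ℝ) * ∑ l : ZMod N, ∑ j : ZMod p, (((D.arr y l j : ℚ) : ℝ) ^ 2 * D.ρ ^ (2 * j.val)) =
      p * ∑ st : (ZMod N)ˣ × ZMod p, ‖D.e st y‖ ^ 2 := by
  have hN0 : (N : ℝ) ≠ 0 := by exact_mod_cast NeZero.ne N
  have h1 : ∀ (l : ZMod N) (j : ZMod p), (((D.arr y l j : ℚ) : ℝ) ^ 2 * D.ρ ^ (2 * j.val)) =
      ‖∑ s : ZMod N, (∑ t : ZMod p, par_x D y s t * ch (-(t * j))) * ch (-(s * l))‖ ^ 2 /
        (N : ℝ) ^ 2 := by
    intro l j
    have h2 : ‖((D.arr y l j : ℚ) : ℂ) * (D.ρ : ℂ) ^ j.val‖ ^ 2 =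
        ((D.arr y l j : ℚ) : ℝ) ^ 2 * D.ρ ^ (2 * j.val) := by
      have h3 : ((D.arr y l j : ℚ) : ℂ) * (D.ρ : ℂ) ^ j.val =
          ((((D.arr y l j : ℚ) : ℝ) * D.ρ ^ j.val : ℝ) : ℂ) := by
        push_cast
        rfl
      rw [h3, Complex.norm_real, Real.norm_eq_abs, sq_abs, mul_pow, ← pow_mul, mul_comm j.val 2]
    rw [← h2, par_arr, norm_div, div_pow, Complex.norm_natCast]
  simp_rw [h1]
  rw [Finset.sum_comm]
  have h4 : ∀ j : ZMod p, ∑ l : ZMod N,
      ‖∑ s : ZMod N, (∑ t : ZMod p, par_x D y s t * ch (-(t * j))) * ch (-(s * l))‖ ^ 2 /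
        (N : ℝ) ^ 2 = (∑ s : ZMod N, ‖∑ t : ZMod p, par_x D y s t * ch (-(t * j))‖ ^ 2) / N := by
    intro j
    rw [← Finset.sum_div, par_two (fun s => ∑ t : ZMod p, par_x D y s t * ch (-(t * j)))]
    rw [pow_two, mul_div_mul_left _ _ hN0]
  simp_rw [h4]
  rw [← Finset.sum_div, Finset.sum_comm, mul_div_cancel₀ _ hN0]
  have h5 : ∀ s : ZMod N, ∑ j : ZMod p, ‖∑ t : ZMod p, par_x D y s t * ch (-(t * j))‖ ^ 2 =
      p * ∑ t : ZMod p, ‖par_x D y s t‖ ^ 2 := fun s => par_two (fun t => par_x D y s t)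
  simp_rw [h5]
  rw [← Finset.mul_sum, Fintype.sum_prod_type,
    ← par_sum (fun s : ZMod N => ∑ t : ZMod p, ‖par_x D y s t‖ ^ 2)]
  · simp_rw [par_x_unit]
  · intro s hs
    have h2 : ∀ t : ZMod p, par_x D y s t = 0 := fun t => by rw [par_x, dif_neg hs]
    simp [h2]

theorem sum_arr_sq_le (D : Dat p N b F) (y : F) :
    (N : ℝ) * ∑ l : ZMod N, ∑ j : ZMod p, ((D.arr y l j : ℚ) : ℝ) ^ 2 ≤
      p * ∑ st : (ZMod N)ˣ × ZMod p, ‖D.e st y‖ ^ 2 := by
  rw [← parseval D y]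
  refine mul_le_mul_of_nonneg_left ?_ (Nat.cast_nonneg N)
  refine Finset.sum_le_sum fun i _ => Finset.sum_le_sum fun j _ => ?_
  have h1 : (1 : ℝ) ≤ D.ρ ^ (2 * j.val) := one_le_pow₀ D.hρ
  nlinarith [sq_nonneg ((D.arr y i j : ℚ) : ℝ)]

theorem energy_rows (D : Dat p N b F) (A : ZMod p → F) (hA : ∀ j, D.isA (A j)) :
    ∑ st : (ZMod N)ˣ × ZMod p, ‖D.e st (∑ j : ZMod p, A j * D.x ^ j.val)‖ ^ 2 =
      ∑ j : ZMod p, ∑ st : (ZMod N)ˣ × ZMod p, ‖D.e st (A j * D.x ^ j.val)‖ ^ 2 := by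
  have h1 : ∀ (s : (ZMod N)ˣ) (t j : ZMod p), D.e (s, t) (A j * D.x ^ j.val) =
      (D.e (s, 0) (A j) * (D.ρ : ℂ) ^ j.val) * ch (t * j) := by
    intro s t j
    rw [map_mul, hA j s t, map_pow, D.ex, mul_pow, ch_pow, ZMod.natCast_zmod_val, mul_comm j t,
      mul_assoc]
  rw [Fintype.sum_prod_type, Finset.sum_comm' (t' := Finset.univ)
    (s' := fun _ => Finset.univ) (s := Finset.univ) (t := fun _ => Finset.univ)
    (f := fun (j : ZMod p) (st : (ZMod N)ˣ × ZMod p) => ‖D.e st (A j * D.x ^ j.val)‖ ^ 2)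
    (by simp), Fintype.sum_prod_type]
  refine Finset.sum_congr rfl fun s _ => ?_
  have h2 : ∀ t : ZMod p, ‖D.e (s, t) (∑ j : ZMod p, A j * D.x ^ j.val)‖ ^ 2 =
      ‖∑ j : ZMod p, (D.e (s, 0) (A j) * (D.ρ : ℂ) ^ j.val) * ch (t * j)‖ ^ 2 := by
    intro t
    rw [map_sum]
    simp_rw [h1]
  simp_rw [h2]
  rw [par_one (fun j => D.e (s, 0) (A j) * (D.ρ : ℂ) ^ j.val), Finset.sum_comm, Finset.mul_sum]
  refine Finset.sum_congr rfl fun j _ => ?_
  have h3 : ∀ t : ZMod p, ‖D.e (s, t) (A j * D.x ^ j.val)‖ ^ 2 =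
      ‖D.e (s, 0) (A j) * (D.ρ : ℂ) ^ j.val‖ ^ 2 := by
    intro t
    rw [h1, norm_mul _ (ch (t * j)), norm_ch, mul_one]
  simp_rw [h3]
  rw [Finset.sum_const, Finset.card_univ, ZMod.card, nsmul_eq_mul]

/-- the trace of `y z^(-l) x^(-j)` sees the row `j` of `y` only -/
theorem trace_mon (D : Dat p N b F) (y : F) (l : ZMod N) (j : ZMod p) :
    Algebra.trace ℚ F (y * D.mon l j) = Algebra.trace ℚ F (D.row y j * D.z ^ (-l).val) := by
  have hp0 : (p : ℂ) ≠ 0 := by exact_mod_cast (Fact.out : p.Prime).ne_zero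
  have key : ((Algebra.trace ℚ F (y * D.mon l j) : ℚ) : ℂ) =
      ((Algebra.trace ℚ F (D.row y j * D.z ^ (-l).val) : ℚ) : ℂ) := by
    rw [D.trace_eq, D.trace_eq, Fintype.sum_prod_type, Fintype.sum_prod_type]
    refine Finset.sum_congr rfl fun s _ => ?_
    have h1 : ∀ t : ZMod p, D.e (s, t) (D.row y j * D.z ^ (-l).val) =
        (∑ t' : ZMod p, D.e (s, t') y * ch (-(t' * j))) * ((D.ρ : ℂ) ^ j.val)⁻¹ / p *
          ch (-((s : ZMod N) * l)) := by
      intro t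
      rw [map_mul, e_row, D.e_zl]
      congr 2
      ring
    simp_rw [h1]
    rw [Finset.sum_const, Finset.card_univ, ZMod.card, nsmul_eq_mul]
    have h2 : ∀ t : ZMod p, D.e (s, t) (y * D.mon l j) =
        (D.e (s, t) y * ch (-(t * j))) * (((D.ρ : ℂ) ^ j.val)⁻¹ * ch (-((s : ZMod N) * l))) := by
      intro t
      rw [map_mul, D.e_mon]
      ring
    simp_rw [h2]
    rw [← Finset.sum_mul]
    have h3 : (p : ℂ) * (p : ℂ)⁻¹ = 1 := mul_inv_cancel₀ hp0
    linear_combination (-((∑ t' : ZMod p, D.e (s, t') y * ch (-(t' * j))) * ((D.ρ : ℂ) ^ j.val)⁻¹ *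
      ch (-((s : ZMod N) * l)))) * h3
  exact_mod_cast key

private theorem unit_ne (D : Dat p N b F) (s : (ZMod N)ˣ) : (((s : ZMod N).val : ℕ) : ZMod p) ≠ 0 := by
  intro h
  rw [ZMod.natCast_eq_zero_iff] at h
  have h1 : (s : ZMod N).val.Coprime N := ZMod.val_coe_unit_coprime s
  have h2 := Nat.dvd_gcd h D.hpN
  rw [h1] at h2
  exact (Fact.out : p.Prime).one_lt.ne' (Nat.dvd_one.1 h2)

/-- the sum over a coset of the subgroup of order `p` -/
theorem sum_coset (D : Dat p N b F) (y : F) (l₀ : ZMod N) (j : ZMod p) :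
    ∑ i : ZMod p, D.arr y (l₀ + ((i.val * (N / p) : ℕ) : ZMod N)) j = 0 := by
  have key : ((∑ i : ZMod p, D.arr y (l₀ + ((i.val * (N / p) : ℕ) : ZMod N)) j : ℚ) : ℂ) = 0 := by
    push_cast
    simp_rw [par_arr']
    rw [← Finset.sum_div, ← Finset.sum_mul, Finset.sum_comm]
    have h1 : ∀ s : (ZMod N)ˣ, ∑ i : ZMod p, (∑ t : ZMod p, D.e (s, t) y * ch (-(t * j))) *
        ch (-((s : ZMod N) * (l₀ + (i.val : ZMod N) * ((N / p : ℕ) : ZMod N)))) = 0 := by
      intro s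
      have h2 : ∀ i : ZMod p, ch (-((s : ZMod N) * (l₀ + (i.val : ZMod N) * ((N / p : ℕ) : ZMod N)))) =
          ch (-((s : ZMod N) * l₀)) * ch (i * (-(((s : ZMod N).val : ℕ) : ZMod p))) := by
        intro i
        have h3 := ch_level p D.hpN (-(((s : ZMod N).val : ℤ) * (i.val : ℤ)))
        have h4 : ((-(((s : ZMod N).val : ℤ) * (i.val : ℤ)) : ℤ) : ZMod p) =
            i * (-(((s : ZMod N).val : ℕ) : ZMod p)) := by
          push_cast
          rw [ZMod.natCast_zmod_val i]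
          ring
        have h5 : ((((N / p : ℕ) : ℤ) * (-(((s : ZMod N).val : ℤ) * (i.val : ℤ))) : ℤ) : ZMod N) =
            -((s : ZMod N) * ((i.val : ZMod N) * ((N / p : ℕ) : ZMod N))) := by
          rw [Int.cast_mul, Int.cast_neg, Int.cast_mul, Int.cast_natCast, Int.cast_natCast,
            Int.cast_natCast, ZMod.natCast_zmod_val (s : ZMod N)]
          ring
        rw [h4, h5] at h3
        rw [← h3, ← ch_add]
        congr 1
        ring
      simp_rw [h2]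
      rw [← Finset.mul_sum, ← Finset.mul_sum, sum_ch_mul, if_neg (neg_ne_zero.2 (unit_ne D s)),
        mul_zero, mul_zero]
    have h2 := Finset.sum_congr (rfl : (Finset.univ : Finset (ZMod N)ˣ) = Finset.univ) fun s _ => h1 s
    rw [h2]
    simp
  exact_mod_cast key

/-- an element of `ℚ(z)` is a rational combination of the powers of `z` -/
theorem isA_sum (D : Dat p N b F) (w : F) (hw : D.isA w) : ∃ c : ZMod N → ℚ, w = ∑ l : ZMod N, (c l : F) * D.z ^ l.val := by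
  have hp0 : (p : ℂ) ≠ 0 := by exact_mod_cast (Fact.out : p.Prime).ne_zero
  have h1 : D.row w 0 = w := by
    refine (D.e (1, 0)).injective ?_
    rw [e_row]
    have h2 : ∀ t' : ZMod p, D.e (1, t') w * ch (-(t' * 0)) = D.e (1, 0) w := by
      intro t'
      rw [hw 1 t', mul_zero, neg_zero, ch_zero, mul_one]
    simp_rw [h2]
    rw [Finset.sum_const, Finset.card_univ, ZMod.card, nsmul_eq_mul, ZMod.val_zero, pow_zero, inv_one,
      mul_one, mul_div_cancel_left₀ _ hp0]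
  refine ⟨fun l => D.arr w l 0 / p, ?_⟩
  conv_lhs => rw [← h1]
  rw [Dat.row, Finset.sum_div]
  refine Finset.sum_congr rfl fun l _ => ?_
  push_cast
  ring

end Pool.Agent.H61.WN
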