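import Pool.Agent.H61.WN.Tpi
import Pool.Agent.H61.WN.Pib

/-!
# [H61 WN Ra] THEOREM WN: constant rows give integrality

`A_j := row a j`. (1) `b π_1 A_j` is integral: `b π_1 A_j = row (b π_1 a) j = (1/p) ∑_l n(l,j) z^l` (`row_mul`, definition of `row`), group `l = l₀ + i (N/p)`,
`l₀ < N/p`, `i < p`: `∑_i (n(l₀ + i N/p, j) - c) z^(i N/p) + c ∑_i z^(i N/p)`, the second sum is `0` (`z^(N/p)` is a primitive `p`-th root of unity), the first one
is `p` times an integer. (2) so `b^2 π_p A_j = b u π_1 A_j` is integral (`pi_u`). (3) `p A_j x^j` is integral (`e_row`: `p e(A_j x^j) = ∑_t' e(s,t')(a) ch(-(t' j)) ch(t j)`,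
`e(s,t)(x^j) = ρ^j ch(t j)`; `D.int_iff`). (4) `u p + v b^2 = 1`: `π_p A_j x^j = u π_p (p A_j x^j) + v (b^2 π_p A_j) x^j` is integral (`pip_int`, `D.x_int`).
-/

set_option autoImplicit false

namespace Pool.Agent.H61.WN

open Finset

variable {p N b : ℕ} [Fact p.Prime] [NeZero N] {F : Type} [Field F] [NumberField F]

private theorem z_val (D : Dat p N b F) (k : ℕ) : D.z ^ ((k : ZMod N)).val = D.z ^ k := by
  rw [ZMod.val_natCast]
  conv_rhs => rw [← Nat.mod_add_div k N, pow_add, pow_mul, D.hz, one_pow, mul_one]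

private theorem z_add (D : Dat p N b F) (l m : ZMod N) : D.z ^ (l + m).val = D.z ^ l.val * D.z ^ m.val := by
  rw [← pow_add, ← z_val D (l.val + m.val), Nat.cast_add, ZMod.natCast_zmod_val, ZMod.natCast_zmod_val]

private theorem M_lt (D : Dat p N b F) : 0 < N / p ∧ N / p < N := by
  have hp := (Fact.out : p.Prime)
  have hN := Nat.pos_of_ne_zero (NeZero.ne N)
  exact ⟨Nat.div_pos (Nat.le_of_dvd hN D.hpN) hp.pos, Nat.div_lt_self hN hp.one_lt⟩

/-- constant on the cosets of the subgroup of order `p` -/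
private theorem sum_zero (D : Dat p N b F) (c : ZMod N → ℤ) (hc : ∀ l, c (l + ((N / p : ℕ) : ZMod N)) = c l) :
    ∑ l : ZMod N, (c l : F) * D.z ^ l.val = 0 := by
  have h1 : ∑ l : ZMod N, (c l : F) * D.z ^ l.val = D.z ^ (N / p) * ∑ l : ZMod N, (c l : F) * D.z ^ l.val := by
    conv_lhs => rw [← Equiv.sum_comp (Equiv.addRight ((N / p : ℕ) : ZMod N))]
    rw [Finset.mul_sum]
    refine Finset.sum_congr rfl fun l _ => ?_
    rw [Equiv.coe_addRight, hc, z_add, z_val]
    ring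
  have h2 : (1 - D.z ^ (N / p)) * ∑ l : ZMod N, (c l : F) * D.z ^ l.val = 0 := by
    rw [sub_mul, one_mul, ← h1, sub_self]
  have h3 : D.z ^ (N / p) ≠ 1 := D.z_prim.pow_ne_one_of_pos_of_lt (M_lt D).1.ne' (M_lt D).2
  exact (mul_eq_zero.1 h2).resolve_left (sub_ne_zero.2 (Ne.symm h3))

/-- congruences on the cosets give divisibility by `p` -/
private theorem sum_div (D : Dat p N b F) (n : ZMod N → ℤ)
    (hc : ∀ l₀ : ZMod N, ∃ c : ℤ, ∀ i : ZMod p, (p : ℤ) ∣ n (l₀ + ((i.val * (N / p) : ℕ) : ZMod N)) - c) :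
    IsIntegral ℤ ((∑ l : ZMod N, (n l : F) * D.z ^ l.val) / (p : F)) := by
  obtain ⟨hM0, hMN⟩ := M_lt D
  have hp := (Fact.out : p.Prime)
  have hpM : p * (N / p) = N := Nat.mul_div_cancel' D.hpN
  choose c hcc using hc
  obtain ⟨c', hc'⟩ : ∃ c' : ZMod N → ℤ, ∀ l, c' l = c ((l.val % (N / p) : ℕ) : ZMod N) := ⟨_, fun _ => rfl⟩
  have h1 : ∀ l, c' (l + ((N / p : ℕ) : ZMod N)) = c' l := by
    intro l
    rw [hc', hc', ZMod.val_add, ZMod.val_natCast, Nat.mod_mod_of_dvd _ ⟨p, by rw [mul_comm]; exact hpM.symm⟩,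
      Nat.mod_eq_of_lt hMN, Nat.add_mod_right]
  have h2 : ∀ l, (p : ℤ) ∣ n l - c' l := by
    intro l
    have hq : l.val / (N / p) < p := by
      rw [Nat.div_lt_iff_lt_mul hM0, hpM]
      exact ZMod.val_lt l
    have h3 := hcc ((l.val % (N / p) : ℕ) : ZMod N) ((l.val / (N / p) : ℕ) : ZMod p)
    rw [ZMod.val_natCast, Nat.mod_eq_of_lt hq, ← Nat.cast_add] at h3
    have h4 : l.val % (N / p) + l.val / (N / p) * (N / p) = l.val := by
      rw [mul_comm]
      exact Nat.mod_add_div _ _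
    rw [h4, ZMod.natCast_zmod_val] at h3
    rw [hc']
    exact h3
  choose g hg using h2
  have hp0 : (p : F) ≠ 0 := Nat.cast_ne_zero.2 hp.ne_zero
  have h3 : (∑ l : ZMod N, (n l : F) * D.z ^ l.val) / (p : F) = ∑ l : ZMod N, (g l : F) * D.z ^ l.val := by
    rw [div_eq_iff hp0]
    have h4 := sum_zero D c' h1
    have h5 : ∑ l : ZMod N, (n l : F) * D.z ^ l.val =
        ∑ l : ZMod N, (n l : F) * D.z ^ l.val - ∑ l : ZMod N, (c' l : F) * D.z ^ l.val := by
      rw [h4, sub_zero]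
    rw [h5, ← Finset.sum_sub_distrib, Finset.sum_mul]
    refine Finset.sum_congr rfl fun l _ => ?_
    have h6 : (n l : F) - (c' l : F) = (p : F) * (g l : F) := by
      have h7 := congrArg (fun t : ℤ => (t : F)) (hg l)
      push_cast at h7
      exact h7
    rw [← sub_mul, h6]
    ring
  rw [h3]
  refine IsIntegral.sum _ fun l _ => ?_
  have h6 : IsIntegral ℤ ((g l : ℤ) : F) := by
    simpa using isIntegral_algebraMap (R := ℤ) (A := F) (x := g l)
  exact h6.mul (D.z_int.pow _)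

private theorem ch_int (t : ZMod p) : IsIntegral ℤ (ch t) := by
  refine IsIntegral.of_pow (Fact.out : p.Prime).pos ?_
  rw [ch_pow, CharP.cast_eq_zero, zero_mul, ch_zero]
  exact isIntegral_one

/-- `p A x^j` is integral -/
private theorem pax (D : Dat p N b F) (a : F) (ha : IsIntegral ℤ a) (j : ZMod p) :
    IsIntegral ℤ ((p : F) * (D.row a j * D.x ^ j.val)) := by
  have hp := (Fact.out : p.Prime)
  rw [← D.int_iff (1, 0)]
  have hρ : (D.ρ : ℂ) ≠ 0 := by
    have := D.hρ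
    exact_mod_cast (by linarith : D.ρ ≠ 0)
  have hpc : (p : ℂ) ≠ 0 := Nat.cast_ne_zero.2 hp.ne_zero
  have h1 : D.e (1, 0) ((p : F) * (D.row a j * D.x ^ j.val)) =
      ∑ t' : ZMod p, D.e (1, t') a * ch (-(t' * j)) := by
    rw [map_mul, map_mul, map_natCast, map_pow, e_row, D.ex, ch_zero, mul_one]
    have h2 : (D.ρ : ℂ) ^ j.val ≠ 0 := pow_ne_zero _ hρ
    generalize ∑ t' : ZMod p, D.e (1, t') a * ch (-(t' * j)) = S
    field_simp
  rw [h1]
  exact IsIntegral.sum _ fun t _ => ((D.int_iff (1, t) a).2 ha).mul (ch_int _)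

theorem row_int (D : Dat p N b F) (hb : b ≠ 0) (hpb : ¬ p ∣ b) (hN : ∀ l ∈ N.primeFactors, l ∣ p * b) (a : F)
    (ha : IsIntegral ℤ a) (n : ZMod N → ZMod p → ℤ) (hn : ∀ l j, (b : ℚ) * D.arr (D.piN 1 * a) l j = (n l j : ℚ)) (j : ZMod p)
    (hc : ∀ l₀ : ZMod N, ∃ c : ℤ, ∀ i : ZMod p, (p : ℤ) ∣ n (l₀ + ((i.val * (N / p) : ℕ) : ZMod N)) j - c) :
    IsIntegral ℤ (D.pip * (D.row a j * D.x ^ j.val)) := by
  have hp := (Fact.out : p.Prime)
  have hp0 : (p : F) ≠ 0 := Nat.cast_ne_zero.2 hp.ne_zero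
  -- (1)
  have h1 : IsIntegral ℤ ((b : F) * (D.piN 1 * D.row a j)) := by
    rw [← row_mul D (D.piN 1) a (piN_isA D 1) j]
    have h2 := sum_div D (fun l => n l j) hc
    have h3 : (b : F) * D.row (D.piN 1 * a) j = (∑ l : ZMod N, (n l j : F) * D.z ^ l.val) / (p : F) := by
      rw [Dat.row, mul_div_assoc', Finset.mul_sum]
      congr 1
      refine Finset.sum_congr rfl fun l _ => ?_
      have h4 := congrArg (fun t : ℚ => (t : F)) (hn l j)
      push_cast at h4
      rw [← h4]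
      ring
    rw [h3]
    exact h2
  -- (2)
  obtain ⟨u, hu, hbu⟩ := pi_u D hb hN
  have h2 : IsIntegral ℤ ((b : F) ^ 2 * (D.pip * D.row a j)) := by
    have h3 : (b : F) ^ 2 * (D.pip * D.row a j) = u * ((b : F) * (D.piN 1 * D.row a j)) := by
      calc (b : F) ^ 2 * (D.pip * D.row a j) = (b : F) * ((b : F) * D.pip) * D.row a j := by ring
        _ = u * ((b : F) * (D.piN 1 * D.row a j)) := by
          rw [hbu]
          ring
    rw [h3]
    exact hu.mul h1
  -- (3)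
  have h3 := pax D a ha j
  -- (4)
  have hcop : IsCoprime (p : ℤ) ((b : ℤ) ^ 2) := by
    refine IsCoprime.pow_right ?_
    rw [Nat.isCoprime_iff_coprime]
    exact (Nat.Prime.coprime_iff_not_dvd hp).2 hpb
  obtain ⟨v, w, hvw⟩ := hcop
  have h4 : (v : F) * (p : F) + (w : F) * (b : F) ^ 2 = 1 := by
    have h5 := congrArg (fun t : ℤ => (t : F)) hvw
    push_cast at h5
    exact h5
  have hint : ∀ t : ℤ, IsIntegral ℤ ((t : ℤ) : F) := fun t => by
    simpa using isIntegral_algebraMap (R := ℤ) (A := F) (x := t)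
  have h5 : D.pip * (D.row a j * D.x ^ j.val) =
      (v : F) * (D.pip * ((p : F) * (D.row a j * D.x ^ j.val))) +
        (w : F) * (((b : F) ^ 2 * (D.pip * D.row a j)) * D.x ^ j.val) := by
    calc D.pip * (D.row a j * D.x ^ j.val) = ((v : F) * (p : F) + (w : F) * (b : F) ^ 2) *
          (D.pip * (D.row a j * D.x ^ j.val)) := by rw [h4, one_mul]
      _ = _ := by ring
  rw [h5]
  exact ((hint v).mul ((pip_int D).mul h3)).add ((hint w).mul (h2.mul (D.x_int.pow _)))

end Pool.Agent.H61.WN
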