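import Pool.Agent.H61.WN.Fou

/-!
# [H61 WN Rep] THEOREM WN: integers of `ℚ(z)` and rows of integers

`zz`: `w ∈ ℚ⟮z⟯ =: L` (`isA_sum`), `L` is a cyclotomic extension `{N}` of `ℚ` (`IsPrimitiveRoot.adjoin_isCyclotomicExtension` or similar,
`D.z_prim`), so the integers of `L` are `ℤ[ζ]` (`IsCyclotomicExtension.Rat.isIntegralClosure_adjoin_singleton`, general `N`): `w = P(z)`, `P ∈ ℤ[X]`
(`Algebra.adjoin_singleton_eq_range_aeval`), and `z^N = 1`: group the coefficients of `P` by their exponents mod `N`.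
`rep`: `(p b) row y j` is in `ℚ(z)` (`row_isA`) and integral: by `e_row` its image is `∑_t' e(s,t')(y) ch(-(t' j)) b ρ^(-j)`, and
`b ρ^(-j) = ρ^(p - j)` is an algebraic integer (`ρ^p = b`, `j.val < p`); use `D.int_iff`. Then `zz`.
-/

set_option autoImplicit false

namespace Pool.Agent.H61.WN

open Finset

variable {p N b : ℕ} [Fact p.Prime] [NeZero N] {F : Type} [Field F] [NumberField F]

private theorem rp_pow (D : Dat p N b F) (n : ℕ) : D.z ^ n = D.z ^ ((n : ZMod N)).val := by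
  rw [ZMod.val_natCast]
  conv_lhs => rw [← Nat.div_add_mod n N, pow_add, pow_mul, D.hz, one_pow, one_mul]

/-- the value of an integral polynomial at `z` -/
private theorem rp_poly (D : Dat p N b F) (P : Polynomial ℤ) :
    ∃ c : ZMod N → ℤ, Polynomial.aeval D.z P = ∑ l : ZMod N, (c l : F) * D.z ^ l.val := by
  induction P using Polynomial.induction_on' with
  | add P Q hP hQ =>
    obtain ⟨c, hc⟩ := hP
    obtain ⟨d, hd⟩ := hQ
    refine ⟨fun l => c l + d l, ?_⟩
    rw [map_add, hc, hd, ← Finset.sum_add_distrib]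
    refine Finset.sum_congr rfl fun l _ => ?_
    push_cast
    ring
  | monomial n a =>
    refine ⟨fun l => if l = (n : ZMod N) then a else 0, ?_⟩
    rw [Polynomial.aeval_monomial, rp_pow D n, Finset.sum_eq_single (n : ZMod N)]
    · simp
    · intro l _ hl
      simp [hl]
    · intro h
      exact absurd (Finset.mem_univ _) h

private theorem rp_mem (D : Dat p N b F) (w : F) (hw : D.isA w) :
    w ∈ IntermediateField.adjoin ℚ ({D.z} : Set F) := by
  obtain ⟨c, hc⟩ := isA_sum D w hw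
  rw [hc]
  refine sum_mem fun l _ => mul_mem ?_ (pow_mem (IntermediateField.mem_adjoin_simple_self ℚ D.z) _)
  exact (IntermediateField.adjoin ℚ ({D.z} : Set F)).algebraMap_mem (c l)

theorem zz (D : Dat p N b F) (w : F) (hw : D.isA w) (hi : IsIntegral ℤ w) :
    ∃ c : ZMod N → ℤ, w = ∑ l : ZMod N, (c l : F) * D.z ^ l.val := by
  obtain ⟨L, hL⟩ : ∃ L : IntermediateField ℚ F, L = IntermediateField.adjoin ℚ ({D.z} : Set F) :=
    ⟨_, rfl⟩
  have hcyc : IsCyclotomicExtension {N} ℚ L := by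
    rw [hL]
    exact D.z_prim.intermediateField_adjoin_isCyclotomicExtension ℚ
  have hzL : D.z ∈ L := by
    rw [hL]
    exact IntermediateField.mem_adjoin_simple_self ℚ D.z
  have hwL : w ∈ L := by
    rw [hL]
    exact rp_mem D w hw
  obtain ⟨z', hz'⟩ : ∃ z' : L, (z' : F) = D.z := ⟨⟨D.z, hzL⟩, rfl⟩
  obtain ⟨w', hw'⟩ : ∃ w' : L, (w' : F) = w := ⟨⟨w, hwL⟩, rfl⟩
  have hprim : IsPrimitiveRoot z' N := by
    refine IsPrimitiveRoot.of_map_of_injective (f := algebraMap L F) ?_ (algebraMap L F).injective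
    show IsPrimitiveRoot (z' : F) N
    rw [hz']
    exact D.z_prim
  have hint : IsIntegral ℤ w' := by
    have h1 : IsIntegral ℤ ((algebraMap L F).toIntAlgHom w') := by
      show IsIntegral ℤ (w' : F)
      rw [hw']
      exact hi
    exact (isIntegral_algHom_iff ((algebraMap L F).toIntAlgHom) (algebraMap L F).injective).1 h1
  have hcl := IsCyclotomicExtension.Rat.isIntegralClosure_adjoin_singleton (n := N) hprim
  obtain ⟨y, hy⟩ := hcl.isIntegral_iff.1 hint
  have hy' : (y : L) = w' := hy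
  have hy2 : w' ∈ Algebra.adjoin ℤ ({z'} : Set L) := by
    rw [← hy']
    exact y.2
  rw [Algebra.adjoin_singleton_eq_range_aeval] at hy2
  obtain ⟨P, hP⟩ := hy2
  have hP' : Polynomial.aeval z' P = w' := hP
  obtain ⟨c, hc⟩ := rp_poly D P
  refine ⟨c, ?_⟩
  rw [← hc, ← hw', ← hP', ← hz']
  have h2 := Polynomial.aeval_algHom_apply ((algebraMap L F).toIntAlgHom) z' P
  exact h2.symm

theorem rep (D : Dat p N b F) (y : F) (hy : IsIntegral ℤ y) (j : ZMod p) :
    ∃ c : ZMod N → ℤ, (p : F) * (b : F) * D.row y j = ∑ l : ZMod N, (c l : F) * D.z ^ l.val := by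
  have hp : p.Prime := Fact.out
  refine zz D _ ?_ ?_
  · intro s t
    rw [map_mul, map_mul, map_mul, map_mul, map_natCast, map_natCast, map_natCast, map_natCast,
      row_isA D y j s t]
  · rw [← D.int_iff ((1 : (ZMod N)ˣ), (0 : ZMod p)), map_mul, map_mul, map_natCast, map_natCast,
      e_row]
    have hρ0 : (D.ρ : ℂ) ≠ 0 := by
      have h1 : D.ρ ≠ 0 := by linarith [D.hρ]
      exact_mod_cast h1
    have hρi : IsIntegral ℤ (D.ρ : ℂ) := by
      refine IsIntegral.of_pow hp.pos ?_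
      have h1 : (D.ρ : ℂ) ^ p = (b : ℂ) := by exact_mod_cast congrArg ((↑) : ℝ → ℂ) D.hρp
      rw [h1]
      simpa using isIntegral_algebraMap (R := ℤ) (A := ℂ) (x := (b : ℤ))
    have hchi : ∀ a : ZMod p, IsIntegral ℤ (ch a) := by
      intro a
      refine IsIntegral.of_pow hp.pos ?_
      rw [ch_pow, CharP.cast_eq_zero, zero_mul, ch_zero]
      exact isIntegral_one
    have hb : (b : ℂ) = (D.ρ : ℂ) ^ (p - j.val) * (D.ρ : ℂ) ^ j.val := by
      rw [← pow_add, Nat.sub_add_cancel (ZMod.val_lt j).le]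
      exact_mod_cast congrArg ((↑) : ℝ → ℂ) D.hρp.symm
    have hp0 : (p : ℂ) ≠ 0 := by exact_mod_cast hp.ne_zero
    have h2 : (p : ℂ) * (b : ℂ) * ((∑ t' : ZMod p, D.e ((1 : (ZMod N)ˣ), t') y * ch (-(t' * j))) *
        ((D.ρ : ℂ) ^ j.val)⁻¹ / p) =
        (∑ t' : ZMod p, D.e ((1 : (ZMod N)ˣ), t') y * ch (-(t' * j))) * (D.ρ : ℂ) ^ (p - j.val) := by
      obtain ⟨A, hA⟩ : ∃ A : ℂ, A = ∑ t' : ZMod p, D.e ((1 : (ZMod N)ˣ), t') y * ch (-(t' * j)) := ⟨_, rfl⟩
      rw [hb, ← hA]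
      field_simp
    rw [h2]
    refine IsIntegral.mul (IsIntegral.sum _ fun t' _ => ?_) (hρi.pow _)
    exact ((D.int_iff _ y).2 hy).mul (hchi _)

end Pool.Agent.H61.WN
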