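import Pool.Agent.H61.WN.Rep

/-!
# [H61 WN Tpi] THEOREM WN: traces with `π_k`, integrality of the arrays

`trace_pi`: `e(s,t)(π_k) = g(s)`, `g(s) = ∏_(ℓ ∣ N) (1 - ch(-(k (N/ℓ)) s))` for every `s : ZMod N`; if `s` is not a unit some prime `ℓ ∣ N` divides
`s`, and `(N/ℓ) s = 0` in `ZMod N`: `g(s) = 0`. So the trace is `p ∑_(s : ZMod N) g(s) ch(m s)`; expand the product over the subsets `A` of the
set of primes (`Finset.prod_add` / `Finset.prod_one_sub_ordered` or induction over a `Finset`, for an arbitrary family of exponents): every term is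
`± ∑_s ch(c s) = ± N` or `0` (`sum_ch_mul`).
`arr_int`: `N b arr = b Tr(π y z^(-l) x^(-j)) = b Tr(π (row y j) z^(-l))` (`trace_mon`, `row_mul`, `π` in `ℚ(z)`), and `(p b) row y j = ∑ c_m z^m` with
integers `c_m` (`rep`), `Tr(π z^(m-l)) = p N T_m` (`trace_pi`): `p N b arr = ∑ c_m p N T_m`.
-/

set_option autoImplicit false

namespace Pool.Agent.H61.WN

open Finset

variable {p N b : ℕ} [Fact p.Prime] [NeZero N] {F : Type} [Field F] [NumberField F]

theorem piN_isA (D : Dat p N b F) (k : ℕ) : D.isA (D.piN k) := by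
  intro s t
  unfold Dat.piN
  rw [map_prod, map_prod]
  refine Finset.prod_congr rfl fun l _ => ?_
  rw [map_sub, map_sub, map_pow, map_pow, map_inv₀, map_inv₀, D.ez, D.ez, map_one, map_one]

/-- sums of products of the `1 - ch(a s)` are divisible by `N` -/
private theorem tp_sum (S : Finset ℕ) (a : ℕ → ZMod N) :
    ∀ c : ZMod N, ∃ T : ℤ, ∑ s : ZMod N, (∏ l ∈ S, (1 - ch (a l * s))) * ch (c * s) = (N : ℂ) * T := by
  induction S using Finset.induction_on with
  | empty =>
    intro c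
    have h1 := sum_ch_mul (N := N) c
    by_cases hc : c = 0
    · refine ⟨1, ?_⟩
      rw [if_pos hc] at h1
      simp only [Finset.prod_empty, one_mul, Int.cast_one, mul_one]
      rw [← h1]
      exact Finset.sum_congr rfl fun s _ => by rw [mul_comm]
    · refine ⟨0, ?_⟩
      rw [if_neg hc] at h1
      simp only [Finset.prod_empty, one_mul, Int.cast_zero, mul_zero]
      rw [← h1]
      exact Finset.sum_congr rfl fun s _ => by rw [mul_comm]
  | insert l S hl ih =>
    intro c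
    obtain ⟨T₁, h1⟩ := ih c
    obtain ⟨T₂, h2⟩ := ih (a l + c)
    refine ⟨T₁ - T₂, ?_⟩
    push_cast
    rw [mul_sub, ← h1, ← h2, ← Finset.sum_sub_distrib]
    refine Finset.sum_congr rfl fun s _ => ?_
    rw [Finset.prod_insert hl, add_mul, ch_add]
    ring

/-- `g(s)` for all `s : ZMod N` -/
private noncomputable def gp (N : ℕ) [NeZero N] (k : ℕ) (s : ZMod N) : ℂ :=
  ∏ l ∈ N.primeFactors, (1 - ch (-((k * (N / l) : ℕ) : ZMod N) * s))

private theorem e_piN (D : Dat p N b F) (k : ℕ) (s : (ZMod N)ˣ) (t : ZMod p) :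
    D.e (s, t) (D.piN k) = gp N k (s : ZMod N) := by
  unfold Dat.piN gp
  rw [map_prod]
  refine Finset.prod_congr rfl fun l _ => ?_
  rw [map_sub, map_one, map_pow, map_inv₀, D.ez, ch_inv, ch_pow, neg_mul, mul_neg]

private theorem gp_zero (k : ℕ) (s : ZMod N) (hs : ¬ IsUnit s) : gp N k s = 0 := by
  have hN0 : N ≠ 0 := NeZero.ne N
  have h1 : ¬ Nat.Coprime s.val N := by
    intro h
    apply hs
    have h2 := (ZMod.isUnit_iff_coprime s.val N).2 h
    rwa [ZMod.natCast_zmod_val] at h2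
  obtain ⟨l, hl, hls, hlN⟩ := Nat.Prime.not_coprime_iff_dvd.1 h1
  unfold gp
  refine Finset.prod_eq_zero (i := l) (Nat.mem_primeFactors.2 ⟨hl, hlN, hN0⟩) ?_
  have h3 : ((k * (N / l) : ℕ) : ZMod N) * s = 0 := by
    obtain ⟨u, hu⟩ := hls
    have h4 : ((k * (N / l) : ℕ) : ZMod N) * s = ((k * (N / l) * (l * u) : ℕ) : ZMod N) := by
      conv_lhs => rw [← ZMod.natCast_zmod_val s, hu]
      push_cast
      ring
    have h5 : k * (N / l) * (l * u) = N * (k * u) := by
      have h6 := Nat.div_mul_cancel hlN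
      calc k * (N / l) * (l * u) = (N / l * l) * (k * u) := by ring
        _ = N * (k * u) := by rw [h6]
    rw [h4, h5, Nat.cast_mul, CharP.cast_eq_zero, zero_mul]
  rw [neg_mul, h3, neg_zero, ch_zero, sub_self]

private theorem sum_units (G : ZMod N → ℂ) (hG : ∀ s, ¬ IsUnit s → G s = 0) :
    ∑ s : (ZMod N)ˣ, G (s : ZMod N) = ∑ s : ZMod N, G s := by
  classical
  rw [← Finset.sum_image (s := (Finset.univ : Finset (ZMod N)ˣ)) (g := fun s : (ZMod N)ˣ => (s : ZMod N))
    (f := G) (fun a _ c _ h => Units.ext h)]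
  refine Finset.sum_subset (Finset.subset_univ _) fun s _ hs => hG s fun hu => hs ?_
  obtain ⟨u, rfl⟩ := hu
  exact Finset.mem_image_of_mem _ (Finset.mem_univ u)

theorem trace_pi (D : Dat p N b F) (k : ℕ) (m : ZMod N) :
    ∃ T : ℤ, Algebra.trace ℚ F (D.piN k * D.z ^ m.val) = (p : ℚ) * N * T := by
  obtain ⟨T, hT⟩ := tp_sum (N := N) N.primeFactors (fun l => -((k * (N / l) : ℕ) : ZMod N)) m
  refine ⟨T, ?_⟩
  have h1 : ((Algebra.trace ℚ F (D.piN k * D.z ^ m.val) : ℚ) : ℂ) = (p : ℂ) * N * T := by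
    rw [D.trace_eq, Fintype.sum_prod_type]
    have h2 : ∀ (s : (ZMod N)ˣ) (t : ZMod p), D.e (s, t) (D.piN k * D.z ^ m.val) =
        gp N k (s : ZMod N) * ch (m * (s : ZMod N)) := by
      intro s t
      rw [map_mul, e_piN, D.e_zl]
    simp only [h2, Finset.sum_const, Finset.card_univ, ZMod.card, nsmul_eq_mul]
    rw [← Finset.mul_sum, sum_units (fun s => gp N k s * ch (m * s)) fun s hs => by
      rw [gp_zero k s hs, zero_mul], mul_assoc, ← hT]
    rfl
  exact_mod_cast h1

private theorem tp_pow (D : Dat p N b F) (a c : ZMod N) :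
    D.z ^ a.val * D.z ^ c.val = D.z ^ (a + c).val := by
  have h1 : (a + c).val = (a.val + c.val) % N := ZMod.val_add a c
  rw [← pow_add, h1]
  conv_lhs => rw [← Nat.div_add_mod (a.val + c.val) N, pow_add, pow_mul, D.hz, one_pow, one_mul]

theorem arr_int (D : Dat p N b F) (k : ℕ) (y : F) (hy : IsIntegral ℤ y) (l : ZMod N) (j : ZMod p) :
    ∃ T : ℤ, (b : ℚ) * D.arr (D.piN k * y) l j = (T : ℚ) := by
  have hp : p.Prime := Fact.out
  obtain ⟨c, hc⟩ := rep D y hy j
  choose T hT using fun m : ZMod N => trace_pi D k (m + -l)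
  refine ⟨∑ m : ZMod N, c m * T m, ?_⟩
  have hN0 : (N : ℚ) ≠ 0 := by exact_mod_cast NeZero.ne N
  have hp0 : (p : ℚ) ≠ 0 := by exact_mod_cast hp.ne_zero
  have h1 : (p : ℚ) * (b : ℚ) * Algebra.trace ℚ F (D.piN k * y * D.mon l j) =
      ∑ m : ZMod N, (c m : ℚ) * ((p : ℚ) * N * T m) := by
    rw [trace_mon, row_mul D _ _ (piN_isA D k)]
    have h2 : (p : ℚ) * (b : ℚ) * Algebra.trace ℚ F (D.piN k * D.row y j * D.z ^ (-l).val) =
        Algebra.trace ℚ F (((p : ℚ) * (b : ℚ)) • (D.piN k * D.row y j * D.z ^ (-l).val)) := by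
      rw [map_smul, smul_eq_mul]
    have h3 : ((p : ℚ) * (b : ℚ)) • (D.piN k * D.row y j * D.z ^ (-l).val) =
        ∑ m : ZMod N, ((c m : ℤ) : ℚ) • (D.piN k * D.z ^ (m + -l).val) := by
      have h4 : ((p : ℚ) * (b : ℚ)) • (D.piN k * D.row y j * D.z ^ (-l).val) =
          D.piN k * ((p : F) * (b : F) * D.row y j) * D.z ^ (-l).val := by
        rw [Algebra.smul_def, map_mul, map_natCast, map_natCast]
        ring
      rw [h4, hc, Finset.mul_sum, Finset.sum_mul]
      refine Finset.sum_congr rfl fun m _ => ?_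
      rw [Algebra.smul_def, ← tp_pow, map_intCast]
      ring
    rw [h2, h3, map_sum]
    refine Finset.sum_congr rfl fun m _ => ?_
    rw [map_smul, smul_eq_mul, hT m]
  have h5 : (p : ℚ) * (b : ℚ) * Algebra.trace ℚ F (D.piN k * y * D.mon l j) =
      (p : ℚ) * N * ∑ m : ZMod N, (c m : ℚ) * T m := by
    rw [h1, Finset.mul_sum]
    exact Finset.sum_congr rfl fun m _ => by ring
  unfold Dat.arr
  push_cast
  have h6 : (b : ℚ) * Algebra.trace ℚ F (D.piN k * y * D.mon l j) = N * ∑ m : ZMod N, (c m : ℚ) * T m := by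
    apply mul_left_cancel₀ hp0
    rw [← mul_assoc, h5, mul_assoc]
  rw [← mul_div_assoc, h6, mul_div_cancel_left₀ _ hN0]

end Pool.Agent.H61.WN
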